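import Mathlib
import Pool.Agent.Helper133.Brouwer
set_option autoImplicit false

/-! Part of the proof that `c(4,3,2) ≤ 6` (MP_8fca14_co).  Plan: helper257; this file: helper685. -/
namespace H257R5.V
open Pool.Agent.Helper133.Brouwer


/-- TARGET 1 (also to be proved, it is used elsewhere): continuous metric projection onto a nonempty convex compact set. -/
theorem exists_proj {V : Type*} [NormedAddCommGroup V] [InnerProductSpace ℝ V]
    (K : Set V) (hne : K.Nonempty) (hconv : Convex ℝ K) (hcomp : IsCompact K) :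
    ∃ P : V → V, Continuous P ∧ ∀ v, P v ∈ K ∧ ∀ y ∈ K, inner ℝ (v - P v) (y - P v) ≤ 0 := by
  have hex : ∀ v : V, ∃ p : V, p ∈ K ∧ ∀ y ∈ K, inner ℝ (v - p) (y - p) ≤ 0 := by
    intro v
    obtain ⟨p, hp, hpe⟩ := exists_norm_eq_iInf_of_complete_convex hne hcomp.isComplete hconv v
    exact ⟨p, hp, (norm_eq_iInf_iff_real_inner_le_zero hconv hp).1 hpe⟩
  choose P hP using hex
  refine ⟨P, ?_, hP⟩
  have hL : LipschitzWith 1 P := by
    apply LipschitzWith.of_dist_le_mul
    intro v w
    rw [NNReal.coe_one, one_mul, dist_eq_norm, dist_eq_norm]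
    have h1 := (hP v).2 (P w) (hP w).1
    have h2 := (hP w).2 (P v) (hP v).1
    have h3 : inner ℝ (P v - P w) (P v - P w) ≤ inner ℝ (v - w) (P v - P w) := by
      have e1 : inner ℝ (v - P v) (P w - P v) = - inner ℝ (v - P v) (P v - P w) := by
        rw [← inner_neg_right, neg_sub]
      have e2 : inner ℝ (v - w) (P v - P w) - inner ℝ (P v - P w) (P v - P w)
          = inner ℝ (v - P v) (P v - P w) - inner ℝ (w - P w) (P v - P w) := by
        rw [← inner_sub_left, ← inner_sub_left]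
        congr 1
        abel
      rw [e1] at h1
      linarith
    have h4 : inner ℝ (v - w) (P v - P w) ≤ ‖v - w‖ * ‖P v - P w‖ := real_inner_le_norm _ _
    rw [real_inner_self_eq_norm_mul_norm] at h3
    by_cases h0 : ‖P v - P w‖ = 0
    · rw [h0]; exact norm_nonneg _
    · have hpos : 0 < ‖P v - P w‖ := lt_of_le_of_ne (norm_nonneg _) (Ne.symm h0)
      exact le_of_mul_le_mul_right (h3.trans h4) hpos
  exact hL.continuous

/-- TARGET 2: variational inequality on a product of three convex compact sets. -/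
theorem vi_prod {A B C : Type*}
    [NormedAddCommGroup A] [InnerProductSpace ℝ A] [FiniteDimensional ℝ A]
    [NormedAddCommGroup B] [InnerProductSpace ℝ B] [FiniteDimensional ℝ B]
    [NormedAddCommGroup C] [InnerProductSpace ℝ C] [FiniteDimensional ℝ C]
    (X : Set A) (Y : Set B) (Z : Set C)
    (hX : X.Nonempty) (hXc : Convex ℝ X) (hXk : IsCompact X)
    (hY : Y.Nonempty) (hYc : Convex ℝ Y) (hYk : IsCompact Y)
    (hZ : Z.Nonempty) (hZc : Convex ℝ Z) (hZk : IsCompact Z)
    (F : A × B × C → A) (G : A × B × C → B) (H : A × B × C → C)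
    (hF : Continuous F) (hG : Continuous G) (hH : Continuous H) :
    ∃ a ∈ X, ∃ b ∈ Y, ∃ c ∈ Z,
      (∀ y ∈ X, inner ℝ (F (a, b, c)) (y - a) ≤ 0) ∧
      (∀ y ∈ Y, inner ℝ (G (a, b, c)) (y - b) ≤ 0) ∧
      (∀ y ∈ Z, inner ℝ (H (a, b, c)) (y - c) ≤ 0) := by
  obtain ⟨PX, hPXc, hPX⟩ := exists_proj X hX hXc hXk
  obtain ⟨PY, hPYc, hPY⟩ := exists_proj Y hY hYc hYk
  obtain ⟨PZ, hPZc, hPZ⟩ := exists_proj Z hZ hZc hZk
  obtain ⟨RX, hRX⟩ := hXk.isBounded.exists_norm_le
  obtain ⟨RY, hRY⟩ := hYk.isBounded.exists_norm_le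
  obtain ⟨RZ, hRZ⟩ := hZk.isBounded.exists_norm_le
  let f : A × B × C → A × B × C := fun p =>
    (PX (p.1 + F p), PY (p.2.1 + G p), PZ (p.2.2 + H p))
  have hf : Continuous f := by
    refine (hPXc.comp (continuous_fst.add hF)).prodMk
      ((hPYc.comp ((continuous_fst.comp continuous_snd).add hG)).prodMk
        (hPZc.comp ((continuous_snd.comp continuous_snd).add hH)))
  have hR : ∀ p, ‖f p‖ ≤ max RX (max RY RZ) := by
    intro p
    refine (norm_prod_le_iff).2 ⟨?_, ?_⟩
    · exact (hRX _ (hPX _).1).trans (le_max_left _ _)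
    · refine (norm_prod_le_iff).2 ⟨?_, ?_⟩
      · exact (hRY _ (hPY _).1).trans ((le_max_left _ _).trans (le_max_right _ _))
      · exact (hRZ _ (hPZ _).1).trans ((le_max_right _ _).trans (le_max_right _ _))
  obtain ⟨⟨a, b, c⟩, hfix⟩ := brouwer f hf _ hR
  have ha : PX (a + F (a, b, c)) = a := congrArg Prod.fst hfix
  have hb : PY (b + G (a, b, c)) = b := congrArg (fun q => q.2.1) hfix
  have hc : PZ (c + H (a, b, c)) = c := congrArg (fun q => q.2.2) hfix
  refine ⟨a, ha ▸ (hPX _).1, b, hb ▸ (hPY _).1, c, hc ▸ (hPZ _).1, ?_, ?_, ?_⟩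
  · intro y hy
    have := (hPX (a + F (a, b, c))).2 y hy
    rw [ha, add_sub_cancel_left] at this
    exact this
  · intro y hy
    have := (hPY (b + G (a, b, c))).2 y hy
    rw [hb, add_sub_cancel_left] at this
    exact this
  · intro y hy
    have := (hPZ (c + H (a, b, c))).2 y hy
    rw [hc, add_sub_cancel_left] at this
    exact this

end H257R5.V
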