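import Mathlib
import Pool.Agent.H257R5.Six.VI
set_option autoImplicit false

/-! Part of the proof that `c(4,3,2) ≤ 6` (MP_8fca14_co).  Plan: helper257; this file: helper54. -/
namespace H257R5.E
open H257R5.V


/-- auxiliary: the weight of a gap. -/
noncomputable def om (g : Fin 4) (l r : ℝ) (a : Fin 3 → ℝ) : ℝ :=
  ∏ t : Fin 3, if t.castSucc < g then max (l - a t) 0 else max (a t - r) 0

theorem om_nonneg (g : Fin 4) (l r : ℝ) (a : Fin 3 → ℝ) : 0 ≤ om g l r a := by
  unfold om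
  apply Finset.prod_nonneg
  intro t _
  split_ifs
  · exact le_max_right _ _
  · exact le_max_right _ _

theorem om_ne {g : Fin 4} {l r : ℝ} {a : Fin 3 → ℝ} (h : om g l r a ≠ 0) (t : Fin 3) :
    (t.castSucc < g → a t < l) ∧ (¬ t.castSucc < g → r < a t) := by
  unfold om at h
  rw [Finset.prod_ne_zero_iff] at h
  have ht := h t (Finset.mem_univ t)
  constructor
  · intro hg
    rw [if_pos hg] at ht
    by_contra hcon
    apply ht
    apply max_eq_right
    linarith [not_lt.mp hcon]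
  · intro hg
    rw [if_neg hg] at ht
    by_contra hcon
    apply ht
    apply max_eq_right
    linarith [not_lt.mp hcon]

theorem om_unique_aux {g h : Fin 4} {l r : ℝ} (hlr : l ≤ r) {a : Fin 3 → ℝ} (hgh : g < h)
    (hg : om g l r a ≠ 0) (hh : om h l r a ≠ 0) : False := by
  have h3 : g.val < 3 := by
    have := h.isLt
    have hv : g.val < h.val := hgh
    omega
  have hc : (⟨g.val, h3⟩ : Fin 3).castSucc = g := by
    ext
    rfl
  have e1 := (om_ne hg ⟨g.val, h3⟩).2 (by rw [hc]; exact lt_irrefl _)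
  have e2 := (om_ne hh ⟨g.val, h3⟩).1 (by rw [hc]; exact hgh)
  linarith

theorem om_unique {g h : Fin 4} {l r : ℝ} (hlr : l ≤ r) {a : Fin 3 → ℝ}
    (hg : om g l r a ≠ 0) (hh : om h l r a ≠ 0) : g = h := by
  rcases lt_trichotomy g h with hgh | hgh | hgh
  · exact (om_unique_aux hlr hgh hg hh).elim
  · exact hgh
  · exact (om_unique_aux hlr hgh hh hg).elim

theorem om_exists {l r : ℝ} {a : Fin 3 → ℝ} (h01 : a 0 ≤ a 1) (h12 : a 1 ≤ a 2)
    (hno : ∀ t, ¬ (l ≤ a t ∧ a t ≤ r)) : ∃ g : Fin 4, om g l r a ≠ 0 := by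
  have key : ∀ t, a t < l ∨ r < a t := by
    intro t
    by_contra hcon
    push Not at hcon
    exact hno t hcon
  have mk : ∀ g : Fin 4, (∀ t : Fin 3, (t.castSucc < g → a t < l) ∧ (¬ t.castSucc < g → r < a t)) →
      om g l r a ≠ 0 := by
    intro g hg
    unfold om
    rw [Finset.prod_ne_zero_iff]
    intro t _
    split_ifs with hc
    · have := (hg t).1 hc
      rw [max_eq_left (by linarith)]
      intro h0
      linarith
    · have := (hg t).2 hc
      rw [max_eq_left (by linarith)]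
      intro h0
      linarith
  by_cases c0 : r < a 0
  · refine ⟨0, mk 0 ?_⟩
    intro t
    fin_cases t
    · exact ⟨fun h => absurd h (by decide), fun _ => c0⟩
    · exact ⟨fun h => absurd h (by decide), fun _ => lt_of_lt_of_le c0 h01⟩
    · exact ⟨fun h => absurd h (by decide), fun _ => lt_of_lt_of_le c0 (h01.trans h12)⟩
  · have d0 : a 0 < l := (key 0).resolve_right c0
    by_cases c1 : r < a 1
    · refine ⟨1, mk 1 ?_⟩
      intro t
      fin_cases t
      · exact ⟨fun _ => d0, fun h => absurd (by decide) h⟩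
      · exact ⟨fun h => absurd h (by decide), fun _ => c1⟩
      · exact ⟨fun h => absurd h (by decide), fun _ => lt_of_lt_of_le c1 h12⟩
    · have d1 : a 1 < l := (key 1).resolve_right c1
      by_cases c2 : r < a 2
      · refine ⟨2, mk 2 ?_⟩
        intro t
        fin_cases t
        · exact ⟨fun _ => d0, fun h => absurd (by decide) h⟩
        · exact ⟨fun _ => d1, fun h => absurd (by decide) h⟩
        · exact ⟨fun h => absurd h (by decide), fun _ => c2⟩
      · have d2 : a 2 < l := (key 2).resolve_right c2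
        refine ⟨3, mk 3 ?_⟩
        intro t
        fin_cases t
        · exact ⟨fun _ => d0, fun h => absurd (by decide) h⟩
        · exact ⟨fun _ => d1, fun h => absurd (by decide) h⟩
        · exact ⟨fun _ => d2, fun h => absurd (by decide) h⟩

theorem gap_eq (m M a0 a1 a2 W0 W1 W2 W3 : ℝ) (hmM : m < M) (h0 : m ≤ a0) (h1 : a0 ≤ a1)
    (h2 : a1 ≤ a2) (h3 : a2 ≤ M) (hW0 : 0 ≤ W0) (hW1 : 0 ≤ W1) (hW2 : 0 ≤ W2) (hW3 : 0 ≤ W3)
    (t0 : (W1 - W0) * (M - a0) + (W2 - W1) * (M - a1) + (W3 - W2) * (M - a2) ≤ 0)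
    (t1 : (W1 - W0) * (m - a0) + (W2 - W1) * (M - a1) + (W3 - W2) * (M - a2) ≤ 0)
    (t2 : (W1 - W0) * (m - a0) + (W2 - W1) * (m - a1) + (W3 - W2) * (M - a2) ≤ 0)
    (t3 : (W1 - W0) * (m - a0) + (W2 - W1) * (m - a1) + (W3 - W2) * (m - a2) ≤ 0)
    (z0 : a0 = m → W0 = 0) (z1 : a0 = a1 → W1 = 0) (z2 : a1 = a2 → W2 = 0)
    (z3 : a2 = M → W3 = 0) : ∃ V, 0 ≤ V ∧ W0 = V ∧ W1 = V ∧ W2 = V ∧ W3 = V := by
  have hD : 0 < M - m := by linarith
  obtain ⟨T, hT⟩ : ∃ T, T = W0 * (a0 - m) + W1 * (a1 - a0) + W2 * (a2 - a1) + W3 * (M - a2) :=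
    ⟨_, rfl⟩
  obtain ⟨V, hV⟩ : ∃ V, V = T / (M - m) := ⟨_, rfl⟩
  have hVD : V * (M - m) = T := by
    rw [hV]
    exact div_mul_cancel₀ T hD.ne'
  have p0 : 0 ≤ W0 * (a0 - m) := mul_nonneg hW0 (by linarith)
  have p1 : 0 ≤ W1 * (a1 - a0) := mul_nonneg hW1 (by linarith)
  have p2 : 0 ≤ W2 * (a2 - a1) := mul_nonneg hW2 (by linarith)
  have p3 : 0 ≤ W3 * (M - a2) := mul_nonneg hW3 (by linarith)
  have hT0 : 0 ≤ T := by rw [hT]; linarith
  have hV0 : 0 ≤ V := by rw [hV]; exact div_nonneg hT0 hD.le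
  have g0 : V ≤ W0 := by rw [hV, div_le_iff₀ hD, hT]; linarith
  have g1 : V ≤ W1 := by rw [hV, div_le_iff₀ hD, hT]; linarith
  have g2 : V ≤ W2 := by rw [hV, div_le_iff₀ hD, hT]; linarith
  have g3 : V ≤ W3 := by rw [hV, div_le_iff₀ hD, hT]; linarith
  have q0 : 0 ≤ (W0 - V) * (a0 - m) := mul_nonneg (by linarith) (by linarith)
  have q1 : 0 ≤ (W1 - V) * (a1 - a0) := mul_nonneg (by linarith) (by linarith)
  have q2 : 0 ≤ (W2 - V) * (a2 - a1) := mul_nonneg (by linarith) (by linarith)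
  have q3 : 0 ≤ (W3 - V) * (M - a2) := mul_nonneg (by linarith) (by linarith)
  have qs : (W0 - V) * (a0 - m) + (W1 - V) * (a1 - a0) + (W2 - V) * (a2 - a1)
      + (W3 - V) * (M - a2) = 0 := by
    have : (W0 - V) * (a0 - m) + (W1 - V) * (a1 - a0) + (W2 - V) * (a2 - a1)
      + (W3 - V) * (M - a2) = (W0 * (a0 - m) + W1 * (a1 - a0) + W2 * (a2 - a1)
        + W3 * (M - a2)) - V * (M - m) := by ring
    rw [this, ← hT, hVD, sub_self]
  have e0 : (W0 - V) * (a0 - m) = 0 := by linarith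
  have e1 : (W1 - V) * (a1 - a0) = 0 := by linarith
  have e2 : (W2 - V) * (a2 - a1) = 0 := by linarith
  have e3 : (W3 - V) * (M - a2) = 0 := by linarith
  refine ⟨V, hV0, ?_, ?_, ?_, ?_⟩
  · rcases mul_eq_zero.mp e0 with h | h
    · linarith
    · have := z0 (by linarith)
      linarith
  · rcases mul_eq_zero.mp e1 with h | h
    · linarith
    · have := z1 (by linarith)
      linarith
  · rcases mul_eq_zero.mp e2 with h | h
    · linarith
    · have := z2 (by linarith)
      linarith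
  · rcases mul_eq_zero.mp e3 with h | h
    · linarith
    · have := z3 (by linarith)
      linarith

theorem zero_of_vi {α : Type*} (s : Finset α) {V : Type*} [NormedAddCommGroup V]
    [InnerProductSpace ℝ V] (ρ : ℝ) (μ : α → ℝ) (hμ : ∀ i, 0 ≤ μ i) (P : α → V)
    (hP : ∀ i, P i ∈ Metric.closedBall (0 : V) ρ) (q : V)
    (h : ∀ y ∈ Metric.closedBall (0 : V) ρ, inner ℝ (∑ i ∈ s, μ i • (P i - q)) (y - q) ≤ 0) :
    ∑ i ∈ s, μ i • (P i - q) = 0 := by
  by_cases h0 : ∑ i ∈ s, μ i = 0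
  · rw [Finset.sum_eq_zero_iff_of_nonneg (fun i _ => hμ i)] at h0
    apply Finset.sum_eq_zero
    intro i hi
    rw [h0 i hi, zero_smul]
  · have hpos : 0 < ∑ i ∈ s, μ i :=
      lt_of_le_of_ne (Finset.sum_nonneg (fun i _ => hμ i)) (Ne.symm h0)
    obtain ⟨c, hc⟩ : ∃ c, c = ∑ i ∈ s, μ i := ⟨_, rfl⟩
    rw [← hc] at hpos
    have hy : ∑ i ∈ s, (c⁻¹ * μ i) • P i ∈ Metric.closedBall (0 : V) ρ := by
      apply (convex_closedBall (0 : V) ρ).sum_mem
      · intro i _
        exact mul_nonneg (inv_nonneg.mpr hpos.le) (hμ i)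
      · rw [← Finset.mul_sum, ← hc]
        exact inv_mul_cancel₀ hpos.ne'
      · intro i _
        exact hP i
    have hG : ∑ i ∈ s, μ i • (P i - q) = c • (∑ i ∈ s, (c⁻¹ * μ i) • P i - q) := by
      have e1 : ∑ i ∈ s, μ i • (P i - q) = ∑ i ∈ s, μ i • P i - c • q := by
        simp only [smul_sub, Finset.sum_sub_distrib]
        rw [hc, Finset.sum_smul]
      rw [e1, smul_sub, Finset.smul_sum]
      congr 1
      apply Finset.sum_congr rfl
      intro i _
      rw [smul_smul, ← mul_assoc, mul_inv_cancel₀ hpos.ne', one_mul]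
    have hle := h _ hy
    rw [hG, real_inner_smul_left, real_inner_self_eq_norm_sq] at hle
    have hn : ‖∑ i ∈ s, (c⁻¹ * μ i) • P i - q‖ ^ 2 ≤ 0 := by
      by_contra hcon
      push Not at hcon
      have := mul_pos hpos hcon
      linarith
    have hz : ∑ i ∈ s, (c⁻¹ * μ i) • P i - q = 0 := by
      have h1 : ‖∑ i ∈ s, (c⁻¹ * μ i) • P i - q‖ ^ 2 = 0 := le_antisymm hn (sq_nonneg _)
      exact norm_eq_zero.mp (pow_eq_zero_iff (two_ne_zero) |>.mp h1)
    rw [hG, hz, smul_zero]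

theorem X_compact (m M : ℝ) : IsCompact {a : EuclideanSpace ℝ (Fin 3) |
    m ≤ a 0 ∧ a 0 ≤ a 1 ∧ a 1 ≤ a 2 ∧ a 2 ≤ M} := by
  have hK : IsCompact ((WithLp.toLp 2 : (Fin 3 → ℝ) → EuclideanSpace ℝ (Fin 3)) ''
      (Set.Icc (fun _ => m) (fun _ => M))) :=
    isCompact_Icc.image (PiLp.continuous_toLp 2 _)
  apply hK.of_isClosed_subset
  · have c0 : Continuous (fun a : EuclideanSpace ℝ (Fin 3) => a 0) := by fun_prop
    have c1 : Continuous (fun a : EuclideanSpace ℝ (Fin 3) => a 1) := by fun_prop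
    have c2 : Continuous (fun a : EuclideanSpace ℝ (Fin 3) => a 2) := by fun_prop
    exact (isClosed_le continuous_const c0).inter ((isClosed_le c0 c1).inter
      ((isClosed_le c1 c2).inter (isClosed_le c2 continuous_const)))
  · intro a ha
    obtain ⟨h0, h1, h2, h3⟩ := ha
    refine ⟨WithLp.ofLp a, ⟨?_, ?_⟩, rfl⟩
    · intro i
      fin_cases i
      · exact h0
      · exact h0.trans h1
      · exact h0.trans (h1.trans h2)
    · intro i
      fin_cases i
      · exact h1.trans (h2.trans h3)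
      · exact h2.trans h3
      · exact h3

theorem X_convex (m M : ℝ) : Convex ℝ {a : EuclideanSpace ℝ (Fin 3) |
    m ≤ a 0 ∧ a 0 ≤ a 1 ∧ a 1 ≤ a 2 ∧ a 2 ≤ M} := by
  intro a ha b hb s t hs ht hst
  obtain ⟨h0, h1, h2, h3⟩ := ha
  obtain ⟨k0, k1, k2, k3⟩ := hb
  have ht' : t = 1 - s := by linarith
  have ev : ∀ i, (s • a + t • b) i = s * a i + t * b i := fun i => rfl
  show m ≤ (s • a + t • b) 0 ∧ (s • a + t • b) 0 ≤ (s • a + t • b) 1 ∧
    (s • a + t • b) 1 ≤ (s • a + t • b) 2 ∧ (s • a + t • b) 2 ≤ M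
  rw [ev 0, ev 1, ev 2]
  refine ⟨?_, ?_, ?_, ?_⟩
  · have e1 := mul_le_mul_of_nonneg_left h0 hs
    have e2 := mul_le_mul_of_nonneg_left k0 ht
    have e3 : s * m + t * m = m := by rw [← add_mul, hst, one_mul]
    linarith
  · have e1 := mul_le_mul_of_nonneg_left h1 hs
    have e2 := mul_le_mul_of_nonneg_left k1 ht
    linarith
  · have e1 := mul_le_mul_of_nonneg_left h2 hs
    have e2 := mul_le_mul_of_nonneg_left k2 ht
    linarith
  · have e1 := mul_le_mul_of_nonneg_left h3 hs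
    have e2 := mul_le_mul_of_nonneg_left k3 ht
    have e3 : s * M + t * M = M := by rw [← add_mul, hst, one_mul]
    linarith

open Classical in
/-- TARGET. -/
theorem equilibrium {α : Type*} [Fintype α] (l r : α → ℝ) (hlr : ∀ i, l i ≤ r i)
    (Kp Km : α → Set (EuclideanSpace ℝ (Fin 2)))
    (hKp : ∀ i, (Kp i).Nonempty ∧ Convex ℝ (Kp i) ∧ IsCompact (Kp i))
    (hKm : ∀ i, (Km i).Nonempty ∧ Convex ℝ (Km i) ∧ IsCompact (Km i))
    (S : α → Prop) :
    (∃ a : Fin 3 → ℝ, ∃ qp qm : EuclideanSpace ℝ (Fin 2),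
      ∀ i, (∃ t, l i ≤ a t ∧ a t ≤ r i) ∨ qp ∈ Kp i ∨ qm ∈ Km i) ∨
    (∃ (gap : α → Fin 4) (w : α → ℝ) (W : ℝ) (qp qm : EuclideanSpace ℝ (Fin 2))
        (pp pm : α → EuclideanSpace ℝ (Fin 2)),
      0 < W ∧ (∀ i, 0 ≤ w i) ∧ (∀ g : Fin 4, ∑ i with gap i = g, w i = W) ∧
      (∀ i j, 0 < w i → 0 < w j → gap i < gap j → r i < l j) ∧
      (∀ i, 0 < w i → pp i ≠ qp ∧ pm i ≠ qm) ∧
      (∀ i, pp i ∈ Kp i ∧ ∀ y ∈ Kp i, inner ℝ (qp - pp i) (y - pp i) ≤ 0) ∧
      (∀ i, pm i ∈ Km i ∧ ∀ y ∈ Km i, inner ℝ (qm - pm i) (y - pm i) ≤ 0) ∧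
      ∑ i with S i, (w i / ‖pp i - qp‖) • (pp i - qp) = 0 ∧
      ∑ i with ¬ S i, (w i / ‖pm i - qm‖) • (pm i - qm) = 0) := by
  rcases isEmpty_or_nonempty α with hα | hα
  · left
    exact ⟨0, 0, 0, fun i => (hα.false i).elim⟩
  obtain ⟨i0⟩ := id hα
  obtain ⟨m0, hm0⟩ := (Set.finite_range l).bddBelow
  obtain ⟨M0, hM0⟩ := (Set.finite_range r).bddAbove
  obtain ⟨m, hm⟩ : ∃ m, ∀ i, m < l i :=
    ⟨m0 - 1, fun i => by linarith [hm0 (Set.mem_range_self i)]⟩
  obtain ⟨M, hM⟩ : ∃ M, ∀ i, r i < M :=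
    ⟨M0 + 1, fun i => by linarith [hM0 (Set.mem_range_self i)]⟩
  have hmM : m < M := by linarith [hm i0, hM i0, hlr i0]
  have hbd : Bornology.IsBounded (⋃ i, (Kp i ∪ Km i)) := by
    rw [Bornology.isBounded_iUnion]
    intro i
    exact ((hKp i).2.2.isBounded).union ((hKm i).2.2.isBounded)
  obtain ⟨ρ, hρ⟩ := hbd.subset_closedBall (0 : EuclideanSpace ℝ (Fin 2))
  have hKpρ : ∀ i, Kp i ⊆ Metric.closedBall 0 ρ := fun i x hx =>
    hρ (Set.mem_iUnion.mpr ⟨i, Or.inl hx⟩)
  have hKmρ : ∀ i, Km i ⊆ Metric.closedBall 0 ρ := fun i x hx =>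
    hρ (Set.mem_iUnion.mpr ⟨i, Or.inr hx⟩)
  have hρ0 : 0 ≤ ρ := by
    obtain ⟨x, hx⟩ := (hKp i0).1
    have := hKpρ i0 hx
    rw [Metric.mem_closedBall] at this
    exact dist_nonneg.trans this
  choose PP hPPc hPP using fun i => exists_proj (Kp i) (hKp i).1 (hKp i).2.1 (hKp i).2.2
  choose PM hPMc hPM using fun i => exists_proj (Km i) (hKm i).1 (hKm i).2.1 (hKm i).2.2
  -- the weights
  obtain ⟨W, hW⟩ : ∃ W : Fin 4 → EuclideanSpace ℝ (Fin 3) × EuclideanSpace ℝ (Fin 2) ×
      EuclideanSpace ℝ (Fin 2) → ℝ, W = fun g p =>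
      ∑ i, om g (l i) (r i) (WithLp.ofLp p.1) * ‖PP i p.2.1 - p.2.1‖ * ‖PM i p.2.2 - p.2.2‖ := ⟨_, rfl⟩
  have hWc : ∀ g, Continuous (W g) := by
    intro g
    rw [hW]
    apply continuous_finsetSum
    intro i _
    have c1 : Continuous (fun p : EuclideanSpace ℝ (Fin 3) × EuclideanSpace ℝ (Fin 2) ×
        EuclideanSpace ℝ (Fin 2) => om g (l i) (r i) (WithLp.ofLp p.1)) := by
      unfold om
      apply continuous_finsetProd
      intro t _
      split_ifs
      · fun_prop
      · fun_prop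
    have c2 := (hPPc i)
    have c3 := (hPMc i)
    exact (c1.mul (by fun_prop)).mul (by fun_prop)
  obtain ⟨sg, hsg⟩ : ∃ sg : α → EuclideanSpace ℝ (Fin 3) → ℝ, sg = fun i a =>
      ∑ g : Fin 4, om g (l i) (r i) (WithLp.ofLp a) := ⟨_, rfl⟩
  have hsgc : ∀ i, Continuous (sg i) := by
    intro i
    rw [hsg]
    apply continuous_finsetSum
    intro g _
    unfold om
    apply continuous_finsetProd
    intro t _
    split_ifs
    · fun_prop
    · fun_prop
  have hsg0 : ∀ i a, 0 ≤ sg i a := by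
    intro i a
    rw [hsg]
    exact Finset.sum_nonneg (fun g _ => om_nonneg _ _ _ _)
  have hF : Continuous (fun p : EuclideanSpace ℝ (Fin 3) × EuclideanSpace ℝ (Fin 2) ×
      EuclideanSpace ℝ (Fin 2) => (WithLp.toLp 2 ![W 1 p - W 0 p, W 2 p - W 1 p, W 3 p - W 2 p] :
        EuclideanSpace ℝ (Fin 3))) := by
    apply (PiLp.continuous_toLp 2 _).comp
    apply continuous_pi
    intro i
    fin_cases i
    · exact (hWc 1).sub (hWc 0)
    · exact (hWc 2).sub (hWc 1)
    · exact (hWc 3).sub (hWc 2)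
  have hG : Continuous (fun p : EuclideanSpace ℝ (Fin 3) × EuclideanSpace ℝ (Fin 2) ×
      EuclideanSpace ℝ (Fin 2) =>
        ∑ i with S i, (sg i p.1 * ‖PM i p.2.2 - p.2.2‖) • (PP i p.2.1 - p.2.1)) := by
    apply continuous_finsetSum
    intro i _
    have c1 := hPPc i
    have c2 := hPMc i
    have c3 := hsgc i
    exact ((c3.comp continuous_fst).mul (by fun_prop)).smul (by fun_prop)
  have hH : Continuous (fun p : EuclideanSpace ℝ (Fin 3) × EuclideanSpace ℝ (Fin 2) ×
      EuclideanSpace ℝ (Fin 2) =>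
        ∑ i with ¬ S i, (sg i p.1 * ‖PP i p.2.1 - p.2.1‖) • (PM i p.2.2 - p.2.2)) := by
    apply continuous_finsetSum
    intro i _
    have c1 := hPPc i
    have c2 := hPMc i
    have c3 := hsgc i
    exact ((c3.comp continuous_fst).mul (by fun_prop)).smul (by fun_prop)
  have hBne : (Metric.closedBall (0 : EuclideanSpace ℝ (Fin 2)) ρ).Nonempty :=
    ⟨0, Metric.mem_closedBall_self hρ0⟩
  obtain ⟨a, haX, q, hq, q', hq', V1, V2, V3⟩ := vi_prod
    {a : EuclideanSpace ℝ (Fin 3) | m ≤ a 0 ∧ a 0 ≤ a 1 ∧ a 1 ≤ a 2 ∧ a 2 ≤ M}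
    (Metric.closedBall (0 : EuclideanSpace ℝ (Fin 2)) ρ)
    (Metric.closedBall (0 : EuclideanSpace ℝ (Fin 2)) ρ)
    ⟨WithLp.toLp 2 (fun _ => m), le_refl m, le_refl m, le_refl m, hmM.le⟩
    (X_convex m M) (X_compact m M) hBne (convex_closedBall _ _) (isCompact_closedBall _ _)
    hBne (convex_closedBall _ _) (isCompact_closedBall _ _) _ _ _ hF hG hH
  obtain ⟨x0, x1, x2, x3⟩ := id haX
  have hWnn : ∀ g p, 0 ≤ W g p := by
    intro g p
    rw [hW]
    exact Finset.sum_nonneg (fun i _ => mul_nonneg (mul_nonneg (om_nonneg _ _ _ _)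
      (norm_nonneg _)) (norm_nonneg _))
  have vi : ∀ y0 y1 y2 : ℝ, m ≤ y0 → y0 ≤ y1 → y1 ≤ y2 → y2 ≤ M →
      (W 1 (a, q, q') - W 0 (a, q, q')) * (y0 - a 0) +
      (W 2 (a, q, q') - W 1 (a, q, q')) * (y1 - a 1) +
      (W 3 (a, q, q') - W 2 (a, q, q')) * (y2 - a 2) ≤ 0 := by
    intro y0 y1 y2 k0 k1 k2 k3
    have := V1 (WithLp.toLp 2 ![y0, y1, y2]) ⟨k0, k1, k2, k3⟩
    rw [PiLp.inner_apply, Fin.sum_univ_three] at this
    simp only [RCLike.inner_apply, conj_trivial] at this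
    have e : (y0 - a 0) * (W 1 (a, q, q') - W 0 (a, q, q')) +
      (y1 - a 1) * (W 2 (a, q, q') - W 1 (a, q, q')) +
      (y2 - a 2) * (W 3 (a, q, q') - W 2 (a, q, q')) ≤ 0 := this
    linarith
  -- om vanishes when the gap is trivial
  have hWz : ∀ g : Fin 4, (∀ i, om g (l i) (r i) (WithLp.ofLp a) = 0) → W g (a, q, q') = 0 := by
    intro g hg
    rw [hW]
    apply Finset.sum_eq_zero
    intro i _
    show om g (l i) (r i) (WithLp.ofLp a) * _ * _ = 0
    rw [hg i, zero_mul, zero_mul]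
  obtain ⟨V, hV0, w0, w1, w2, w3⟩ := gap_eq m M (a 0) (a 1) (a 2) (W 0 (a, q, q'))
    (W 1 (a, q, q')) (W 2 (a, q, q')) (W 3 (a, q, q')) hmM x0 x1 x2 x3 (hWnn _ _) (hWnn _ _)
    (hWnn _ _) (hWnn _ _)
    (vi M M M hmM.le le_rfl le_rfl le_rfl)
    (vi m M M le_rfl hmM.le le_rfl le_rfl)
    (vi m m M le_rfl le_rfl hmM.le le_rfl)
    (vi m m m le_rfl le_rfl le_rfl hmM.le)
    (by
      intro h
      apply hWz
      intro i
      by_contra hne
      have h1 : r i < a 0 := (om_ne hne 0).2 (by decide)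
      have h2 := hm i
      have h3 := hlr i
      linarith)
    (by
      intro h
      apply hWz
      intro i
      by_contra hne
      have h1 : a 0 < l i := (om_ne hne 0).1 (by decide)
      have h2 : r i < a 1 := (om_ne hne 1).2 (by decide)
      have h3 := hlr i
      linarith)
    (by
      intro h
      apply hWz
      intro i
      by_contra hne
      have h1 : a 1 < l i := (om_ne hne 1).1 (by decide)
      have h2 : r i < a 2 := (om_ne hne 2).2 (by decide)
      have h3 := hlr i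
      linarith)
    (by
      intro h
      apply hWz
      intro i
      by_contra hne
      have h1 : a 2 < l i := (om_ne hne 2).1 (by decide)
      have h2 := hM i
      have h3 := hlr i
      linarith)
  have hWV : ∀ g : Fin 4, W g (a, q, q') = V := by
    intro g
    fin_cases g
    · exact w0
    · exact w1
    · exact w2
    · exact w3
  have hGz : ∑ i with S i, (sg i a * ‖PM i q' - q'‖) • (PP i q - q) = 0 :=
    zero_of_vi _ ρ (fun i => sg i a * ‖PM i q' - q'‖)
      (fun i => mul_nonneg (hsg0 i a) (norm_nonneg _)) (fun i => PP i q)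
      (fun i => hKpρ i (hPP i q).1) q V2
  have hHz : ∑ i with ¬ S i, (sg i a * ‖PP i q - q‖) • (PM i q' - q') = 0 :=
    zero_of_vi _ ρ (fun i => sg i a * ‖PP i q - q‖)
      (fun i => mul_nonneg (hsg0 i a) (norm_nonneg _)) (fun i => PM i q')
      (fun i => hKmρ i (hPM i q').1) q' V3
  rcases hV0.eq_or_lt with hVz | hVpos
  · left
    refine ⟨WithLp.ofLp a, q, q', ?_⟩
    intro i
    by_cases hp : PP i q = q
    · right; left
      rw [← hp]
      exact (hPP i q).1
    by_cases hmq : PM i q' = q'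
    · right; right
      rw [← hmq]
      exact (hPM i q').1
    left
    by_contra hcon
    push Not at hcon
    obtain ⟨g, hg⟩ := om_exists (l := l i) (r := r i) (a := WithLp.ofLp a) x1 x2
      (fun t ht => absurd ht.2 (not_le.mpr (hcon t ht.1)))
    apply hg
    have hz : W g (a, q, q') = 0 := by rw [hWV g, ← hVz]
    rw [hW] at hz
    have hz' := (Finset.sum_eq_zero_iff_of_nonneg (fun i _ => mul_nonneg (mul_nonneg
      (om_nonneg g (l i) (r i) (WithLp.ofLp a)) (norm_nonneg (PP i q - q)))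
      (norm_nonneg (PM i q' - q')))).mp hz i (Finset.mem_univ i)
    rcases mul_eq_zero.mp hz' with h | h
    · rcases mul_eq_zero.mp h with h | h
      · exact h
      · exact absurd (sub_eq_zero.mp (norm_eq_zero.mp h)) hp
    · exact absurd (sub_eq_zero.mp (norm_eq_zero.mp h)) hmq
  · right
    obtain ⟨gap, hgap⟩ : ∃ gap : α → Fin 4, ∀ i g, om g (l i) (r i) (WithLp.ofLp a) ≠ 0 →
        gap i = g := by
      refine ⟨fun i => if h : ∃ g, om g (l i) (r i) (WithLp.ofLp a) ≠ 0 then h.choose else 0, ?_⟩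
      intro i g hg
      have hex : ∃ g, om g (l i) (r i) (WithLp.ofLp a) ≠ 0 := ⟨g, hg⟩
      simp only [dif_pos hex]
      exact om_unique (hlr i) hex.choose_spec hg
    have hsgap : ∀ i, sg i a = om (gap i) (l i) (r i) (WithLp.ofLp a) := by
      intro i
      rw [hsg]
      show ∑ g : Fin 4, om g (l i) (r i) (WithLp.ofLp a) = _
      apply Finset.sum_eq_single (gap i)
      · intro g _ hne
        by_contra hcon
        exact hne (hgap i g hcon).symm
      · intro h
        exact absurd (Finset.mem_univ _) h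
    obtain ⟨w, hw⟩ : ∃ w : α → ℝ, ∀ i, w i = sg i a * ‖PP i q - q‖ * ‖PM i q' - q'‖ :=
      ⟨fun i => sg i a * ‖PP i q - q‖ * ‖PM i q' - q'‖, fun i => rfl⟩
    refine ⟨gap, w, V, q, q', fun i => PP i q, fun i => PM i q', hVpos, ?_, ?_, ?_, ?_, ?_, ?_,
      ?_, ?_⟩
    · intro i
      rw [hw]
      exact mul_nonneg (mul_nonneg (hsg0 i a) (norm_nonneg _)) (norm_nonneg _)
    · intro g
      rw [← hWV g, hW, Finset.sum_filter]
      apply Finset.sum_congr rfl
      intro i _
      show _ = om g (l i) (r i) (WithLp.ofLp a) * ‖PP i q - q‖ * ‖PM i q' - q'‖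
      split_ifs with hgi
      · rw [hw, hsgap, hgi]
      · have : om g (l i) (r i) (WithLp.ofLp a) = 0 := by
          by_contra hcon
          exact hgi (hgap i g hcon)
        rw [this, zero_mul, zero_mul]
    · intro i j hi hj hij
      have hoi : om (gap i) (l i) (r i) (WithLp.ofLp a) ≠ 0 := by
        intro h0
        rw [hw, hsgap, h0, zero_mul, zero_mul] at hi
        exact lt_irrefl _ hi
      have hoj : om (gap j) (l j) (r j) (WithLp.ofLp a) ≠ 0 := by
        intro h0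
        rw [hw, hsgap, h0, zero_mul, zero_mul] at hj
        exact lt_irrefl _ hj
      have h3 : (gap i).val < 3 := by
        have := (gap j).isLt
        have hv : (gap i).val < (gap j).val := hij
        omega
      have hc : (⟨(gap i).val, h3⟩ : Fin 3).castSucc = gap i := by
        ext
        rfl
      have e1 := (om_ne hoi ⟨(gap i).val, h3⟩).2 (by rw [hc]; exact lt_irrefl _)
      have e2 := (om_ne hoj ⟨(gap i).val, h3⟩).1 (by rw [hc]; exact hij)
      exact e1.trans e2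
    · intro i hi
      constructor
      · intro h0
        have h0' : PP i q = q := h0
        rw [hw, h0', sub_self, norm_zero, mul_zero, zero_mul] at hi
        exact lt_irrefl _ hi
      · intro h0
        have h0' : PM i q' = q' := h0
        rw [hw, h0', sub_self, norm_zero, mul_zero] at hi
        exact lt_irrefl _ hi
    · intro i
      exact hPP i q
    · intro i
      exact hPM i q'
    · rw [← hGz]
      apply Finset.sum_congr rfl
      intro i _
      show (w i / ‖PP i q - q‖) • (PP i q - q) = _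
      by_cases h0 : PP i q - q = 0
      · rw [h0, smul_zero, smul_zero]
      · congr 1
        rw [hw]
        have := norm_ne_zero_iff.mpr h0
        field_simp
    · rw [← hHz]
      apply Finset.sum_congr rfl
      intro i _
      show (w i / ‖PM i q' - q'‖) • (PM i q' - q') = _
      by_cases h0 : PM i q' - q' = 0
      · rw [h0, smul_zero, smul_zero]
      · congr 1
        rw [hw]
        have := norm_ne_zero_iff.mpr h0
        field_simp

end H257R5.E
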