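import Mathlib
set_option autoImplicit false

/-! Part of the proof that `c(4,3,2) ≤ 6` (MP_8fca14_co).  Plan: helper257; this file: helper345. -/
namespace H257R5.U


namespace U

def br {α : Type*} (a b : α → ℝ) (i j : α) : ℝ := a i * b j - b i * a j

def ip {α : Type*} (a b : α → ℝ) (i j : α) : ℝ := a i * a j + b i * b j

lemma D_aux (d e c s : ℝ) (h1 : d ^ 2 + e ^ 2 = 1) (h2 : c ^ 2 + s ^ 2 = 1) (he : 0 ≤ e)
    (hs : 0 ≤ s) (h : 0 < e * c - d * s) : d < c := by
  by_contra hdc
  rw [not_lt] at hdc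
  have h3 : e ^ 2 - s ^ 2 = (c - d) * (c + d) := by linear_combination h1 - h2
  rcases le_or_gt 0 (c + d) with h4 | h4
  · have h5 : e ^ 2 ≤ s ^ 2 := by nlinarith
    have h6 : e ≤ s := (sq_le_sq₀ he hs).1 h5
    have h7 : 0 ≤ d := by linarith
    nlinarith
  · have h5 : s ^ 2 ≤ e ^ 2 := by nlinarith
    have h6 : s ≤ e := (sq_le_sq₀ hs he).1 h5
    have h7 : c ≤ 0 := by linarith
    nlinarith

variable {α γ : Type*} {a b : α → ℝ}

lemma br_anti (i j : α) : br a b i j = - br a b j i := by unfold br; ring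

lemma br_self (i : α) : br a b i i = 0 := by unfold br; ring

lemma ip_comm (i j : α) : ip a b i j = ip a b j i := by unfold ip; ring

lemma sq_ident (u w : α) : ip a b u w ^ 2 + br a b u w ^ 2 =
    (a u ^ 2 + b u ^ 2) * (a w ^ 2 + b w ^ 2) := by unfold ip br; ring

lemma D {u v w : α} (hu : a u ^ 2 + b u ^ 2 = 1) (hv : a v ^ 2 + b v ^ 2 = 1)
    (hw : a w ^ 2 + b w ^ 2 = 1) (h1 : 0 < br a b u v) (h2 : 0 ≤ br a b v w)
    (h3 : 0 ≤ br a b u w) : ip a b u w < ip a b v w := by
  refine D_aux _ (br a b u w) _ (br a b v w) ?_ ?_ h3 h2 ?_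
  · rw [sq_ident, hu, hw, one_mul]
  · rw [sq_ident, hv, hw, one_mul]
  · have : br a b u w * ip a b v w - ip a b u w * br a b v w = br a b u v := by
      have : br a b u w * ip a b v w - ip a b u w * br a b v w =
          br a b u v * (a w ^ 2 + b w ^ 2) := by unfold ip br; ring
      rw [this, hw, mul_one]
    rw [this]; exact h1

lemma D' {u v w : α} (hu : a u ^ 2 + b u ^ 2 = 1) (hv : a v ^ 2 + b v ^ 2 = 1)
    (hw : a w ^ 2 + b w ^ 2 = 1) (h1 : 0 < br a b v w) (h2 : 0 ≤ br a b u v)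
    (h3 : 0 ≤ br a b u w) : ip a b u w < ip a b u v := by
  refine D_aux _ (br a b u w) _ (br a b u v) ?_ ?_ h3 h2 ?_
  · rw [sq_ident, hu, hw, one_mul]
  · rw [sq_ident, hu, hv, one_mul]
  · have : br a b u w * ip a b u v - ip a b u w * br a b u v = br a b v w := by
      have : br a b u w * ip a b u v - ip a b u w * br a b u v =
          br a b v w * (a u ^ 2 + b u ^ 2) := by unfold ip br; ring
      rw [this, hu, mul_one]
    rw [this]; exact h1

lemma ip_le {u w : α} (hu : a u ^ 2 + b u ^ 2 = 1) (hw : a w ^ 2 + b w ^ 2 = 1) :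
    ip a b u w ≤ 1 := by
  have := sq_ident (a := a) (b := b) u w
  rw [hu, hw, one_mul] at this
  nlinarith [sq_nonneg (br a b u w), sq_nonneg (ip a b u w - 1)]

lemma ip_ge {u w : α} (hu : a u ^ 2 + b u ^ 2 = 1) (hw : a w ^ 2 + b w ^ 2 = 1) :
    -1 ≤ ip a b u w := by
  have := sq_ident (a := a) (b := b) u w
  rw [hu, hw, one_mul] at this
  nlinarith [sq_nonneg (br a b u w), sq_nonneg (ip a b u w + 1)]

lemma P4real (s l p q c : ℝ) (hp : 0 ≤ p) (hq : 0 ≤ q) (h4 : 1 = p ^ 2 + q ^ 2 + 2 * p * q * c)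
    (h5 : c ≤ 1) (h6 : -1 ≤ c) (hl : 0 < l) (hsl : s ≤ l) (hls : 0 < l + s) :
    s ≤ p * s + q * l := by
  have hpq : 0 ≤ p * q := mul_nonneg hp hq
  have h5' : p * q * c ≤ p * q * 1 := mul_le_mul_of_nonneg_left h5 hpq
  have h6' : p * q * (-1) ≤ p * q * c := mul_le_mul_of_nonneg_left h6 hpq
  have h7 : 1 ≤ (p + q) ^ 2 := by linarith [show (p + q) ^ 2 = p ^ 2 + q ^ 2 + 2 * (p * q) by ring]
  have h8 : (p - q) ^ 2 ≤ 1 := by linarith [show (p - q) ^ 2 = p ^ 2 + q ^ 2 - 2 * (p * q) by ring]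
  have h9 : 1 ≤ p + q := by
    by_contra hc
    rw [not_le] at hc
    nlinarith
  have h10 : p - q ≤ 1 := by
    by_contra hc
    rw [not_le] at hc
    nlinarith
  rcases lt_or_ge p 1 with h11 | h11
  · have h12 : 0 ≤ (1 - p) * (l - s) := mul_nonneg (by linarith) (by linarith)
    have h13 : 0 ≤ (q - (1 - p)) * l := mul_nonneg (by linarith) hl.le
    linarith [show (1 - p) * (l - s) + (q - (1 - p)) * l = p * s + q * l - s by ring]
  · rcases le_or_gt 0 s with h12 | h12
    · have h13 : 0 ≤ (p - 1) * s := mul_nonneg (by linarith) h12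
      have h14 : 0 ≤ q * l := mul_nonneg hq hl.le
      linarith [show (p - 1) * s + q * l = p * s + q * l - s by ring]
    · have h13 : 0 ≤ q * (l + s) := mul_nonneg hq hls.le
      have h14 : 0 ≤ (q - (p - 1)) * (-s) := mul_nonneg (by linarith) (by linarith)
      linarith [show q * (l + s) + (q - (p - 1)) * (-s) = p * s + q * l - s by ring]

structure Ctx (S : Finset α) (gr : α → γ) (a b : α → ℝ) : Prop where
  unit : ∀ i ∈ S, a i ^ 2 + b i ^ 2 = 1
  nc : ∀ i ∈ S, ∀ j ∈ S, ∀ k ∈ S, gr i ≠ gr j → gr j ≠ gr k → gr i ≠ gr k →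
    0 < br a b i j → 0 ≤ br a b j k → 0 ≤ br a b k i → False
  third : ∀ i ∈ S, ∀ j ∈ S, ∃ k ∈ S, gr i ≠ gr k ∧ gr j ≠ gr k

structure MinP (S : Finset α) (gr : α → γ) (a b : α → ℝ) (x y : α) : Prop where
  hx : x ∈ S
  hy : y ∈ S
  hxy : gr x ≠ gr y
  pos : 0 < br a b x y
  gt : -1 < ip a b x y
  min : ∀ v ∈ S, ∀ v' ∈ S, gr v ≠ gr v' → ip a b x y ≤ ip a b v v'

lemma br_neg (i j : α) : br a (fun k => - b k) i j = br a b j i := by unfold br; ring

lemma ip_neg (i j : α) : ip a (fun k => - b k) i j = ip a b i j := by unfold ip; ring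

variable {S : Finset α} {gr : α → γ} {x y : α}

lemma Ctx.mirror (h : Ctx S gr a b) : Ctx S gr a (fun k => - b k) where
  unit i hi := by have := h.unit i hi; rw [neg_sq]; exact this
  nc i hi j hj k hk h1 h2 h3 h4 h5 h6 := by
    rw [br_neg] at h4 h5 h6
    exact h.nc j hj i hi k hk h1.symm h3 h2 h4 h6 h5
  third := h.third

lemma MinP.mirror (h : MinP S gr a b x y) : MinP S gr a (fun k => - b k) y x where
  hx := h.hy
  hy := h.hx
  hxy := h.hxy.symm
  pos := by rw [br_neg]; exact h.pos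
  gt := by rw [ip_neg, ip_comm]; exact h.gt
  min v hv v' hv' hne := by
    rw [ip_neg, ip_neg, ip_comm y x]; exact h.min v hv v' hv' hne

lemma step2 (H : Ctx S gr a b) (M : MinP S gr a b x y) {v : α} (hv : v ∈ S) (h1 : gr v ≠ gr x)
    (h2 : gr v ≠ gr y) : 0 ≤ br a b x v ∧ 0 ≤ br a b v y := by
  have ux := H.unit x M.hx
  have uy := H.unit y M.hy
  have uv := H.unit v hv
  constructor
  · by_contra hc
    have h3 : 0 < br a b v x := by rw [br_anti]; linarith
    have h4 : 0 < br a b v y := by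
      by_contra h5
      exact H.nc v hv x M.hx y M.hy h1 M.hxy h2 h3 M.pos.le (by rw [br_anti]; linarith)
    have h5 := D uv ux uy h3 M.pos.le h4.le
    exact absurd (M.min v hv y M.hy h2) (not_le.2 h5)
  · by_contra hc
    have h3 : 0 < br a b y v := by rw [br_anti]; linarith
    have h4 : 0 < br a b x v := by
      by_contra h5
      exact H.nc y M.hy v hv x M.hx h2.symm h1 M.hxy.symm h3 (by rw [br_anti]; linarith)
        M.pos.le
    have h5 := D' ux uy uv h3 M.pos.le h4.le
    exact absurd (M.min x M.hx v hv h1.symm) (not_le.2 h5)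

lemma caseA [DecidableEq γ] {w : α → ℝ} (H : Ctx S gr a b) (M : MinP S gr a b x y)
    (hw : ∀ i ∈ S, 0 ≤ w i) (hpos : 0 < ∑ i ∈ S, w i)
    (h1 : ∑ i ∈ S, w i * a i = 0) (h2 : ∑ i ∈ S, w i * b i = 0)
    (hA : ∀ v ∈ S, gr v = gr x → br a b y v ≤ 0) (hB : ∀ v ∈ S, gr v = gr y → br a b v x ≤ 0) :
    False := by
  have ux := H.unit x M.hx
  have uy := H.unit y M.hy
  have hall : ∀ v ∈ S, 0 ≤ br a b x v ∧ 0 ≤ br a b v y := by
    intro v hv
    have uv := H.unit v hv
    by_cases h3 : gr v = gr x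
    · have h4 : 0 ≤ br a b v y := by rw [br_anti]; linarith [hA v hv h3]
      refine ⟨?_, h4⟩
      by_contra hc
      have h5 : 0 < br a b v x := by rw [br_anti]; linarith
      have h6 := D uv ux uy h5 M.pos.le h4
      exact absurd (M.min v hv y M.hy (by rw [h3]; exact M.hxy)) (not_le.2 h6)
    · by_cases h4 : gr v = gr y
      · have h5 : 0 ≤ br a b x v := by rw [br_anti]; linarith [hB v hv h4]
        refine ⟨h5, ?_⟩
        by_contra hc
        have h6 : 0 < br a b y v := by rw [br_anti]; linarith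
        have h7 := D' ux uy uv h6 M.pos.le h5
        exact absurd (M.min x M.hx v hv (Ne.symm h3)) (not_le.2 h7)
      · exact step2 H M hv h3 h4
  have hL : ∀ v ∈ S, 0 < br a b x v + br a b v y := by
    intro v hv
    obtain ⟨h3, h4⟩ := hall v hv
    rcases h3.lt_or_eq with h5 | h5
    · linarith
    · rcases h4.lt_or_eq with h6 | h6
      · linarith
      · exfalso
        have i1 : br a b x y * a v = 0 := by
          have : br a b x y * a v = br a b v y * a x + br a b x v * a y := by unfold br; ring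
          rw [this, ← h5, ← h6]; ring
        have i2 : br a b x y * b v = 0 := by
          have : br a b x y * b v = br a b v y * b x + br a b x v * b y := by unfold br; ring
          rw [this, ← h5, ← h6]; ring
        have i3 : a v = 0 := by
          rcases mul_eq_zero.1 i1 with h | h
          · exact absurd h M.pos.ne'
          · exact h
        have i4 : b v = 0 := by
          rcases mul_eq_zero.1 i2 with h | h
          · exact absurd h M.pos.ne'
          · exact h
        have := H.unit v hv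
        rw [i3, i4] at this
        norm_num at this
  have hsum : ∑ v ∈ S, w v * (br a b x v + br a b v y) = 0 := by
    have : ∑ v ∈ S, w v * (br a b x v + br a b v y) =
        (a x - a y) * ∑ v ∈ S, w v * b v - (b x - b y) * ∑ v ∈ S, w v * a v := by
      rw [Finset.mul_sum, Finset.mul_sum, ← Finset.sum_sub_distrib]
      refine Finset.sum_congr rfl fun v _ => ?_
      unfold br; ring
    rw [this, h1, h2]; ring
  have hz : ∀ v ∈ S, w v * (br a b x v + br a b v y) = 0 :=
    (Finset.sum_eq_zero_iff_of_nonneg fun v hv => mul_nonneg (hw v hv) (hL v hv).le).1 hsum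
  have hz' : ∀ v ∈ S, w v = 0 := by
    intro v hv
    rcases mul_eq_zero.1 (hz v hv) with h | h
    · exact h
    · exact absurd h (hL v hv).ne'
  rw [Finset.sum_eq_zero hz'] at hpos
  exact lt_irrefl _ hpos

lemma caseB [DecidableEq γ] {w : α → ℝ} (H : Ctx S gr a b) (M : MinP S gr a b x y)
    (hw : ∀ i ∈ S, 0 ≤ w i) (hpos : 0 < ∑ i ∈ S, w i)
    (hhalf : ∀ c : γ, 2 * ∑ i ∈ S with gr i = c, w i ≤ ∑ i ∈ S, w i)
    (h1 : ∑ i ∈ S, w i * a i = 0) (h2 : ∑ i ∈ S, w i * b i = 0)
    (hB : ∃ v ∈ S, gr v = gr x ∧ 0 < br a b y v) : False := by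
  have ux := H.unit x M.hx
  have uy := H.unit y M.hy
  -- the choice of `x'`
  obtain ⟨x', hx'S, hx'g, hx'p, hx'm⟩ : ∃ x' ∈ S, gr x' = gr x ∧ 0 < br a b y x' ∧
      ∀ v ∈ S, gr v = gr x → 0 < br a b y v → ip a b x' y ≤ ip a b v y := by
    obtain ⟨v0, hv0, hv1, hv2⟩ := hB
    have hne : (S.filter fun v => gr v = gr x ∧ 0 < br a b y v).Nonempty :=
      ⟨v0, Finset.mem_filter.2 ⟨hv0, hv1, hv2⟩⟩
    obtain ⟨x', hx', hm⟩ := Finset.exists_min_image _ (fun v => ip a b v y) hne
    rw [Finset.mem_filter] at hx'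
    exact ⟨x', hx'.1, hx'.2.1, hx'.2.2, fun v hv h3 h4 =>
      hm v (Finset.mem_filter.2 ⟨hv, h3, h4⟩)⟩
  have ux' := H.unit x' hx'S
  have hx'y : gr x' ≠ gr y := by rw [hx'g]; exact M.hxy
  -- P1
  have P1 : ∀ z ∈ S, gr z ≠ gr x → gr z ≠ gr y →
      0 ≤ br a b x z ∧ 0 ≤ br a b z y ∧ 0 < br a b z x' := by
    intro z hz hzx hzy
    obtain ⟨h3, h4⟩ := step2 H M hz hzx hzy
    refine ⟨h3, h4, ?_⟩
    by_contra h5
    exact H.nc y M.hy x' hx'S z hz hx'y.symm (by rw [hx'g]; exact hzx.symm) hzy.symm hx'p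
      (by rw [br_anti]; linarith) h4
  obtain ⟨z, hzS, hxz, hyz⟩ := H.third x M.hx y M.hy
  obtain ⟨z1, z2, z3⟩ := P1 z hzS hxz.symm hyz.symm
  have hzx' : gr z ≠ gr x' := by rw [hx'g]; exact hxz.symm
  have uz := H.unit z hzS
  -- P2
  have P2 : ∀ v ∈ S, gr v = gr y → 0 ≤ br a b x v ∧ 0 < br a b v x' := by
    intro v hv hvy
    have uv := H.unit v hv
    have hvx : gr v ≠ gr x := by rw [hvy]; exact M.hxy.symm
    have hvx' : gr v ≠ gr x' := by rw [hvy]; exact hx'y.symm
    have hvz : gr v ≠ gr z := by rw [hvy]; exact hyz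
    have h3 : 0 ≤ br a b x v := by
      by_contra hc
      have h4 : 0 < br a b v x := by rw [br_anti]; linarith
      have h5 : 0 < br a b v z := by
        by_contra h6
        exact H.nc v hv x M.hx z hzS hvx hxz hvz h4 z1 (by rw [br_anti]; linarith)
      have h6 : 0 < br a b v x' := by
        by_contra h7
        exact H.nc v hv z hzS x' hx'S hvz hzx' hvx' h5 z3.le (by rw [br_anti]; linarith)
      have h7 : br a b v y * br a b z x' = br a b v z * br a b y x' + br a b v x' * br a b z y := by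
        unfold br; ring
      have h8 : 0 < br a b v y * br a b z x' := by
        rw [h7]
        have := mul_pos h5 hx'p
        have := mul_nonneg h6.le z2
        linarith
      have h9 : 0 < br a b v y := by
        by_contra h9
        have := mul_nonneg (sub_nonneg.2 (not_lt.1 h9)) z3.le
        linarith
      have h10 := D uv ux uy h4 M.pos.le h9.le
      have h11 := D' uv uy ux' hx'p h9.le h6.le
      exact absurd (M.min v hv x' hx'S hvx') (not_le.2 (h11.trans h10))
    refine ⟨h3, ?_⟩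
    by_contra hc
    have h4 : 0 ≤ br a b x' v := by rw [br_anti]; linarith
    have h5 : 0 < br a b z v := by
      by_contra h6
      exact H.nc z hzS x' hx'S v hv hzx' hvx'.symm hvz.symm z3 h4 (by rw [br_anti]; linarith)
    have h7 : br a b z x' * br a b y v = br a b z y * br a b x' v + br a b z v * br a b y x' := by
      unfold br; ring
    have h8 : 0 < br a b z x' * br a b y v := by
      rw [h7]
      have := mul_pos h5 hx'p
      have := mul_nonneg z2 h4
      linarith
    have h9 : 0 < br a b y v := by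
      by_contra h9
      have := mul_nonneg z3.le (sub_nonneg.2 (not_lt.1 h9))
      linarith
    have h10 := D' ux uy uv h9 M.pos.le h3
    exact absurd (M.min x M.hx v hv hvx.symm) (not_le.2 h10)
  -- the functional
  obtain ⟨L, hL⟩ : ∃ L : α → ℝ, ∀ v, L v = br a b x v + br a b v x' := ⟨_, fun _ => rfl⟩
  obtain ⟨s, hs⟩ : ∃ s : ℝ, s = br a b x x' := ⟨_, rfl⟩
  have P12 : ∀ v ∈ S, gr v ≠ gr x → 0 ≤ br a b x v ∧ 0 < br a b v x' := by
    intro v hv hvx
    by_cases hvy : gr v = gr y
    · exact P2 v hv hvy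
    · have := P1 v hv hvx hvy
      exact ⟨this.1, this.2.2⟩
  have hL0 : ∀ v ∈ S, gr v ≠ gr x → 0 < L v := by
    intro v hv hvx
    have := P12 v hv hvx
    rw [hL]; linarith
  have hLs : ∀ v ∈ S, gr v ≠ gr x → 0 < L v + s := by
    intro v hv hvx
    obtain ⟨h3, h4⟩ := P12 v hv hvx
    have uv := H.unit v hv
    have h5 : s = br a b x v * ip a b v x' + ip a b x v * br a b v x' := by
      have : br a b x v * ip a b v x' + ip a b x v * br a b v x' =
          br a b x x' * (a v ^ 2 + b v ^ 2) := by unfold br ip; ring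
      rw [this, uv, mul_one, hs]
    have h6 : L v + s = br a b x v * (1 + ip a b v x') + br a b v x' * (1 + ip a b x v) := by
      rw [hL, h5]; ring
    have h7 : -1 < ip a b v x' :=
      lt_of_lt_of_le M.gt (M.min v hv x' hx'S (by rw [hx'g]; exact hvx))
    have h8 : -1 < ip a b x v := lt_of_lt_of_le M.gt (M.min x M.hx v hv hvx.symm)
    rw [h6]
    have := mul_nonneg h3 (by linarith : (0 : ℝ) ≤ 1 + ip a b v x')
    have := mul_pos h4 (by linarith : (0 : ℝ) < 1 + ip a b x v)
    linarith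
  -- P3
  have P3 : s ≤ L y := by
    have h5 : s = br a b x y * ip a b y x' + ip a b x y * br a b y x' := by
      have : br a b x y * ip a b y x' + ip a b x y * br a b y x' =
          br a b x x' * (a y ^ 2 + b y ^ 2) := by unfold br ip; ring
      rw [this, uy, mul_one, hs]
    have h6 := ip_le uy ux'
    have h7 := ip_le ux uy
    have h8 := mul_le_mul_of_nonneg_left h6 M.pos.le
    have h9 := mul_le_mul_of_nonneg_right h7 hx'p.le
    rw [hL, h5]
    linarith
  have hLy0 := hL0 y M.hy M.hxy.symm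
  have hLys := hLs y M.hy M.hxy.symm
  -- P4
  have P4aux : ∀ v u : α, ∀ p q : ℝ, 0 ≤ p → 0 ≤ q → a v ^ 2 + b v ^ 2 = 1 →
      a u ^ 2 + b u ^ 2 = 1 → L u = s → a v = p * a u + q * a y → b v = p * b u + q * b y →
      s ≤ L v := by
    intro v u p q hp hq uv uu hLu ha hb
    have h3 : L v = p * s + q * L y := by
      rw [← hLu, hL, hL, hL]; unfold br; rw [ha, hb]; ring
    have h4 : 1 = p ^ 2 + q ^ 2 + 2 * p * q * ip a b u y := by
      have : p ^ 2 + q ^ 2 + 2 * p * q * ip a b u y = 1 := by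
        have h5 : a v ^ 2 + b v ^ 2 = p ^ 2 * (a u ^ 2 + b u ^ 2) + q ^ 2 * (a y ^ 2 + b y ^ 2) +
            2 * p * q * ip a b u y := by rw [ha, hb]; unfold ip; ring
        rw [uv, uu, uy] at h5
        linarith
      exact this.symm
    have h5 : ip a b u y ≤ 1 := ip_le uu uy
    have h6 : -1 ≤ ip a b u y := ip_ge uu uy
    rw [h3]
    exact P4real s (L y) p q _ hp hq h4 h5 h6 hLy0 P3 hLys
  have hLx : L x = s := by rw [hL, br_self, hs, zero_add]
  have hLx' : L x' = s := by rw [hL, br_self, hs, add_zero]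
  have P4 : ∀ v ∈ S, gr v = gr x → s ≤ L v := by
    intro v hv hvx
    have uv := H.unit v hv
    have hvy : gr v ≠ gr y := by rw [hvx]; exact M.hxy
    rcases le_or_gt 0 (br a b v y) with h3 | h3
    · have h4 : 0 ≤ br a b x v := by
        by_contra hc
        have h5 : 0 < br a b v x := by rw [br_anti]; linarith
        have h6 := D uv ux uy h5 M.pos.le h3
        exact absurd (M.min v hv y M.hy hvy) (not_le.2 h6)
      have hp0 := M.pos.ne'
      refine P4aux v x (br a b v y / br a b x y) (br a b x v / br a b x y)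
        (div_nonneg h3 M.pos.le) (div_nonneg h4 M.pos.le) uv ux hLx ?_ ?_
      · field_simp
        unfold br; ring
      · field_simp
        unfold br; ring
    · have h3' : 0 < br a b y v := by rw [br_anti]; linarith
      have h4 : 0 ≤ br a b v x' := by
        by_contra hc
        have h5 : 0 < br a b x' v := by rw [br_anti]; linarith
        have h6 := D' uy ux' uv h5 hx'p.le h3'.le
        have h7 := hx'm v hv hvx h3'
        rw [ip_comm x' y, ip_comm v y] at h7
        exact absurd h7 (not_le.2 h6)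
      have hp0 := hx'p.ne'
      refine P4aux v x' (br a b y v / br a b y x') (br a b v x' / br a b y x')
        (div_nonneg h3'.le hx'p.le) (div_nonneg h4 hx'p.le) uv ux' hLx' ?_ ?_
      · field_simp
        unfold br; ring
      · field_simp
        unfold br; ring
  -- conclusion
  have hsum : ∑ v ∈ S, w v * L v = 0 := by
    have : ∑ v ∈ S, w v * L v =
        (a x - a x') * ∑ v ∈ S, w v * b v - (b x - b x') * ∑ v ∈ S, w v * a v := by
      rw [Finset.mul_sum, Finset.mul_sum, ← Finset.sum_sub_distrib]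
      refine Finset.sum_congr rfl fun v _ => ?_
      rw [hL]; unfold br; ring
    rw [this, h1, h2]; ring
  have hsplit : ∑ v ∈ S with gr v = gr x, w v * L v + ∑ v ∈ S with ¬ gr v = gr x, w v * L v = 0 := by
    rw [Finset.sum_filter_add_sum_filter_not]; exact hsum
  have hTsplit : ∑ v ∈ S with gr v = gr x, w v + ∑ v ∈ S with ¬ gr v = gr x, w v =
      ∑ v ∈ S, w v := Finset.sum_filter_add_sum_filter_not _ _ _
  have hhx := hhalf (gr x)
  obtain ⟨W, hW⟩ : ∃ W : ℝ, W = ∑ v ∈ S with gr v = gr x, w v := ⟨_, rfl⟩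
  obtain ⟨R, hR⟩ : ∃ R : ℝ, R = ∑ v ∈ S with ¬ gr v = gr x, w v := ⟨_, rfl⟩
  rw [← hW] at hhx
  rw [← hW, ← hR] at hTsplit
  have hW0 : 0 ≤ W := by
    rw [hW]; exact Finset.sum_nonneg fun v hv => hw v (Finset.mem_filter.1 hv).1
  have hR0 : 0 < R := by linarith
  have hin : W * s ≤ ∑ v ∈ S with gr v = gr x, w v * L v := by
    rw [hW, Finset.sum_mul]
    refine Finset.sum_le_sum fun v hv => ?_
    rw [Finset.mem_filter] at hv
    exact mul_le_mul_of_nonneg_left (P4 v hv.1 hv.2) (hw v hv.1)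
  obtain ⟨t, htdef⟩ : ∃ t : ℝ, t = max 0 (-s) := ⟨_, rfl⟩
  have hout : t * R < ∑ v ∈ S with ¬ gr v = gr x, w v * L v := by
    have h3 : ∀ v ∈ S.filter (fun v => ¬ gr v = gr x), t < L v := by
      intro v hv
      rw [Finset.mem_filter] at hv
      rw [htdef]
      refine max_lt (hL0 v hv.1 hv.2) ?_
      have := hLs v hv.1 hv.2
      linarith
    have h4 : 0 < ∑ v ∈ S with ¬ gr v = gr x, w v * (L v - t) := by
      by_contra hc
      have h5 : ∀ v ∈ S.filter (fun v => ¬ gr v = gr x), 0 ≤ w v * (L v - t) := fun v hv =>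
        mul_nonneg (hw v (Finset.mem_filter.1 hv).1) (by linarith [h3 v hv])
      have h6 : ∑ v ∈ S with ¬ gr v = gr x, w v * (L v - t) = 0 :=
        le_antisymm (not_lt.1 hc) (Finset.sum_nonneg h5)
      have h7 := (Finset.sum_eq_zero_iff_of_nonneg h5).1 h6
      have h8 : R = 0 := by
        rw [hR]
        refine Finset.sum_eq_zero fun v hv => ?_
        rcases mul_eq_zero.1 (h7 v hv) with h | h
        · exact h
        · exact absurd h (by linarith [h3 v hv] : (0 : ℝ) < L v - t).ne'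
      linarith
    have h5 : ∑ v ∈ S with ¬ gr v = gr x, w v * (L v - t) =
        ∑ v ∈ S with ¬ gr v = gr x, w v * L v - t * R := by
      rw [hR, Finset.mul_sum, ← Finset.sum_sub_distrib]
      exact Finset.sum_congr rfl fun v _ => by ring
    linarith
  have ht0 : 0 ≤ t := by rw [htdef]; exact le_max_left _ _
  have hts : -s ≤ t := by rw [htdef]; exact le_max_right _ _
  have hWR : W ≤ R := by linarith
  have h20 : t * W ≤ t * R := mul_le_mul_of_nonneg_left hWR ht0
  have h21 : 0 ≤ (t + s) * W := mul_nonneg (by linarith) hW0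
  have h22 : (t + s) * W = t * W + W * s := by ring
  linarith

end U

open U in
/-- TARGET. -/
theorem lemmaU {α γ : Type*} [DecidableEq γ] (S : Finset α) (gr : α → γ) (w a b : α → ℝ)
    (hunit : ∀ i ∈ S, a i ^ 2 + b i ^ 2 = 1)
    (hw : ∀ i ∈ S, 0 ≤ w i) (hpos : 0 < ∑ i ∈ S, w i)
    (hthree : ∃ i ∈ S, ∃ j ∈ S, ∃ k ∈ S, gr i ≠ gr j ∧ gr j ≠ gr k ∧ gr i ≠ gr k)
    (hNC : ∀ i ∈ S, ∀ j ∈ S, ∀ k ∈ S, gr i ≠ gr j → gr j ≠ gr k → gr i ≠ gr k →
      ∃ u v : ℝ, 0 < u * a i + v * b i ∧ 0 < u * a j + v * b j ∧ 0 < u * a k + v * b k)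
    (hhalf : ∀ c : γ, 2 * ∑ i ∈ S with gr i = c, w i ≤ ∑ i ∈ S, w i)
    (h1 : ∑ i ∈ S, w i * a i = 0) (h2 : ∑ i ∈ S, w i * b i = 0) : False := by
  obtain ⟨i0, hi0, j0, hj0, k0, hk0, hij, hjk, hik⟩ := hthree
  have H : Ctx S gr a b := by
    refine ⟨hunit, ?_, ?_⟩
    · intro i hi j hj k hk hij hjk hik h3 h4 h5
      obtain ⟨u, v, h6, h7, h8⟩ := hNC i hi j hj k hk hij hjk hik
      have h9 : br a b j k * (u * a i + v * b i) + br a b k i * (u * a j + v * b j) +
          br a b i j * (u * a k + v * b k) = 0 := by unfold br; ring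
      have := mul_nonneg h4 h6.le
      have := mul_nonneg h5 h7.le
      have := mul_pos h3 h8
      linarith
    · intro i hi j hj
      by_cases e1 : gr i = gr i0
      · by_cases e2 : gr j = gr j0
        · exact ⟨k0, hk0, by rw [e1]; exact hik, by rw [e2]; exact hjk⟩
        · exact ⟨j0, hj0, by rw [e1]; exact hij, e2⟩
      · by_cases e2 : gr j = gr i0
        · by_cases e3 : gr i = gr j0
          · exact ⟨k0, hk0, by rw [e3]; exact hjk, by rw [e2]; exact hik⟩
          · exact ⟨j0, hj0, e3, by rw [e2]; exact hij⟩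
        · exact ⟨i0, hi0, e1, e2⟩
  -- a minimal pair
  have hne : ((S ×ˢ S).filter fun q => gr q.1 ≠ gr q.2).Nonempty :=
    ⟨(i0, j0), Finset.mem_filter.2 ⟨Finset.mk_mem_product hi0 hj0, hij⟩⟩
  obtain ⟨⟨x, y⟩, hq, hm⟩ := Finset.exists_min_image _ (fun q => ip a b q.1 q.2) hne
  rw [Finset.mem_filter, Finset.mem_product] at hq
  obtain ⟨⟨hx, hy⟩, hxy⟩ := hq
  dsimp only at hx hy hxy hm
  have hmin : ∀ v ∈ S, ∀ v' ∈ S, gr v ≠ gr v' → ip a b x y ≤ ip a b v v' := fun v hv v' hv' h =>
    hm (v, v') (Finset.mem_filter.2 ⟨Finset.mk_mem_product hv hv', h⟩)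
  have ux := hunit x hx
  have uy := hunit y hy
  have hgt : -1 < ip a b x y := by
    by_contra hc
    have h3 : (a x + a y) ^ 2 + (b x + b y) ^ 2 ≤ 0 := by
      have : (a x + a y) ^ 2 + (b x + b y) ^ 2 = (a x ^ 2 + b x ^ 2) + (a y ^ 2 + b y ^ 2) +
          2 * ip a b x y := by unfold ip; ring
      rw [this, ux, uy]; linarith
    have h4 : a x + a y = 0 := by
      have : (a x + a y) ^ 2 = 0 := le_antisymm (by nlinarith [sq_nonneg (b x + b y)])
        (sq_nonneg _)
      exact pow_eq_zero_iff (two_ne_zero) |>.1 this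
    have h5 : b x + b y = 0 := by
      have : (b x + b y) ^ 2 = 0 := le_antisymm (by nlinarith [sq_nonneg (a x + a y)])
        (sq_nonneg _)
      exact pow_eq_zero_iff (two_ne_zero) |>.1 this
    obtain ⟨z, hz, hxz, hyz⟩ := H.third x hx y hy
    obtain ⟨u, v, h6, h7, -⟩ := hNC x hx y hy z hz hxy hyz hxz
    have h8 : (u * a x + v * b x) + (u * a y + v * b y) = u * (a x + a y) + v * (b x + b y) := by
      ring
    rw [h4, h5] at h8
    linarith
  have hbr0 : br a b x y ≠ 0 := by
    intro h3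
    have h4 := sq_ident (a := a) (b := b) x y
    rw [h3, ux, uy] at h4
    have h5 : ip a b x y = 1 := by nlinarith
    have h6 : ∀ v ∈ S, ∀ v' ∈ S, gr v ≠ gr v' → a v = a v' ∧ b v = b v' := by
      intro v hv v' hv' hne
      have h7 := hmin v hv v' hv' hne
      have uv := hunit v hv
      have uv' := hunit v' hv'
      have h8 : (a v - a v') ^ 2 + (b v - b v') ^ 2 ≤ 0 := by
        have : (a v - a v') ^ 2 + (b v - b v') ^ 2 = (a v ^ 2 + b v ^ 2) + (a v' ^ 2 + b v' ^ 2) -
            2 * ip a b v v' := by unfold ip; ring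
        rw [this, uv, uv']; linarith
      have h9 : (a v - a v') ^ 2 = 0 := le_antisymm (by nlinarith [sq_nonneg (b v - b v')])
        (sq_nonneg _)
      have h10 : (b v - b v') ^ 2 = 0 := le_antisymm (by nlinarith [sq_nonneg (a v - a v')])
        (sq_nonneg _)
      exact ⟨sub_eq_zero.1 (pow_eq_zero_iff (two_ne_zero) |>.1 h9),
        sub_eq_zero.1 (pow_eq_zero_iff (two_ne_zero) |>.1 h10)⟩
    have h7 : ∀ v ∈ S, a v = a x ∧ b v = b x := by
      intro v hv
      by_cases hvx : gr v = gr x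
      · have h8 := h6 v hv y hy (by rw [hvx]; exact hxy)
        have h9 := h6 x hx y hy hxy
        exact ⟨h8.1.trans h9.1.symm, h8.2.trans h9.2.symm⟩
      · exact h6 v hv x hx hvx
    have h8 : (∑ v ∈ S, w v) * a x = 0 := by
      rw [← h1, Finset.sum_mul]
      exact Finset.sum_congr rfl fun v hv => by rw [(h7 v hv).1]
    have h9 : (∑ v ∈ S, w v) * b x = 0 := by
      rw [← h2, Finset.sum_mul]
      exact Finset.sum_congr rfl fun v hv => by rw [(h7 v hv).2]
    have h10 : a x = 0 := (mul_eq_zero.1 h8).resolve_left hpos.ne'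
    have h11 : b x = 0 := (mul_eq_zero.1 h9).resolve_left hpos.ne'
    rw [h10, h11] at ux
    norm_num at ux
  -- the main argument
  have main : ∀ x y : α, MinP S gr a b x y → False := by
    intro x y M
    by_cases cB : ∃ v ∈ S, gr v = gr x ∧ 0 < br a b y v
    · exact caseB H M hw hpos hhalf h1 h2 cB
    · by_cases cB' : ∃ v ∈ S, gr v = gr y ∧ 0 < br a b v x
      · refine caseB H.mirror M.mirror hw hpos hhalf h1 ?_ ?_
        · simp only [mul_neg, Finset.sum_neg_distrib, h2, neg_zero]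
        · obtain ⟨v, hv, h3, h4⟩ := cB'
          exact ⟨v, hv, h3, by rw [br_neg]; exact h4⟩
      · refine caseA H M hw hpos h1 h2 ?_ ?_
        · intro v hv h3
          by_contra h4
          exact cB ⟨v, hv, h3, not_le.1 h4⟩
        · intro v hv h3
          by_contra h4
          exact cB' ⟨v, hv, h3, not_le.1 h4⟩
  rcases lt_or_gt_of_ne hbr0 with h3 | h3
  · exact main y x ⟨hy, hx, hxy.symm, by rw [br_anti]; linarith, by rw [ip_comm]; exact hgt,
      fun v hv v' hv' h => by rw [ip_comm]; exact hmin v hv v' hv' h⟩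
  · exact main x y ⟨hx, hy, hxy, h3, hgt, hmin⟩

end H257R5.U
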