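import Mathlib
import Pool.Agent.H257R5.Six.LemU
set_option autoImplicit false

/-! Part of the proof that `c(4,3,2) ≤ 6` (MP_8fca14_co).  Plan: helper257; this file: helper566. -/
namespace H257R5.F
open H257R5.U


open Classical in
theorem useU {α : Type*} [Fintype α] (T : Finset α) (D : α) (gap : α → Fin 4) (w : α → ℝ)
    (W : ℝ) (hW : 0 < W) (hw : ∀ i, 0 ≤ w i) (hgap : ∀ g : Fin 4, ∑ i with gap i = g, w i = W)
    (a b : α → ℝ) (hunit : ∀ i ∈ insert D T, a i ^ 2 + b i ^ 2 = 1)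
    (hP : 2 * W ≤ ∑ i ∈ T, w i)
    (hthree : ∃ i ∈ insert D T, ∃ j ∈ insert D T, ∃ k ∈ insert D T,
      gap i ≠ gap j ∧ gap j ≠ gap k ∧ gap i ≠ gap k)
    (hNC : ∀ i ∈ insert D T, ∀ j ∈ insert D T, ∀ k ∈ insert D T, gap i ≠ gap j → gap j ≠ gap k →
      gap i ≠ gap k →
      ∃ u v : ℝ, 0 < u * a i + v * b i ∧ 0 < u * a j + v * b j ∧ 0 < u * a k + v * b k)
    (h1 : ∑ i ∈ T, w i * a i = 0) (h2 : ∑ i ∈ T, w i * b i = 0) : False := by
  have hsub : T ⊆ insert D T := Finset.subset_insert D T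
  have hsum : ∀ f : α → ℝ, ∑ i ∈ insert D T, (if i ∈ T then w i else 0) * f i
      = ∑ i ∈ T, w i * f i := by
    intro f
    simp only [ite_mul, zero_mul]
    rw [Finset.sum_ite_mem, Finset.inter_eq_right.2 hsub]
  have hsum1 : ∑ i ∈ insert D T, (if i ∈ T then w i else 0) = ∑ i ∈ T, w i := by
    rw [Finset.sum_ite_mem, Finset.inter_eq_right.2 hsub]
  have hw' : ∀ i, 0 ≤ (if i ∈ T then w i else 0) := by
    intro i; split_ifs
    · exact hw i
    · exact le_refl 0
  refine lemmaU (insert D T) gap (fun i => if i ∈ T then w i else 0) a b hunit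
    (fun i _ => hw' i) ?_ hthree hNC ?_ ?_ ?_
  · show 0 < ∑ i ∈ insert D T, (if i ∈ T then w i else 0)
    rw [hsum1]; linarith
  · intro g
    show 2 * ∑ i ∈ insert D T with gap i = g, (if i ∈ T then w i else 0)
      ≤ ∑ i ∈ insert D T, (if i ∈ T then w i else 0)
    rw [hsum1]
    have e1 : ∑ i ∈ insert D T with gap i = g, (if i ∈ T then w i else 0) ≤
        ∑ i with gap i = g, (if i ∈ T then w i else 0) :=
      Finset.sum_le_sum_of_subset_of_nonneg
        (Finset.filter_subset_filter _ (Finset.subset_univ _)) (fun i _ _ => hw' i)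
    have e2 : ∑ i with gap i = g, (if i ∈ T then w i else 0) ≤ ∑ i with gap i = g, w i := by
      apply Finset.sum_le_sum
      intro i _
      split_ifs
      · exact le_refl _
      · exact hw i
    have e3 := hgap g
    linarith
  · exact (hsum a).trans h1
  · exact (hsum b).trans h2

open Classical in
theorem core {α : Type*} [Fintype α] (c : α → α → Prop) (hc : ∀ i j, c i j ↔ c j i)
    (S : α → Prop) (gap : α → Fin 4) (w : α → ℝ) (W : ℝ) (hW : 0 < W)
    (hw : ∀ i, 0 ≤ w i) (hgap : ∀ g : Fin 4, ∑ i with gap i = g, w i = W)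
    (xa xb ya yb : α → ℝ)
    (hx : ∀ i, 0 < w i → xa i ^ 2 + xb i ^ 2 = 1)
    (hy : ∀ i, 0 < w i → ya i ^ 2 + yb i ^ 2 = 1)
    (hL : ∀ i j, 0 < w i → 0 < w j → gap i ≠ gap j → S i → S j → c i j)
    (hR : ∀ i j, 0 < w i → 0 < w j → gap i ≠ gap j → ¬ S i → ¬ S j → ¬ c i j)
    (hAC : ∀ i j k m, 0 < w i → 0 < w j → 0 < w k → 0 < w m →
      gap i ≠ gap j → gap j ≠ gap k → gap k ≠ gap m → gap m ≠ gap i →
      c i j → ¬ c j k → c k m → c m i)
    (hNx : ∀ i j k, 0 < w i → 0 < w j → 0 < w k → gap i ≠ gap j → gap j ≠ gap k → gap i ≠ gap k →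
      c i j → c j k → c i k →
      ∃ u v : ℝ, 0 < u * xa i + v * xb i ∧ 0 < u * xa j + v * xb j ∧ 0 < u * xa k + v * xb k)
    (hNy : ∀ i j k, 0 < w i → 0 < w j → 0 < w k → gap i ≠ gap j → gap j ≠ gap k → gap i ≠ gap k →
      ¬ c i j → ¬ c j k → ¬ c i k →
      ∃ u v : ℝ, 0 < u * ya i + v * yb i ∧ 0 < u * ya j + v * yb j ∧ 0 < u * ya k + v * yb k)
    (h1 : ∑ i with S i, w i * xa i = 0) (h2 : ∑ i with S i, w i * xb i = 0)
    (h3 : ∑ i with ¬ S i, w i * ya i = 0) (h4 : ∑ i with ¬ S i, w i * yb i = 0)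
    (hP : 2 * W ≤ ∑ i with S i, w i) : False := by
  -- restricting to positive weights
  have hrest : ∀ (Q : α → Prop) (f : α → ℝ), ∑ i with (0 < w i ∧ Q i), w i * f i
      = ∑ i with Q i, w i * f i := by
    intro Q f
    apply Finset.sum_subset
    · intro i hi
      simp only [Finset.mem_filter, Finset.mem_univ, true_and] at hi ⊢
      exact hi.2
    · intro i hi hi'
      simp only [Finset.mem_filter, Finset.mem_univ, true_and] at hi hi'
      have : w i = 0 := by
        by_contra hne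
        exact hi' ⟨lt_of_le_of_ne (hw i) (Ne.symm hne), hi⟩
      rw [this, zero_mul]
  have hrest1 : ∀ (Q : α → Prop), ∑ i with (0 < w i ∧ Q i), w i = ∑ i with Q i, w i := by
    intro Q
    have := hrest Q (fun _ => 1)
    simpa using this
  have hgw : ∀ (T : Finset α) (g : Fin 4), ∑ i ∈ T with gap i = g, w i ≤ W := by
    intro T g
    rw [← hgap g]
    exact Finset.sum_le_sum_of_subset_of_nonneg
      (Finset.filter_subset_filter _ (Finset.subset_univ _)) (fun i _ _ => hw i)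
  set Gp : Finset α := Finset.univ.filter (fun i => 0 < w i ∧ S i) with hGp
  set Gm : Finset α := Finset.univ.filter (fun i => 0 < w i ∧ ¬ S i) with hGm
  have mGp : ∀ i, i ∈ Gp ↔ 0 < w i ∧ S i := by intro i; simp [hGp]
  have mGm : ∀ i, i ∈ Gm ↔ 0 < w i ∧ ¬ S i := by intro i; simp [hGm]
  have hP' : 2 * W ≤ ∑ i ∈ Gp, w i := by rw [hrest1 S]; exact hP
  have h1' : ∑ i ∈ Gp, w i * xa i = 0 := by rw [hrest S xa]; exact h1
  have h2' : ∑ i ∈ Gp, w i * xb i = 0 := by rw [hrest S xb]; exact h2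
  have hmm : ∀ f : α → ℝ, ∑ i ∈ Gm, w i * f i = ∑ i with ¬ S i, w i * f i := by
    intro f
    convert hrest (fun i => ¬ S i) f using 1
    · rw [hGm]
      apply Finset.sum_congr _ (fun _ _ => rfl)
      ext i; simp
    · apply Finset.sum_congr _ (fun _ _ => rfl)
      ext i; simp
  have hmm1 : ∑ i ∈ Gm, w i = ∑ i with ¬ S i, w i := by
    have := hmm (fun _ => 1)
    simpa using this
  have h3' : ∑ i ∈ Gm, w i * ya i = 0 := (hmm ya).trans h3
  have h4' : ∑ i ∈ Gm, w i * yb i = 0 := (hmm yb).trans h4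
  have htot : ∑ i, w i = 4 * W := by
    have := Finset.sum_fiberwise (s := (Finset.univ : Finset α)) (g := gap) (f := w)
    rw [← this]
    rw [Finset.sum_congr rfl (fun g _ => hgap g)]
    simp
  have hPQ : ∑ i ∈ Gp, w i + ∑ i ∈ Gm, w i = 4 * W := by
    rw [hrest1 S, hmm1, ← htot]
    exact Finset.sum_filter_add_sum_filter_not _ _ _
  -- a member of Gp
  have hne : Gp.Nonempty := by
    rw [Finset.nonempty_iff_ne_empty]
    intro h
    rw [h, Finset.sum_empty] at hP'
    linarith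
  obtain ⟨i0, hi0⟩ := hne
  -- the key use of lemmaU for Gp plus a point
  have useGp : ∀ D, 0 < w D → (∀ i ∈ Gp, gap i ≠ gap D → c i D) →
      (∃ i ∈ insert D Gp, ∃ j ∈ insert D Gp, ∃ k ∈ insert D Gp,
        gap i ≠ gap j ∧ gap j ≠ gap k ∧ gap i ≠ gap k) → False := by
    intro D hD hcD h3g
    have hpos : ∀ i ∈ insert D Gp, 0 < w i := by
      intro i hi
      rw [Finset.mem_insert] at hi
      rcases hi with rfl | hi
      · exact hD
      · exact ((mGp i).1 hi).1
    have hcc : ∀ i ∈ insert D Gp, ∀ j ∈ insert D Gp, gap i ≠ gap j → c i j := by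
      intro i hi j hj hij
      rw [Finset.mem_insert] at hi hj
      rcases hi with rfl | hi
      · rcases hj with rfl | hj
        · exact absurd rfl hij
        · exact (hc _ _).1 (hcD j hj (Ne.symm hij))
      · rcases hj with rfl | hj
        · exact hcD i hi hij
        · exact hL i j ((mGp i).1 hi).1 ((mGp j).1 hj).1 hij ((mGp i).1 hi).2 ((mGp j).1 hj).2
    refine useU Gp D gap w W hW hw hgap xa xb (fun i hi => hx i (hpos i hi)) hP' h3g ?_ h1' h2'
    intro i hi j hj k hk hij hjk hik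
    exact hNx i j k (hpos i hi) (hpos j hj) (hpos k hk) hij hjk hik (hcc i hi j hj hij)
      (hcc j hj k hk hjk) (hcc i hi k hk hik)
  by_cases hthree : ∃ i ∈ Gp, ∃ j ∈ Gp, ∃ k ∈ Gp, gap i ≠ gap j ∧ gap j ≠ gap k ∧ gap i ≠ gap k
  · obtain ⟨i, hi, j, hj, k, hk, h⟩ := hthree
    refine useGp i0 ((mGp i0).1 hi0).1 (fun i hi hii => hL i i0 ((mGp i).1 hi).1 ((mGp i0).1 hi0).1
      hii ((mGp i).1 hi).2 ((mGp i0).1 hi0).2) ⟨i, Finset.mem_insert_of_mem hi, j,
      Finset.mem_insert_of_mem hj, k, Finset.mem_insert_of_mem hk, h⟩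
  -- two gaps
  have hex1 : ∃ i1 ∈ Gp, gap i1 ≠ gap i0 := by
    by_contra hno
    push Not at hno
    have h5 := hgw Gp (gap i0)
    rw [Finset.filter_true_of_mem (fun i hi => hno i hi)] at h5
    linarith
  obtain ⟨i1, hi1, hi10⟩ := hex1
  have htwo : ∀ i ∈ Gp, gap i = gap i0 ∨ gap i = gap i1 := by
    intro i hi
    by_contra hno
    push Not at hno
    exact hthree ⟨i0, hi0, i1, hi1, i, hi, Ne.symm hi10, Ne.symm hno.2, Ne.symm hno.1⟩
  have hsplit : ∑ i ∈ Gp, w i = ∑ i ∈ Gp with gap i = gap i0, w i + ∑ i ∈ Gp with gap i = gap i1, w i := by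
    rw [← Finset.sum_union]
    · apply Finset.sum_congr _ (fun _ _ => rfl)
      ext i
      simp only [Finset.mem_union, Finset.mem_filter]
      constructor
      · intro hi
        rcases htwo i hi with h | h
        · exact Or.inl ⟨hi, h⟩
        · exact Or.inr ⟨hi, h⟩
      · rintro (h | h)
        · exact h.1
        · exact h.1
    · rw [Finset.disjoint_left]
      intro i hi hi'
      simp only [Finset.mem_filter] at hi hi'
      exact hi10 (hi'.2.symm.trans hi.2)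
  have hW0 := hgw Gp (gap i0)
  have hW1 := hgw Gp (gap i1)
  have hE0 : ∑ i ∈ Gp with gap i = gap i0, w i = W := by linarith
  have hE1 : ∑ i ∈ Gp with gap i = gap i1, w i = W := by linarith
  -- members of the gaps g with full Gp weight are in Gp
  have hfull : ∀ g : Fin 4, ∑ i ∈ Gp with gap i = g, w i = W → ∀ j, 0 < w j → gap j = g → S j := by
    intro g hg j hj hjg
    by_contra hSj
    have hjn : j ∉ Gp.filter (fun i => gap i = g) := by
      intro h
      rw [Finset.mem_filter, mGp] at h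
      exact hSj h.1.2
    have h5 : ∑ i ∈ insert j (Gp.filter (fun i => gap i = g)), w i ≤ ∑ i with gap i = g, w i := by
      apply Finset.sum_le_sum_of_subset_of_nonneg
      · intro i hi
        rw [Finset.mem_insert, Finset.mem_filter] at hi
        rw [Finset.mem_filter]
        rcases hi with rfl | hi
        · exact ⟨Finset.mem_univ _, hjg⟩
        · exact ⟨Finset.mem_univ _, hi.2⟩
      · intro i _ _; exact hw i
    rw [Finset.sum_insert hjn, hg, hgap g] at h5
    linarith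
  have hdis : ∀ i ∈ Gp, ∀ j ∈ Gm, gap i ≠ gap j := by
    intro i hi j hj hij
    rw [mGm] at hj
    rcases htwo i hi with h | h
    · exact hj.2 (hfull _ hE0 j hj.1 (hij.symm.trans h))
    · exact hj.2 (hfull _ hE1 j hj.1 (hij.symm.trans h))
  -- members of other gaps
  have hother : ∀ g : Fin 4, g ≠ gap i0 → g ≠ gap i1 → ∃ j ∈ Gm, gap j = g := by
    intro g hg0 hg1
    have h5 : 0 < ∑ i with gap i = g, w i := by rw [hgap g]; exact hW
    obtain ⟨j, hj, hjw⟩ : ∃ j ∈ Finset.univ.filter (fun i => gap i = g), 0 < w j := by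
      by_contra hno
      push Not at hno
      have := Finset.sum_nonpos hno
      linarith
    rw [Finset.mem_filter] at hj
    refine ⟨j, (mGm j).2 ⟨hjw, ?_⟩, hj.2⟩
    intro hSj
    rcases htwo j ((mGp j).2 ⟨hjw, hSj⟩) with h | h
    · exact hg0 (hj.2.symm.trans h)
    · exact hg1 (hj.2.symm.trans h)
  obtain ⟨g3, g4, h30, h31, h40, h41, h34⟩ : ∃ g3 g4 : Fin 4, g3 ≠ gap i0 ∧ g3 ≠ gap i1 ∧
      g4 ≠ gap i0 ∧ g4 ≠ gap i1 ∧ g3 ≠ g4 := by
    have : ∀ x y : Fin 4, y ≠ x → ∃ g3 g4 : Fin 4, g3 ≠ x ∧ g3 ≠ y ∧ g4 ≠ x ∧ g4 ≠ y ∧ g3 ≠ g4 := by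
      decide
    exact this _ _ hi10
  obtain ⟨j3, hj3, hg3⟩ := hother g3 h30 h31
  obtain ⟨j4, hj4, hg4⟩ := hother g4 h40 h41
  -- claim
  have hclaim : (∃ D ∈ Gm, ∀ i ∈ Gp, c i D) ∨ (∃ C ∈ Gp, ∀ j ∈ Gm, ¬ c C j) := by
    obtain ⟨C1, hC1, hmin⟩ := Finset.exists_min_image Gp (fun i => (Gm.filter (fun j => c i j)).card)
      ⟨i0, hi0⟩
    by_cases hemp : ∀ j ∈ Gm, ¬ c C1 j
    · exact Or.inr ⟨C1, hC1, hemp⟩
    · push Not at hemp
      obtain ⟨D0, hD0, hcD0⟩ := hemp
      left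
      by_contra hno
      push Not at hno
      obtain ⟨C2, hC2, hC2D0⟩ := hno D0 hD0
      have hnsub : ¬ (Gm.filter (fun j => c C2 j)) ⊆ (Gm.filter (fun j => c C1 j)) := by
        intro hsub
        have hss : (Gm.filter (fun j => c C2 j)) ⊂ (Gm.filter (fun j => c C1 j)) := by
          rw [Finset.ssubset_iff_of_subset hsub]
          exact ⟨D0, Finset.mem_filter.2 ⟨hD0, hcD0⟩, fun h => hC2D0 (Finset.mem_filter.1 h).2⟩
        have := Finset.card_lt_card hss
        have := hmin C2 hC2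
        omega
      rw [Finset.not_subset] at hnsub
      obtain ⟨D1, hD1, hD1'⟩ := hnsub
      rw [Finset.mem_filter] at hD1 hD1'
      have hnc : ¬ c C1 D1 := fun h => hD1' ⟨hD1.1, h⟩
      have := hAC C1 D0 C2 D1 ((mGp _).1 hC1).1 ((mGm _).1 hD0).1 ((mGp _).1 hC2).1
        ((mGm _).1 hD1.1).1 (hdis _ hC1 _ hD0) (Ne.symm (hdis _ hC2 _ hD0)) (hdis _ hC2 _ hD1.1)
        (Ne.symm (hdis _ hC1 _ hD1.1)) hcD0 (fun h => hC2D0 ((hc _ _).1 h)) hD1.2
      exact hnc ((hc _ _).1 this)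
  rcases hclaim with ⟨D, hD, hcD⟩ | ⟨C, hC, hcC⟩
  · refine useGp D ((mGm D).1 hD).1 (fun i hi _ => hcD i hi) ⟨i0, Finset.mem_insert_of_mem hi0, i1,
      Finset.mem_insert_of_mem hi1, D, Finset.mem_insert_self _ _, Ne.symm hi10, hdis _ hi1 _ hD,
      hdis _ hi0 _ hD⟩
  · have hpos : ∀ i ∈ insert C Gm, 0 < w i := by
      intro i hi
      rw [Finset.mem_insert] at hi
      rcases hi with rfl | hi
      · exact ((mGp _).1 hC).1
      · exact ((mGm i).1 hi).1
    have hcc : ∀ i ∈ insert C Gm, ∀ j ∈ insert C Gm, gap i ≠ gap j → ¬ c i j := by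
      intro i hi j hj hij
      rw [Finset.mem_insert] at hi hj
      rcases hi with rfl | hi
      · rcases hj with rfl | hj
        · exact absurd rfl hij
        · exact hcC j hj
      · rcases hj with rfl | hj
        · exact fun h => hcC i hi ((hc _ _).1 h)
        · exact hR i j ((mGm i).1 hi).1 ((mGm j).1 hj).1 hij ((mGm i).1 hi).2 ((mGm j).1 hj).2
    refine useU Gm C gap w W hW hw hgap ya yb (fun i hi => hy i (hpos i hi)) (by linarith)
      ⟨C, Finset.mem_insert_self _ _, j3, Finset.mem_insert_of_mem hj3, j4,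
        Finset.mem_insert_of_mem hj4, hdis _ hC _ hj3, ?_, hdis _ hC _ hj4⟩ ?_ h3' h4'
    · rw [hg3, hg4]; exact h34
    · intro i hi j hj k hk hij hjk hik
      exact hNy i j k (hpos i hi) (hpos j hj) (hpos k hk) hij hjk hik (hcc i hi j hj hij)
        (hcc j hj k hk hjk) (hcc i hi k hk hik)

open Classical in
/-- TARGET. -/
theorem finish {α : Type*} [Fintype α] (c : α → α → Prop) (hc : ∀ i j, c i j ↔ c j i)
    (S : α → Prop) (gap : α → Fin 4) (w : α → ℝ) (W : ℝ) (hW : 0 < W)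
    (hw : ∀ i, 0 ≤ w i) (hgap : ∀ g : Fin 4, ∑ i with gap i = g, w i = W)
    (xa xb ya yb : α → ℝ)
    (hx : ∀ i, 0 < w i → xa i ^ 2 + xb i ^ 2 = 1)
    (hy : ∀ i, 0 < w i → ya i ^ 2 + yb i ^ 2 = 1)
    (hL : ∀ i j, 0 < w i → 0 < w j → gap i ≠ gap j → S i → S j → c i j)
    (hR : ∀ i j, 0 < w i → 0 < w j → gap i ≠ gap j → ¬ S i → ¬ S j → ¬ c i j)
    (hAC : ∀ i j k m, 0 < w i → 0 < w j → 0 < w k → 0 < w m →
      gap i ≠ gap j → gap j ≠ gap k → gap k ≠ gap m → gap m ≠ gap i →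
      c i j → ¬ c j k → c k m → c m i)
    (hNx : ∀ i j k, 0 < w i → 0 < w j → 0 < w k → gap i ≠ gap j → gap j ≠ gap k → gap i ≠ gap k →
      c i j → c j k → c i k →
      ∃ u v : ℝ, 0 < u * xa i + v * xb i ∧ 0 < u * xa j + v * xb j ∧ 0 < u * xa k + v * xb k)
    (hNy : ∀ i j k, 0 < w i → 0 < w j → 0 < w k → gap i ≠ gap j → gap j ≠ gap k → gap i ≠ gap k →
      ¬ c i j → ¬ c j k → ¬ c i k →
      ∃ u v : ℝ, 0 < u * ya i + v * yb i ∧ 0 < u * ya j + v * yb j ∧ 0 < u * ya k + v * yb k)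
    (h1 : ∑ i with S i, w i * xa i = 0) (h2 : ∑ i with S i, w i * xb i = 0)
    (h3 : ∑ i with ¬ S i, w i * ya i = 0) (h4 : ∑ i with ¬ S i, w i * yb i = 0) : False := by
  have htot : ∑ i, w i = 4 * W := by
    have := Finset.sum_fiberwise (s := (Finset.univ : Finset α)) (g := gap) (f := w)
    rw [← this]
    rw [Finset.sum_congr rfl (fun g _ => hgap g)]
    simp
  have hPQ : ∑ i with S i, w i + ∑ i with ¬ S i, w i = 4 * W := by
    rw [← htot]
    exact Finset.sum_filter_add_sum_filter_not _ _ _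
  rcases le_total (2 * W) (∑ i with S i, w i) with h | h
  · exact core c hc S gap w W hW hw hgap xa xb ya yb hx hy hL hR hAC hNx hNy h1 h2 h3 h4 h
  · refine core (fun i j => ¬ c i j) (fun i j => not_congr (hc i j)) (fun i => ¬ S i) gap w W hW hw
      hgap ya yb xa xb hy hx hR ?_ ?_ hNy ?_ ?_ ?_ ?_ ?_ ?_
    · intro i j hi hj hij hSi hSj
      rw [not_not] at hSi hSj ⊢
      exact hL i j hi hj hij hSi hSj
    · intro i j k m hi hj hk hm hij hjk hkm hmi h5 h6 h7 h8
      rw [not_not] at h6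
      exact h5 (hAC j k m i hj hk hm hi hjk hkm hmi hij h6 h7 h8)
    · intro i j k hi hj hk hij hjk hik h5 h6 h7
      rw [not_not] at h5 h6 h7
      exact hNx i j k hi hj hk hij hjk hik h5 h6 h7
    · rw [← h3]; apply Finset.sum_congr _ (fun _ _ => rfl); ext i; simp
    · rw [← h4]; apply Finset.sum_congr _ (fun _ _ => rfl); ext i; simp
    · rw [← h1]; apply Finset.sum_congr _ (fun _ _ => rfl); ext i; simp
    · rw [← h2]; apply Finset.sum_congr _ (fun _ _ => rfl); ext i; simp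
    · have h5 : 2 * W ≤ ∑ i with ¬ S i, w i := by linarith
      refine h5.trans (le_of_eq ?_)
      apply Finset.sum_congr _ (fun _ _ => rfl); ext i; simp

end H257R5.F
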