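import Mathlib
set_option autoImplicit false

/-! Part of the proof that `c(4,3,2) ≤ 6` (MP_8fca14_co).  Plan: helper257; this file: helper416. -/
namespace H257R5.W


/-- the colour of edge `i` -/
def cc (i : ℕ) : Bool := decide (i % 2 = 0)

theorem cc_congr {i j : ℕ} (h : i % 2 = j % 2) : cc i = cc j := by unfold cc; rw [h]

theorem cc_flip {i j : ℕ} (h : i % 2 ≠ j % 2) : cc i = !cc j := by
  unfold cc
  rcases Nat.mod_two_eq_zero_or_one i with h1 | h1 <;>
    rcases Nat.mod_two_eq_zero_or_one j with h2 | h2 <;> simp_all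

/-- a closed alternating walk of length `2 k + 1` from `v0` -/
def Wk {α : Type*} (E : Bool → α → α → Prop) (v0 : α) (k : ℕ) (p : ℕ → α) : Prop :=
  p 0 = v0 ∧ p (2 * k + 1) = v0 ∧ ∀ i ≤ 2 * k, E (cc i) (p i) (p (i + 1))

theorem Wk.rev {α : Type*} {E : Bool → α → α → Prop} {v0 : α} {k : ℕ} {p : ℕ → α}
    (hsymm : ∀ e a b, E e a b → E e b a) (h : Wk E v0 k p) :
    Wk E v0 k (fun i => p (2 * k + 1 - i)) := by
  refine ⟨?_, ?_, ?_⟩
  · simpa using h.2.1
  · simpa using h.1
  · intro i hi
    have h1 := h.2.2 (2 * k - i) (by omega)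
    have e1 : cc (2 * k - i) = cc i := cc_congr (by omega)
    have e2 : 2 * k - i + 1 = 2 * k + 1 - i := by omega
    have e3 : 2 * k + 1 - (i + 1) = 2 * k - i := by omega
    rw [e1, e2] at h1
    show E (cc i) (p (2 * k + 1 - i)) (p (2 * k + 1 - (i + 1)))
    rw [e3]
    exact hsymm _ _ _ h1

/-- (m1), first half -/
theorem m1a {α : Type*} {E : Bool → α → α → Prop} {v0 : α} {k : ℕ} {p : ℕ → α}
    (IH : ∀ k' < k, ∀ q, ¬ Wk E v0 k' q) (h : Wk E v0 k p) (i : ℕ) (hi : i + 3 ≤ 2 * k + 1) :
    ¬ E (cc i) (p i) (p (i + 3)) := by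
  intro hE
  apply IH (k - 1) (by omega) (fun j => if j ≤ i then p j else p (j + 2))
  refine ⟨?_, ?_, ?_⟩
  · simp [h.1]
  · have e1 : ¬ (2 * (k - 1) + 1 ≤ i) := by omega
    simp only [e1, if_false]
    have e2 : 2 * (k - 1) + 1 + 2 = 2 * k + 1 := by omega
    rw [e2]; exact h.2.1
  · intro j hj
    rcases lt_trichotomy j i with h1 | h1 | h1
    · simp only [show j ≤ i by omega, show j + 1 ≤ i by omega, if_true]
      exact h.2.2 j (by omega)
    · subst h1
      simp only [le_refl, show ¬ (j + 1 ≤ j) by omega, if_true, if_false]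
      exact hE
    · simp only [show ¬ (j ≤ i) by omega, show ¬ (j + 1 ≤ i) by omega, if_false]
      have h2 := h.2.2 (j + 2) (by omega)
      have e1 : cc (j + 2) = cc j := cc_congr (by omega)
      rw [e1] at h2
      exact h2

/-- (m2) -/
theorem m2 {α : Type*} {E : Bool → α → α → Prop} {v0 : α} {k : ℕ} {p : ℕ → α}
    (hsymm : ∀ e a b, E e a b → E e b a)
    (IH : ∀ k' < k, ∀ q, ¬ Wk E v0 k' q) (h : Wk E v0 k p) (i j : ℕ) (hij : i < j)
    (hpar : i % 2 = j % 2) (hlt : i + j < 2 * k) : ¬ E (cc i) (p i) (p j) := by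
  intro hE
  apply IH ((i + j) / 2) (by omega) (fun t => if t ≤ i then p t else p (j + i + 1 - t))
  have e0 : 2 * ((i + j) / 2) = i + j := by omega
  refine ⟨?_, ?_, ?_⟩
  · simp [h.1]
  · rw [e0]
    have e1 : ¬ (i + j + 1 ≤ i) := by omega
    simp only [e1, if_false]
    have e2 : j + i + 1 - (i + j + 1) = 0 := by omega
    rw [e2]; exact h.1
  · intro t ht
    rw [e0] at ht
    rcases lt_trichotomy t i with h1 | h1 | h1
    · simp only [show t ≤ i by omega, show t + 1 ≤ i by omega, if_true]
      exact h.2.2 t (by omega)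
    · subst h1
      simp only [le_refl, show ¬ (t + 1 ≤ t) by omega, if_true, if_false]
      have e2 : j + t + 1 - (t + 1) = j := by omega
      rw [e2]; exact hE
    · simp only [show ¬ (t ≤ i) by omega, show ¬ (t + 1 ≤ i) by omega, if_false]
      have h2 := h.2.2 (j + i - t) (by omega)
      have e1 : cc (j + i - t) = cc t := cc_congr (by omega)
      have e2 : j + i - t + 1 = j + i + 1 - t := by omega
      have e3 : j + i + 1 - (t + 1) = j + i - t := by omega
      rw [e1, e2] at h2
      rw [e3]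
      exact hsymm _ _ _ h2

/-- (m2'), the reversed form -/
theorem m2' {α : Type*} {E : Bool → α → α → Prop} {v0 : α} {k : ℕ} {p : ℕ → α}
    (hsymm : ∀ e a b, E e a b → E e b a)
    (IH : ∀ k' < k, ∀ q, ¬ Wk E v0 k' q) (h : Wk E v0 k p) (a b : ℕ) (hab : b < a)
    (ha : a ≤ 2 * k + 1) (hpar : a % 2 = b % 2) (hlt : 2 * k + 2 < a + b) :
    ¬ E (cc (a - 1)) (p a) (p b) := by
  intro hE
  apply m2 hsymm IH (h.rev hsymm) (2 * k + 1 - a) (2 * k + 1 - b) (by omega) (by omega) (by omega)
  have e1 : cc (2 * k + 1 - a) = cc (a - 1) := cc_congr (by omega)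
  rw [e1]
  show E (cc (a - 1)) (p (2 * k + 1 - (2 * k + 1 - a))) (p (2 * k + 1 - (2 * k + 1 - b)))
  have e2 : 2 * k + 1 - (2 * k + 1 - a) = a := by omega
  have e3 : 2 * k + 1 - (2 * k + 1 - b) = b := by omega
  rw [e2, e3]
  exact hE

/-- the part of the proof which uses the minimality, in a symmetric form -/
theorem core {α : Type*} (lt : α → α → Prop) (E : Bool → α → α → Prop)
    (hirr : ∀ a, ¬ lt a a) (htrans : ∀ a b c, lt a b → lt b c → lt a c)
    (h22 : ∀ a b c d, lt a b → lt c d → lt a d ∨ lt c b)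
    (hsymm : ∀ e a b, E e a b → E e b a)
    (hcomp : ∀ a b, (E true a b ∨ E false a b) ↔ (lt a b ∨ lt b a))
    (hAC : ∀ e a b c d, E e a b → E (!e) b c → E e c d → ¬ E (!e) d a)
    (v0 : α) (hmin : ∀ a b, lt a b → lt v0 b)
    (k : ℕ) (p : ℕ → α) (IH : ∀ k' < k, ∀ q, ¬ Wk E v0 k' q) (h : Wk E v0 k p)
    (hk : 4 ≤ k) (hk3 : k % 3 = 1) (ho : lt (p k) (p (k + 1))) : False := by
  have hasymm : ∀ a b, lt a b → ¬ lt b a := fun a b h1 h2 => hirr a (htrans _ _ _ h1 h2)
  have hcmpE : ∀ e a b, E e a b → (lt a b ∨ lt b a) := by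
    intro e a b hE
    cases e
    · exact (hcomp a b).1 (Or.inr hE)
    · exact (hcomp a b).1 (Or.inl hE)
  have hnc : ∀ e a b, ¬ E e a b → ¬ E (!e) a b → ¬ (lt a b ∨ lt b a) := by
    intro e a b h1 h2 h3
    rcases (hcomp a b).2 h3 with h4 | h4
    · cases e
      · exact h2 h4
      · exact h1 h4
    · cases e
      · exact h1 h4
      · exact h2 h4
  -- the form of 2+2-free
  have hQ : ∀ a b c d, lt a b → lt d c → ¬ (lt a c ∨ lt c a) → ¬ (lt b d ∨ lt d b) → False := by
    intro a b c d h1 h2 h3 h4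
    rcases h22 a b d c h1 h2 with h5 | h5
    · exact h3 (Or.inl h5)
    · exact h4 (Or.inr h5)
  -- (m1)
  have hm1 : ∀ i, i + 3 ≤ 2 * k + 1 → ¬ (lt (p i) (p (i + 3)) ∨ lt (p (i + 3)) (p i)) := by
    intro i hi
    apply hnc (cc i)
    · exact m1a IH h i hi
    · intro hE
      have h1 := h.2.2 i (by omega)
      have h2 := h.2.2 (i + 1) (by omega)
      have h3 := h.2.2 (i + 2) (by omega)
      rw [show cc (i + 1) = !cc i from cc_flip (by omega)] at h2
      rw [show cc (i + 2) = cc i from cc_congr (by omega)] at h3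
      exact hAC _ _ _ _ _ h1 h2 h3 (hsymm _ _ _ hE)
  have hedge : ∀ i ≤ 2 * k, lt (p i) (p (i + 1)) ∨ lt (p (i + 1)) (p i) := fun i hi =>
    hcmpE _ _ _ (h.2.2 i hi)
  -- the orientations are periodic
  have hper : ∀ i, i + 3 ≤ 2 * k → (lt (p i) (p (i + 1)) ↔ lt (p (i + 3)) (p (i + 3 + 1))) := by
    intro i hi
    have h1 := hm1 i (by omega)
    have h2 := hm1 (i + 1) (by omega)
    rw [show i + 1 + 3 = i + 3 + 1 by ring] at h2
    constructor
    · intro h3
      rcases hedge (i + 3) hi with h4 | h4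
      · exact h4
      · exact (hQ _ _ _ _ h3 h4 h1 h2).elim
    · intro h3
      rcases hedge i (by omega) with h4 | h4
      · exact h4
      · exact (hQ _ _ _ _ h4 h3 h2 h1).elim
  have ho0 : lt (p 0) (p (0 + 1)) := by
    rcases hedge 0 (by omega) with h1 | h1
    · exact h1
    · rw [h.1] at h1
      exact (hirr _ (hmin _ _ h1)).elim
  have ho2 : lt (p (2 + 1)) (p 2) := by
    rcases hedge 2 (by omega) with h1 | h1
    · have h2 := hm1 0 (by omega)
      rw [h.1] at h2
      exact (h2 (Or.inl (hmin _ _ h1))).elim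
    · exact h1
  have hmod : ∀ i ≤ 2 * k, (i % 3 = 0 → lt (p i) (p (i + 1))) ∧
      (i % 3 = 2 → lt (p (i + 1)) (p i)) := by
    intro i
    induction i using Nat.strong_induction_on with
    | _ i ih =>
      intro hi
      by_cases h3 : i < 3
      · constructor
        · intro h4
          have : i = 0 := by omega
          subst this; exact ho0
        · intro h4
          have : i = 2 := by omega
          subst this; exact ho2
      · obtain ⟨j, rfl⟩ : ∃ j, i = j + 3 := ⟨i - 3, by omega⟩
        have h4 := ih j (by omega) (by omega)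
        have h5 := hper j hi
        constructor
        · intro h6
          exact h5.1 (h4.1 (by omega))
        · intro h6
          rcases hedge (j + 3) hi with h7 | h7
          · exact (hasymm _ _ (h5.2 h7) (h4.2 (by omega))).elim
          · exact h7
  -- names
  obtain ⟨n, rfl⟩ : ∃ n, k = n + 3 := ⟨k - 3, by omega⟩
  set c := cc n with hc
  have cc1 : cc (n + 1) = !c := cc_flip (by omega)
  have cc2 : cc (n + 2) = c := cc_congr (by omega)
  have cc3 : cc (n + 3) = !c := cc_flip (by omega)
  have cc4 : cc (n + 4) = c := cc_congr (by omega)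
  have cc5 : cc (n + 5) = !c := cc_flip (by omega)
  have cc6 : cc (n + 6) = c := cc_congr (by omega)
  have e0 := h.2.2 n (by omega)
  have e1 := h.2.2 (n + 1) (by omega)
  have e2 := h.2.2 (n + 2) (by omega)
  have e3 := h.2.2 (n + 3) (by omega)
  have e4 := h.2.2 (n + 4) (by omega)
  have e5 := h.2.2 (n + 5) (by omega)
  have e6 := h.2.2 (n + 6) (by omega)
  rw [← hc] at e0
  rw [cc1] at e1
  rw [cc2] at e2
  rw [cc3] at e3
  rw [cc4] at e4
  rw [cc5] at e5
  rw [cc6] at e6
  have o0 : lt (p n) (p (n + 1)) := (hper n (by omega)).2 ho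
  have o1 : lt (p (n + 1 + 1)) (p (n + 1)) := (hmod (n + 1) (by omega)).2 (by omega)
  have o2 : lt (p (n + 2)) (p (n + 2 + 1)) := (hmod (n + 2) (by omega)).1 (by omega)
  have o4 : lt (p (n + 4 + 1)) (p (n + 4)) := (hmod (n + 4) (by omega)).2 (by omega)
  have o5 : lt (p (n + 5)) (p (n + 5 + 1)) := (hmod (n + 5) (by omega)).1 (by omega)
  have o6 : lt (p (n + 6)) (p (n + 6 + 1)) := (hper (n + 3) (by omega)).1 ho
  have nyw : ¬ E (!c) (p (n + 1)) (p (n + 3)) := by
    rw [← cc1]
    exact m2 hsymm IH h (n + 1) (n + 3) (by omega) (by omega) (by omega)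
  have nxw' : ¬ E c (p n) (p (n + 4)) :=
    m2 hsymm IH h n (n + 4) (by omega) (by omega) (by omega)
  have ny'w' : ¬ E (!c) (p (n + 6)) (p (n + 4)) := by
    have := m2' hsymm IH h (n + 6) (n + 4) (by omega) (by omega) (by omega) (by omega)
    rwa [show cc (n + 6 - 1) = !c from cc_flip (by omega)] at this
  have nx'w : ¬ E c (p (n + 7)) (p (n + 3)) := by
    have := m2' hsymm IH h (n + 7) (n + 3) (by omega) (by omega) (by omega) (by omega)
    rwa [show cc (n + 7 - 1) = c from cc_congr (by omega)] at this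
  change E c (p n) (p (n + 1)) at e0
  change E (!c) (p (n + 1)) (p (n + 2)) at e1
  change E c (p (n + 2)) (p (n + 3)) at e2
  change E (!c) (p (n + 3)) (p (n + 4)) at e3
  change E c (p (n + 4)) (p (n + 5)) at e4
  change E (!c) (p (n + 5)) (p (n + 6)) at e5
  change E c (p (n + 6)) (p (n + 7)) at e6
  change lt (p (n + 2)) (p (n + 1)) at o1
  change lt (p (n + 2)) (p (n + 3)) at o2
  change lt (p (n + 3)) (p (n + 4)) at ho
  change lt (p (n + 5)) (p (n + 4)) at o4
  change lt (p (n + 5)) (p (n + 6)) at o5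
  change lt (p (n + 6)) (p (n + 7)) at o6
  generalize p n = x at *
  generalize p (n + 1) = y at *
  generalize p (n + 2) = z at *
  generalize p (n + 3) = w at *
  generalize p (n + 4) = w' at *
  generalize p (n + 5) = z' at *
  generalize p (n + 6) = y' at *
  generalize p (n + 7) = x' at *
  have hcc : (!(!c)) = c := Bool.not_not c
  have hAC' : ∀ a b d e, E (!c) a b → E c b d → E (!c) d e → ¬ E c e a := by
    intro a b d e h1 h2 h3 h4
    have := hAC (!c) a b d e
    rw [hcc] at this
    exact this h1 h2 h3 h4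
  -- (1)
  have h1 : E (!c) z w' := by
    have hz : lt z w' := htrans _ _ _ o2 ho
    by_contra hn
    have hE : E c z w' := by
      by_contra hn2
      exact hnc c z w' hn2 hn (Or.inl hz)
    have a1 : ¬ E c w y := hAC' y z w' w e1 hE (hsymm _ _ _ e3)
    have a2 : ¬ E (!c) w' x := hAC c x y z w' e0 e1 hE
    have b1 : ¬ (lt y w ∨ lt w y) := hnc c y w (fun h => a1 (hsymm _ _ _ h)) nyw
    have b2 : ¬ (lt x w' ∨ lt w' x) := hnc c x w' nxw' (fun h => a2 (hsymm _ _ _ h))
    exact hQ x y w' w o0 ho b2 b1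
  -- (2)
  have h2 : ¬ (lt z' w ∨ lt w z') := by
    apply hnc c
    · intro hE
      have a1 : ¬ E c w' y' := hAC' y' z' w w' (hsymm _ _ _ e5) hE e3
      have a2 : ¬ E (!c) w x' := hAC c x' y' z' w (hsymm _ _ _ e6) (hsymm _ _ _ e5) hE
      have b1 : ¬ (lt y' w' ∨ lt w' y') := hnc c y' w' (fun h => a1 (hsymm _ _ _ h)) ny'w'
      have b2 : ¬ (lt x' w ∨ lt w x') := hnc c x' w nx'w (fun h => a2 (hsymm _ _ _ h))
      exact hQ y' x' w' w o6 ho b1 b2
    · intro hE
      exact hAC c z w z' w' e2 (hsymm _ _ _ hE) (hsymm _ _ _ e4) (hsymm _ _ _ h1)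
  -- (3)
  have h3 : lt z y' := by
    rcases h22 z w z' y' o2 o5 with h | h
    · exact h
    · exact (h2 (Or.inl h)).elim
  have h3' : E (!c) z y' := by
    by_contra hn
    have a1 : ¬ E c y' z := hAC' z w' z' y' h1 e4 e5
    exact hnc c z y' (fun h => a1 (hsymm _ _ _ h)) hn (Or.inl h3)
  -- (4)
  have h4 : ¬ (lt y' w' ∨ lt w' y') := by
    have a1 : ¬ E c w' y' := hAC' y' z w w' (hsymm _ _ _ h3') e2 e3
    exact hnc c y' w' (fun h => a1 (hsymm _ _ _ h)) ny'w'
  -- (5)
  have h5 : ¬ (lt x' w ∨ lt w x') := by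
    have a1 : ¬ E (!c) w x' := hAC c x' y' z w (hsymm _ _ _ e6) (hsymm _ _ _ h3') e2
    exact hnc c x' w nx'w (fun h => a1 (hsymm _ _ _ h))
  exact hQ y' x' w' w o6 ho h4 h5

/-- TARGET. -/
theorem noOddWalk {α : Type*} (lt : α → α → Prop) (E : Bool → α → α → Prop)
    (hirr : ∀ a, ¬ lt a a) (htrans : ∀ a b c, lt a b → lt b c → lt a c)
    (h22 : ∀ a b c d, lt a b → lt c d → lt a d ∨ lt c b)
    (hsymm : ∀ e a b, E e a b → E e b a)
    (hdisj : ∀ a b, E true a b → ¬ E false a b)
    (hcomp : ∀ a b, (E true a b ∨ E false a b) ↔ (lt a b ∨ lt b a))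
    (hAC : ∀ e a b c d, E e a b → E (!e) b c → E e c d → ¬ E (!e) d a)
    (v0 : α) (hmin : ∀ a b, lt a b → lt v0 b)
    (hk1 : ∀ a b, E true v0 a → E true v0 b → ¬ E false a b)
    (k : ℕ) (p : ℕ → α) (hp0 : p 0 = v0) (hpk : p (2 * k + 1) = v0)
    (hp : ∀ i ≤ 2 * k, E (decide (i % 2 = 0)) (p i) (p (i + 1))) : False := by
  have key : ∀ k, ∀ p, ¬ Wk E v0 k p := by
    clear hp hpk hp0 p k
    intro k
    induction k using Nat.strong_induction_on with
    | _ k IH =>
      intro p h
      have hcmpE : ∀ e a b, E e a b → (lt a b ∨ lt b a) := by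
        intro e a b hE
        cases e
        · exact (hcomp a b).1 (Or.inr hE)
        · exact (hcomp a b).1 (Or.inl hE)
      have hnc : ∀ e a b, ¬ E e a b → ¬ E (!e) a b → ¬ (lt a b ∨ lt b a) := by
        intro e a b h1 h2 h3
        rcases (hcomp a b).2 h3 with h4 | h4
        · cases e
          · exact h2 h4
          · exact h1 h4
        · cases e
          · exact h1 h4
          · exact h2 h4
      have hm1 : ∀ i, i + 3 ≤ 2 * k + 1 → ¬ (lt (p i) (p (i + 3)) ∨ lt (p (i + 3)) (p i)) := by
        intro i hi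
        apply hnc (cc i)
        · exact m1a IH h i hi
        · intro hE
          have h1 := h.2.2 i (by omega)
          have h2 := h.2.2 (i + 1) (by omega)
          have h3 := h.2.2 (i + 2) (by omega)
          rw [show cc (i + 1) = !cc i from cc_flip (by omega)] at h2
          rw [show cc (i + 2) = cc i from cc_congr (by omega)] at h3
          exact hAC _ _ _ _ _ h1 h2 h3 (hsymm _ _ _ hE)
      have hedge : ∀ i ≤ 2 * k, lt (p i) (p (i + 1)) ∨ lt (p (i + 1)) (p i) := fun i hi =>
        hcmpE _ _ _ (h.2.2 i hi)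
      have hQ : ∀ a b c d, lt a b → lt d c → ¬ (lt a c ∨ lt c a) → ¬ (lt b d ∨ lt d b) → False := by
        intro a b c d h1 h2 h3 h4
        rcases h22 a b d c h1 h2 with h5 | h5
        · exact h3 (Or.inl h5)
        · exact h4 (Or.inr h5)
      have hasymm : ∀ a b, lt a b → ¬ lt b a := fun a b h1 h2 => hirr a (htrans _ _ _ h1 h2)
      have hper : ∀ i, i + 3 ≤ 2 * k →
          (lt (p i) (p (i + 1)) ↔ lt (p (i + 3)) (p (i + 3 + 1))) := by
        intro i hi
        have h1 := hm1 i (by omega)
        have h2 := hm1 (i + 1) (by omega)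
        rw [show i + 1 + 3 = i + 3 + 1 by ring] at h2
        constructor
        · intro h3
          rcases hedge (i + 3) hi with h4 | h4
          · exact h4
          · exact (hQ _ _ _ _ h3 h4 h1 h2).elim
        · intro h3
          rcases hedge i (by omega) with h4 | h4
          · exact h4
          · exact (hQ _ _ _ _ h4 h3 h2 h1).elim
      have ho0 : lt (p 0) (p (0 + 1)) := by
        rcases hedge 0 (by omega) with h1 | h1
        · exact h1
        · rw [h.1] at h1
          exact (hirr _ (hmin _ _ h1)).elim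
      have hoe : lt (p (2 * k + 1)) (p (2 * k)) := by
        rcases hedge (2 * k) (by omega) with h1 | h1
        · rw [h.2.1] at h1
          exact (hirr _ (hmin _ _ h1)).elim
        · exact h1
      rcases (by omega : k = 0 ∨ k = 1 ∨ 2 ≤ k) with h0 | h0 | h0
      · subst h0
        exact hasymm _ _ ho0 hoe
      · subst h0
        have h1 := h.2.2 0 (by omega)
        have h2 := h.2.2 1 (by omega)
        have h3 := h.2.2 2 (by omega)
        have e3 : p (2 + 1) = v0 := h.2.1
        rw [h.1] at h1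
        rw [e3] at h3
        exact hk1 (p 1) (p 2) h1 (hsymm _ _ _ h3) h2
      · have ho2 : lt (p (2 + 1)) (p 2) := by
          rcases hedge 2 (by omega) with h1 | h1
          · have h2 := hm1 0 (by omega)
            rw [h.1] at h2
            exact (h2 (Or.inl (hmin _ _ h1))).elim
          · exact h1
        have hoe2 : lt (p (2 * k - 2)) (p (2 * k - 2 + 1)) := by
          rcases hedge (2 * k - 2) (by omega) with h1 | h1
          · exact h1
          · have h2 := hm1 (2 * k - 2) (by omega)
            rw [show 2 * k - 2 + 3 = 2 * k + 1 by omega, h.2.1] at h2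
            exact (h2 (Or.inr (hmin _ _ h1))).elim
        have hmod : ∀ i ≤ 2 * k, (i % 3 = 0 → lt (p i) (p (i + 1))) ∧
            (i % 3 = 2 → lt (p (i + 1)) (p i)) := by
          intro i
          induction i using Nat.strong_induction_on with
          | _ i ih =>
            intro hi
            by_cases h3 : i < 3
            · constructor
              · intro h4
                have : i = 0 := by omega
                subst this; exact ho0
              · intro h4
                have : i = 2 := by omega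
                subst this; exact ho2
            · obtain ⟨j, rfl⟩ : ∃ j, i = j + 3 := ⟨i - 3, by omega⟩
              have h4 := ih j (by omega) (by omega)
              have h5 := hper j hi
              constructor
              · intro h6
                exact h5.1 (h4.1 (by omega))
              · intro h6
                rcases hedge (j + 3) hi with h7 | h7
                · exact (hasymm _ _ (h5.2 h7) (h4.2 (by omega))).elim
                · exact h7
        have hk3 : k % 3 = 1 := by
          by_contra hne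
          rcases (by omega : (2 * k) % 3 = 0 ∨ (2 * k) % 3 = 1) with h1 | h1
          · exact hasymm _ _ ((hmod (2 * k) le_rfl).1 h1) hoe
          · exact hasymm _ _ hoe2 ((hmod (2 * k - 2) (by omega)).2 (by omega))
        have hk4 : 4 ≤ k := by omega
        rcases hedge k (by omega) with h1 | h1
        · exact core lt E hirr htrans h22 hsymm hcomp hAC v0 hmin k p IH h hk4 hk3 h1
        · refine core lt E hirr htrans h22 hsymm hcomp hAC v0 hmin k _ IH (h.rev hsymm) hk4 hk3 ?_
          show lt (p (2 * k + 1 - k)) (p (2 * k + 1 - (k + 1)))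
          rw [show 2 * k + 1 - k = k + 1 by omega, show 2 * k + 1 - (k + 1) = k by omega]
          exact h1
  exact key k p ⟨hp0, hpk, hp⟩

end H257R5.W
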