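import Mathlib
import Pool.Agent.H257R5.Six.Walk
set_option autoImplicit false

/-! Part of the proof that `c(4,3,2) ≤ 6` (MP_8fca14_co).  Plan: helper257; this file: helper748. -/
namespace H257R5.S
open H257R5.W


/-- alternating walk of length `n` from `v0` to `u` -/
def Wk {α : Type*} (E : Bool → α → α → Prop) (v0 : α) (n : ℕ) (u : α) : Prop :=
  ∃ p : ℕ → α, p 0 = v0 ∧ p n = u ∧ ∀ i < n, E (decide (i % 2 = 0)) (p i) (p (i + 1))

theorem Wk.ext {α : Type*} {E : Bool → α → α → Prop} {v0 : α} {n : ℕ} {u w : α}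
    (h : Wk E v0 n u) (he : E (decide (n % 2 = 0)) u w) : Wk E v0 (n + 1) w := by
  obtain ⟨p, h0, hn, hp⟩ := h
  refine ⟨fun i => if i ≤ n then p i else w, ?_, ?_, ?_⟩
  · simp [h0]
  · simp
  · intro i hi
    have hi' : i ≤ n := Nat.lt_succ_iff.1 hi
    rcases Nat.lt_or_ge i n with h1 | h1
    · have h2 : i + 1 ≤ n := h1
      simp only [if_pos hi', if_pos h2]
      exact hp i h1
    · have h2 : i = n := le_antisymm hi' h1
      subst h2
      have h3 : ¬ (i + 1 ≤ i) := by omega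
      simp only [le_refl, if_true, if_neg h3]
      rw [hn]
      exact he

theorem wk_parity {α : Type*} (lt : α → α → Prop) (E : Bool → α → α → Prop)
    (hirr : ∀ a, ¬ lt a a) (htrans : ∀ a b c, lt a b → lt b c → lt a c)
    (h22 : ∀ a b c d, lt a b → lt c d → lt a d ∨ lt c b)
    (hsymm : ∀ e a b, E e a b → E e b a)
    (hdisj : ∀ a b, E true a b → ¬ E false a b)
    (hcomp : ∀ a b, (E true a b ∨ E false a b) ↔ (lt a b ∨ lt b a))
    (hAC : ∀ e a b c d, E e a b → E (!e) b c → E e c d → ¬ E (!e) d a)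
    (v0 : α) (hmin : ∀ a b, lt a b → lt v0 b)
    (hk1 : ∀ a b, E true v0 a → E true v0 b → ¬ E false a b)
    {n n' : ℕ} {u : α} (h : Wk E v0 n u) (h' : Wk E v0 n' u) : (n + n') % 2 = 0 := by
  by_contra hodd
  obtain ⟨k, hk⟩ : ∃ k, n + n' = 2 * k + 1 := ⟨(n + n') / 2, by omega⟩
  obtain ⟨p, h0, hn, hp⟩ := h
  obtain ⟨p', h0', hn', hp'⟩ := h'
  refine noOddWalk lt E hirr htrans h22 hsymm hdisj hcomp hAC v0 hmin hk1 k
    (fun i => if i ≤ n then p i else p' (n + n' - i)) ?_ ?_ ?_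
  · simp [h0]
  · by_cases h1 : 2 * k + 1 ≤ n
    · have h2 : n' = 0 := by omega
      have h3 : 2 * k + 1 = n := by omega
      simp only [if_pos h1]
      rw [h3, hn, ← hn', h2, h0']
    · simp only [if_neg h1]
      rw [hk, Nat.sub_self, h0']
  · intro i hi
    by_cases h1 : i + 1 ≤ n
    · have h2 : i ≤ n := by omega
      simp only [if_pos h1, if_pos h2]
      exact hp i h1
    · have h2 : n ≤ i := by omega
      have h3 : (if i ≤ n then p i else p' (n + n' - i)) = p' (n + n' - i) := by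
        by_cases h4 : i ≤ n
        · have h5 : i = n := le_antisymm h4 h2
          rw [if_pos h4, h5, hn, Nat.add_sub_cancel_left, hn']
        · rw [if_neg h4]
      simp only [h3, if_neg h1]
      have h4 := hp' (n + n' - (i + 1)) (by omega)
      have h5 : n + n' - (i + 1) + 1 = n + n' - i := by omega
      rw [h5] at h4
      have h6 : decide ((n + n' - (i + 1)) % 2 = 0) = decide (i % 2 = 0) := by
        congr 1
        apply propext
        constructor
        · intro h7; omega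
        · intro h7; omega
      rw [h6] at h4
      exact hsymm _ _ _ h4

section Step
variable {α : Type*} [Finite α] (l r : α → ℝ) (hlr : ∀ i, l i ≤ r i)
    (dj : α → α → Prop) (hdj : ∀ i j, dj i j ↔ (r i < l j ∨ r j < l i))

/-- splitting of `T` -/
def Spl (dj c : α → α → Prop) (T : Set α) : Prop :=
  ∃ S : α → Prop, (∀ i ∈ T, ∀ j ∈ T, dj i j → S i → S j → c i j) ∧
    (∀ i ∈ T, ∀ j ∈ T, dj i j → ¬ S i → ¬ S j → ¬ c i j)

theorem Spl.neg {dj c : α → α → Prop} {T : Set α} (h : Spl dj (fun i j => ¬ c i j) T) :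
    Spl dj c T := by
  obtain ⟨S, h1, h2⟩ := h
  refine ⟨fun i => ¬ S i, fun i hi j hj hd hi' hj' => ?_, fun i hi j hj hd hi' hj' => ?_⟩
  · exact not_not.1 (h2 i hi j hj hd hi' hj')
  · exact h1 i hi j hj hd (not_not.1 hi') (not_not.1 hj')

include hlr hdj in
theorem stepA (c : α → α → Prop) (hc : ∀ i j, c i j ↔ c j i)
    (hAC : ∀ i j k m, dj i j → dj j k → dj k m → dj m i → c i j → ¬ c j k → c k m → c m i)
    (T : Set α) (v0 : α) (hv0 : v0 ∈ T) (hmin : ∀ a ∈ T, r v0 ≤ r a)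
    (hA : ∀ a ∈ T, ∀ b ∈ T, dj v0 a → ¬ c v0 a → dj v0 b → ¬ c v0 b → dj a b → ¬ c a b)
    (IH : ∀ T' : Set α, T' ⊂ T → Spl dj c T') : Spl dj c T := by
  classical
  have hds : ∀ i j, dj i j → dj j i := by
    intro i j h
    rw [hdj] at h ⊢
    exact h.symm
  let E : Bool → T → T → Prop := fun e a b => dj a b ∧ (if e then ¬ c a b else c a b)
  have hR : ∀ a b : T, E true a b ↔ dj a b ∧ ¬ c a b := fun a b => by simp [E]
  have hL : ∀ a b : T, E false a b ↔ dj a b ∧ c a b := fun a b => by simp [E]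
  have par : ∀ {n n' : ℕ} {u : T}, Wk E ⟨v0, hv0⟩ n u → Wk E ⟨v0, hv0⟩ n' u →
      (n + n') % 2 = 0 := by
    intro n n' u
    refine wk_parity (fun a b : T => r a < l b) E ?_ ?_ ?_ ?_ ?_ ?_ ?_ _ ?_ ?_
    · intro a h
      have := hlr a
      linarith
    · intro a b d h1 h2
      have := hlr b
      linarith
    · intro a b d e h1 h2
      by_contra h
      push Not at h
      linarith [h.1, h.2]
    · intro e a b h
      rcases e with _ | _
      · rw [hL] at h ⊢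
        exact ⟨hds _ _ h.1, (hc _ _).1 h.2⟩
      · rw [hR] at h ⊢
        exact ⟨hds _ _ h.1, fun h' => h.2 ((hc _ _).1 h')⟩
    · intro a b h1 h2
      rw [hR] at h1
      rw [hL] at h2
      exact h1.2 h2.2
    · intro a b
      rw [hR, hL, ← hdj]
      by_cases h : c a b <;> simp [h]
    · intro e a b d f h1 h2 h3 h4
      rcases e with _ | _
      · rw [Bool.not_false] at h2 h4
        rw [hL] at h1 h3
        rw [hR] at h2 h4
        exact h4.2 (hAC _ _ _ _ h1.1 h2.1 h3.1 h4.1 h1.2 h2.2 h3.2)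
      · rw [Bool.not_true] at h2 h4
        rw [hR] at h1 h3
        rw [hL] at h2 h4
        exact h3.2 (hAC _ _ _ _ h4.1 h1.1 h2.1 h3.1 h4.2 h1.2 h2.2)
    · intro a b h
      have := hmin a a.2
      exact lt_of_le_of_lt this h
    · intro a b h1 h2 h3
      rw [hR] at h1 h2
      rw [hL] at h3
      exact hA a a.2 b b.2 h1.1 h1.2 h2.1 h2.2 h3.1 h3.2
  let FA : α → Prop := fun x => ∃ hx : x ∈ T, ∃ m, Wk E ⟨v0, hv0⟩ (2 * m) ⟨x, hx⟩
  let FB : α → Prop := fun x => ∃ hx : x ∈ T, ∃ m, Wk E ⟨v0, hv0⟩ (2 * m + 1) ⟨x, hx⟩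
  have hAB : ∀ x, FA x → ¬ FB x := by
    rintro x ⟨hx, m, h1⟩ ⟨_, m', h2⟩
    have := par h1 h2
    omega
  have hAR : ∀ x y, FA x → y ∈ T → dj x y → ¬ c x y → FB y := by
    rintro x y ⟨hx, m, h1⟩ hy h2 h3
    refine ⟨hy, m, h1.ext ?_⟩
    have : decide (2 * m % 2 = 0) = true := by simp
    rw [this]
    exact (hR _ _).2 ⟨h2, h3⟩
  have hBL : ∀ x y, FB x → y ∈ T → dj x y → c x y → FA y := by
    rintro x y ⟨hx, m, h1⟩ hy h2 h3
    refine ⟨hy, m + 1, h1.ext ?_⟩
    have : decide ((2 * m + 1) % 2 = 0) = false := by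
      rw [decide_eq_false_iff_not]; omega
    rw [this]
    exact (hL _ _).2 ⟨h2, h3⟩
  have hv0A : FA v0 := ⟨hv0, 0, fun _ => ⟨v0, hv0⟩, rfl, rfl, fun i hi => absurd hi (by omega)⟩
  obtain ⟨S', hS1, hS2⟩ := IH {x | x ∈ T ∧ ¬ FA x ∧ ¬ FB x}
    ⟨fun x hx => hx.1, fun h => (h hv0).2.1 hv0A⟩
  refine ⟨fun x => FA x ∨ (S' x ∧ ¬ FB x), ?_, ?_⟩
  · intro i hi j hj hd hSi hSj
    by_contra hcij
    have hB : ∀ x, (FA x ∨ (S' x ∧ ¬ FB x)) → ¬ FB x := by
      rintro x (h | h)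
      · exact hAB x h
      · exact h.2
    have hiA : ¬ FA i := fun h => hB j hSj (hAR i j h hj hd hcij)
    have hjA : ¬ FA j := fun h => hB i hSi (hAR j i h hi (hds _ _ hd)
      (fun h' => hcij ((hc _ _).1 h')))
    exact hcij (hS1 i ⟨hi, hiA, hB i hSi⟩ j ⟨hj, hjA, hB j hSj⟩ hd
      (hSi.resolve_left hiA).1 (hSj.resolve_left hjA).1)
  · intro i hi j hj hd hSi hSj hcij
    rw [not_or, not_and_or, not_not] at hSi hSj
    have hiB : ¬ FB i := fun h => hSj.1 (hBL i j h hj hd hcij)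
    have hjB : ¬ FB j := fun h => hSi.1 (hBL j i h hi (hds _ _ hd) ((hc _ _).1 hcij))
    exact hS2 i ⟨hi, hSi.1, hiB⟩ j ⟨hj, hSj.1, hjB⟩ hd (hSi.2.resolve_right hiB)
      (hSj.2.resolve_right hjB) hcij

include hlr hdj in
theorem spl_all (c : α → α → Prop) (hc : ∀ i j, c i j ↔ c j i)
    (hAC : ∀ i j k m, dj i j → dj j k → dj k m → dj m i → c i j → ¬ c j k → c k m → c m i)
    (T : Set α) : Spl dj c T := by
  classical
  have hds : ∀ i j, dj i j → dj j i := by
    intro i j h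
    rw [hdj] at h ⊢
    exact h.symm
  have hc' : ∀ i j, (¬ c i j) ↔ ¬ c j i := fun i j => not_congr (hc i j)
  have hAC' : ∀ i j k m, dj i j → dj j k → dj k m → dj m i → ¬ c i j → ¬ ¬ c j k → ¬ c k m →
      ¬ c m i := by
    intro i j k m h1 h2 h3 h4 h5 h6 h7 h8
    exact h5 (hAC j k m i h2 h3 h4 h1 (not_not.1 h6) h7 h8)
  have hpair : ∀ v x x' y y' : α, dj v x → ¬ c v x → dj v x' → ¬ c v x' → dj x' x → c x' x →
      dj v y → c v y → dj v y' → c v y' → dj y y' → ¬ c y y' → ¬ dj x y := by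
    intro v x x' y y' h1 h2 h3 h4 h5 h6 h7 h8 h9 h10 h11 h12 h13
    by_cases h : c x y
    · exact h2 (hAC x y y' v h13 h11 (hds _ _ h9) h1 h h12 ((hc _ _).1 h10))
    · exact h (hAC y v x' x (hds _ _ h7) h3 h5 h13 ((hc _ _).1 h8) h4 h6)
  generalize hn : T.ncard = n
  induction n using Nat.strong_induction_on generalizing T with
  | _ n ih =>
    have IH : ∀ T' : Set α, T' ⊂ T → Spl dj c T' := fun T' hT' =>
      ih _ (by rw [← hn]; exact Set.ncard_lt_ncard hT' T.toFinite) T' rfl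
    rcases T.eq_empty_or_nonempty with hT | hT
    · subst hT
      exact ⟨fun _ => True, fun i hi => absurd hi (Set.notMem_empty _),
        fun i hi => absurd hi (Set.notMem_empty _)⟩
    · obtain ⟨v0, hv0, hmin⟩ := Set.exists_min_image T r T.toFinite hT
      by_cases hA : ∀ a ∈ T, ∀ b ∈ T, dj v0 a → ¬ c v0 a → dj v0 b → ¬ c v0 b → dj a b → ¬ c a b
      · exact stepA l r hlr dj hdj c hc hAC T v0 hv0 hmin hA IH
      · by_cases hB : ∀ a ∈ T, ∀ b ∈ T, dj v0 a → ¬ ¬ c v0 a → dj v0 b → ¬ ¬ c v0 b → dj a b →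
            ¬ ¬ c a b
        · refine Spl.neg (stepA l r hlr dj hdj (fun i j => ¬ c i j) hc' hAC' T v0 hv0 hmin hB ?_)
          intro T' hT'
          obtain ⟨S, h1, h2⟩ := IH T' hT'
          exact ⟨fun i => ¬ S i, h2, fun i hi j hj hd hi' hj' =>
            not_not.2 (h1 i hi j hj hd (not_not.1 hi') (not_not.1 hj'))⟩
        · exfalso
          push Not at hA hB
          obtain ⟨x1, _, x2, _, a1, a2, a3, a4, a5, a6⟩ := hA
          obtain ⟨y1, _, y2, _, b1, b2, b3, b4, b5, b6⟩ := hB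
          have a5' := hds _ _ a5
          have a6' := (hc _ _).1 a6
          have b5' := hds _ _ b5
          have b6' : ¬ c y2 y1 := fun h => b6 ((hc _ _).1 h)
          have k11 := hpair v0 x1 x2 y1 y2 a1 a2 a3 a4 a5' a6' b1 b2 b3 b4 b5 b6
          have k12 := hpair v0 x1 x2 y2 y1 a1 a2 a3 a4 a5' a6' b3 b4 b1 b2 b5' b6'
          have k21 := hpair v0 x2 x1 y1 y2 a3 a4 a1 a2 a5 a6 b1 b2 b3 b4 b5 b6
          have k22 := hpair v0 x2 x1 y2 y1 a3 a4 a1 a2 a5 a6 b3 b4 b1 b2 b5' b6'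
          rw [hdj] at k11 k12 k21 k22 a5 b5
          push Not at k11 k12 k21 k22
          rcases a5 with a5 | a5 <;> rcases b5 with b5 | b5 <;>
            linarith [k11.1, k11.2, k12.1, k12.2, k21.1, k21.2, k22.1, k22.2]

end Step

/-- TARGET. -/
theorem splitting {α : Type*} [Finite α] (l r : α → ℝ) (hlr : ∀ i, l i ≤ r i)
    (dj : α → α → Prop) (hdj : ∀ i j, dj i j ↔ (r i < l j ∨ r j < l i))
    (c : α → α → Prop) (hc : ∀ i j, c i j ↔ c j i)
    (hAC : ∀ i j k m, dj i j → dj j k → dj k m → dj m i → c i j → ¬ c j k → c k m → c m i) :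
    ∃ S : α → Prop, (∀ i j, dj i j → S i → S j → c i j) ∧ (∀ i j, dj i j → ¬ S i → ¬ S j → ¬ c i j) := by
  obtain ⟨S, h1, h2⟩ := spl_all l r hlr dj hdj c hc hAC Set.univ
  exact ⟨S, fun i j => h1 i (Set.mem_univ _) j (Set.mem_univ _),
    fun i j => h2 i (Set.mem_univ _) j (Set.mem_univ _)⟩

end H257R5.S
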