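import Mathlib
import Pool.Agent.H257R5.Six.Split
import Pool.Agent.H257R5.Six.Finish
import Pool.Agent.H257R5.Six.Equi
set_option autoImplicit false

/-! Part of the proof that `c(4,3,2) ≤ 6` (MP_8fca14_co).  Plan: helper257; this file: helper988. -/
namespace H257R5.T
open H257R5.S H257R5.F H257R5.E


/-- TARGET. -/
theorem AT {α : Type*} [Fintype α] (l r : α → ℝ) (hlr : ∀ i, l i ≤ r i)
    (Kp Km : α → Set (EuclideanSpace ℝ (Fin 2)))
    (hKp : ∀ i, (Kp i).Nonempty ∧ Convex ℝ (Kp i) ∧ IsCompact (Kp i))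
    (hKm : ∀ i, (Km i).Nonempty ∧ Convex ℝ (Km i) ∧ IsCompact (Km i))
    (dj : α → α → Prop) (hdj : ∀ i j, dj i j ↔ (r i < l j ∨ r j < l i))
    (c : α → α → Prop) (hc : ∀ i j, c i j ↔ c j i)
    (hL : ∀ i j k, dj i j → dj j k → dj i k → c i j → c j k → c i k → ∃ y, y ∈ Kp i ∧ y ∈ Kp j ∧ y ∈ Kp k)
    (hR : ∀ i j k, dj i j → dj j k → dj i k → ¬ c i j → ¬ c j k → ¬ c i k → ∃ y, y ∈ Km i ∧ y ∈ Km j ∧ y ∈ Km k)
    (hAC : ∀ i j k m, dj i j → dj j k → dj k m → dj m i → c i j → ¬ c j k → c k m → c m i) :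
    ∃ a : Fin 3 → ℝ, ∃ qp qm : EuclideanSpace ℝ (Fin 2),
      ∀ i, (∃ t, l i ≤ a t ∧ a t ≤ r i) ∨ qp ∈ Kp i ∨ qm ∈ Km i := by
  obtain ⟨S, hS1, hS2⟩ := splitting l r hlr dj hdj c hc hAC
  rcases equilibrium l r hlr Kp Km hKp hKm S with h | h
  · exact h
  exfalso
  obtain ⟨gap, w, W, qp, qm, pp, pm, hW, hw, hgap, hsep, hne, hpp, hpm, hsum1, hsum2⟩ := h
  have hdis : ∀ i j, 0 < w i → 0 < w j → gap i ≠ gap j → dj i j := by
    intro i j hi hj hg
    rcases lt_or_gt_of_ne hg with h | h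
    · exact (hdj i j).2 (Or.inl (hsep i j hi hj h))
    · exact (hdj i j).2 (Or.inr (hsep j i hj hi h))
  -- coordinates
  have key : ∀ (p q y : EuclideanSpace ℝ (Fin 2)), p ≠ q → inner ℝ (q - p) (y - p) ≤ 0 →
      0 < (y - q) 0 * ((p - q) 0 / ‖p - q‖) + (y - q) 1 * ((p - q) 1 / ‖p - q‖) := by
    intro p q y hpq hin
    have hn : 0 < ‖p - q‖ := norm_pos_iff.2 (sub_ne_zero.2 hpq)
    have h1 : inner ℝ (y - q) (p - q) = inner ℝ (y - p) (p - q) + ‖p - q‖ ^ 2 := by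
      have : y - q = (y - p) + (p - q) := by abel
      rw [this, inner_add_left, real_inner_self_eq_norm_sq]
    have h2 : inner ℝ (y - p) (p - q) = - inner ℝ (q - p) (y - p) := by
      rw [real_inner_comm, ← inner_neg_left]
      congr 1
      abel
    have h3 : 0 < inner ℝ (y - q) (p - q) := by
      rw [h1, h2]
      have : 0 < ‖p - q‖ ^ 2 := by positivity
      linarith
    have h4 : inner ℝ (y - q) (p - q) = (y - q) 0 * (p - q) 0 + (y - q) 1 * (p - q) 1 := by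
      rw [PiLp.inner_apply]
      simp [Fin.sum_univ_two, mul_comm]
    have h5 : (y - q) 0 * ((p - q) 0 / ‖p - q‖) + (y - q) 1 * ((p - q) 1 / ‖p - q‖)
        = inner ℝ (y - q) (p - q) / ‖p - q‖ := by
      rw [h4]; ring
    rw [h5]
    exact div_pos h3 hn
  have unit : ∀ (p q : EuclideanSpace ℝ (Fin 2)), p ≠ q →
      ((p - q) 0 / ‖p - q‖) ^ 2 + ((p - q) 1 / ‖p - q‖) ^ 2 = 1 := by
    intro p q hpq
    have hn : 0 < ‖p - q‖ := norm_pos_iff.2 (sub_ne_zero.2 hpq)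
    have h1 : ‖p - q‖ ^ 2 = (p - q) 0 ^ 2 + (p - q) 1 ^ 2 := by
      rw [EuclideanSpace.norm_sq_eq]
      simp [Fin.sum_univ_two]
    have h2 : ‖p - q‖ ^ 2 ≠ 0 := by positivity
    rw [div_pow, div_pow, ← add_div, ← h1, div_self h2]
  have coord : ∀ (T : α → Prop) (_ : DecidablePred T) (p : α → EuclideanSpace ℝ (Fin 2)) (q : EuclideanSpace ℝ (Fin 2))
      (t : Fin 2), (∑ i with T i, (w i / ‖p i - q‖) • (p i - q) = 0) →
      ∑ i with T i, w i * ((p i - q) t / ‖p i - q‖) = 0 := by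
    intro T _ p q t h
    have h1 : (∑ i with T i, (w i / ‖p i - q‖) • (p i - q)) t = 0 := by rw [h]; rfl
    rw [← h1]
    rw [show (∑ i with T i, (w i / ‖p i - q‖) • (p i - q)) t =
      ∑ i with T i, ((w i / ‖p i - q‖) • (p i - q)) t by
        simp [WithLp.ofLp_sum]]
    refine Finset.sum_congr rfl fun i _ => ?_
    simp only [PiLp.smul_apply, smul_eq_mul]
    ring
  refine finish c hc S gap w W hW hw hgap
    (fun i => (pp i - qp) 0 / ‖pp i - qp‖) (fun i => (pp i - qp) 1 / ‖pp i - qp‖)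
    (fun i => (pm i - qm) 0 / ‖pm i - qm‖) (fun i => (pm i - qm) 1 / ‖pm i - qm‖)
    (fun i hi => unit _ _ (hne i hi).1) (fun i hi => unit _ _ (hne i hi).2)
    (fun i j hi hj hg => hS1 i j (hdis i j hi hj hg))
    (fun i j hi hj hg => hS2 i j (hdis i j hi hj hg))
    (fun i j k m hi hj hk hm g1 g2 g3 g4 => hAC i j k m (hdis i j hi hj g1) (hdis j k hj hk g2)
      (hdis k m hk hm g3) (hdis m i hm hi g4))
    ?_ ?_ (coord S _ pp qp 0 hsum1) (coord S _ pp qp 1 hsum1)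
    (coord (fun i => ¬ S i) _ pm qm 0 hsum2) (coord (fun i => ¬ S i) _ pm qm 1 hsum2)
  · intro i j k hi hj hk g1 g2 g3 c1 c2 c3
    obtain ⟨y, y1, y2, y3⟩ := hL i j k (hdis i j hi hj g1) (hdis j k hj hk g2)
      (hdis i k hi hk g3) c1 c2 c3
    exact ⟨(y - qp) 0, (y - qp) 1, key _ _ _ (hne i hi).1 ((hpp i).2 y y1),
      key _ _ _ (hne j hj).1 ((hpp j).2 y y2), key _ _ _ (hne k hk).1 ((hpp k).2 y y3)⟩
  · intro i j k hi hj hk g1 g2 g3 c1 c2 c3
    obtain ⟨y, y1, y2, y3⟩ := hR i j k (hdis i j hi hj g1) (hdis j k hj hk g2)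
      (hdis i k hi hk g3) c1 c2 c3
    exact ⟨(y - qm) 0, (y - qm) 1, key _ _ _ (hne i hi).2 ((hpm i).2 y y1),
      key _ _ _ (hne j hj).2 ((hpm j).2 y y2), key _ _ _ (hne k hk).2 ((hpm k).2 y y3)⟩
end H257R5.T
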