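import Mathlib
import Pool.Agent.H257R5.Six.AT
set_option autoImplicit false

/-! Part of the proof that `c(4,3,2) ≤ 6` (MP_8fca14_co).  Plan: helper257; this file: helper699. -/
namespace H257R5.B
open H257R5.T


/-- a subset with three elements of a set with four elements misses at most one -/
theorem two_of {ι : Type*} [DecidableEq ι] {s t : Finset ι} (hs : s.card = 4) (hts : t ⊆ s)
    (ht : t.card = 3) {p q : ι} (hp : p ∈ s) (hq : q ∈ s) (hpq : p ≠ q) : p ∈ t ∨ q ∈ t := by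
  by_contra hcon
  rw [not_or] at hcon
  have h1 : t ⊆ (s.erase p).erase q := by
    intro x hx
    refine Finset.mem_erase.2 ⟨?_, Finset.mem_erase.2 ⟨?_, hts hx⟩⟩
    · rintro rfl; exact hcon.2 hx
    · rintro rfl; exact hcon.1 hx
  have h2 := Finset.card_le_card h1
  rw [Finset.card_erase_of_mem (Finset.mem_erase.2 ⟨hpq.symm, hq⟩), Finset.card_erase_of_mem hp]
    at h2
  omega

theorem card4 {ι : Type*} [DecidableEq ι] {a b c d : ι} (hab : a ≠ b) (hac : a ≠ c) (had : a ≠ d)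
    (hbc : b ≠ c) (hbd : b ≠ d) (hcd : c ≠ d) : ({a, b, c, d} : Finset ι).card = 4 := by
  rw [Finset.card_insert_of_notMem, Finset.card_insert_of_notMem, Finset.card_insert_of_notMem,
    Finset.card_singleton]
  all_goals simp_all

/-- Helly's theorem for four sets in the plane -/
theorem helly4 {ι : Type*} [DecidableEq ι] (K : ι → Set (EuclideanSpace ℝ (Fin 2)))
    (hK : ∀ i, Convex ℝ (K i)) {a b c d : ι} (hab : a ≠ b) (hac : a ≠ c) (had : a ≠ d)
    (hbc : b ≠ c) (hbd : b ≠ d) (hcd : c ≠ d)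
    (h1 : ∃ x, x ∈ K b ∧ x ∈ K c ∧ x ∈ K d) (h2 : ∃ x, x ∈ K a ∧ x ∈ K c ∧ x ∈ K d)
    (h3 : ∃ x, x ∈ K a ∧ x ∈ K b ∧ x ∈ K d) (h4 : ∃ x, x ∈ K a ∧ x ∈ K b ∧ x ∈ K c) :
    ∃ x, x ∈ K a ∧ x ∈ K b ∧ x ∈ K c ∧ x ∈ K d := by
  have hc4 := card4 hab hac had hbc hbd hcd
  have hfr : Module.finrank ℝ (EuclideanSpace ℝ (Fin 2)) = 2 := by simp
  have key := Convex.helly_theorem (𝕜 := ℝ) (F := K) (s := ({a, b, c, d} : Finset ι))
    (by rw [hc4, hfr]; norm_num) (fun i _ => hK i) (by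
      intro I hI hI3
      rw [hfr] at hI3
      have hne : ∃ p ∈ ({a, b, c, d} : Finset ι), p ∉ I := by
        by_contra hcon
        push Not at hcon
        have := Finset.card_le_card (show ({a, b, c, d} : Finset ι) ⊆ I from hcon)
        omega
      obtain ⟨p, hp, hpI⟩ := hne
      simp only [Finset.mem_insert, Finset.mem_singleton] at hp
      have hI' : ∀ i ∈ I, i = a ∨ i = b ∨ i = c ∨ i = d := by
        intro i hi
        have := hI hi
        simpa using this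
      rcases hp with rfl | rfl | rfl | rfl
      · obtain ⟨x, hb, hc, hd⟩ := h1
        refine ⟨x, Set.mem_iInter₂.2 fun i hi => ?_⟩
        rcases hI' i hi with rfl | rfl | rfl | rfl
        · exact absurd hi hpI
        · exact hb
        · exact hc
        · exact hd
      · obtain ⟨x, ha, hc, hd⟩ := h2
        refine ⟨x, Set.mem_iInter₂.2 fun i hi => ?_⟩
        rcases hI' i hi with rfl | rfl | rfl | rfl
        · exact ha
        · exact absurd hi hpI
        · exact hc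
        · exact hd
      · obtain ⟨x, ha, hb, hd⟩ := h3
        refine ⟨x, Set.mem_iInter₂.2 fun i hi => ?_⟩
        rcases hI' i hi with rfl | rfl | rfl | rfl
        · exact ha
        · exact hb
        · exact absurd hi hpI
        · exact hd
      · obtain ⟨x, ha, hb, hc⟩ := h4
        refine ⟨x, Set.mem_iInter₂.2 fun i hi => ?_⟩
        rcases hI' i hi with rfl | rfl | rfl | rfl
        · exact ha
        · exact hb
        · exact hc
        · exact absurd hi hpI)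
  obtain ⟨x, hx⟩ := key
  rw [Set.mem_iInter₂] at hx
  exact ⟨x, hx a (by simp), hx b (by simp), hx c (by simp), hx d (by simp)⟩

/-- TARGET. -/
theorem thmB {ι : Type*} [Fintype ι] [DecidableEq ι] (K : ι → Set (EuclideanSpace ℝ (Fin 2)))
    (hK : ∀ i, (K i).Nonempty ∧ Convex ℝ (K i) ∧ IsCompact (K i))
    (h43 : ∀ s : Finset ι, s.card = 4 → ∃ t ⊆ s, t.card = 3 ∧ ∃ x, ∀ i ∈ t, x ∈ K i)
    (A B : ι) (hAB : Disjoint (K A) (K B))
    (hA : ∀ i, i ≠ B → (K i ∩ K A).Nonempty) (hB : ∀ i, i ≠ A → (K i ∩ K B).Nonempty) :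
    ∃ P : Finset (EuclideanSpace ℝ (Fin 2)), P.card ≤ 5 ∧ ∀ i, ∃ x ∈ P, x ∈ K i := by
  classical
  have hne : ∀ i, (K i).Nonempty := fun i => (hK i).1
  have hcv : ∀ i, Convex ℝ (K i) := fun i => (hK i).2.1
  have hcp : ∀ i, IsCompact (K i) := fun i => (hK i).2.2
  have hABne : A ≠ B := by
    rintro rfl
    obtain ⟨x, hx⟩ := hne A
    exact Set.disjoint_left.1 hAB hx hx
  obtain ⟨f, u, v, hfA, huv, hfB'⟩ := geometric_hahn_banach_compact_closed (hcv A) (hcp A) (hcv B)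
    (hcp B).isClosed hAB
  have hfB : ∀ x ∈ K B, u < f x := fun x hx => huv.trans (hfB' x hx)
  -- coordinates of `f`
  set g := (InnerProductSpace.toDual ℝ (EuclideanSpace ℝ (Fin 2))).symm f with hg
  have hf : ∀ x, f x = g 0 * x 0 + g 1 * x 1 := by
    intro x
    rw [← InnerProductSpace.toDual_symm_apply, ← hg, PiLp.inner_apply, Fin.sum_univ_two]
    simp [mul_comm]
  set n : ℝ := g 0 ^ 2 + g 1 ^ 2 with hn
  have hnpos : 0 < n := by
    rcases (by positivity : 0 ≤ n).lt_or_eq with h | h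
    · exact h
    · exfalso
      have h0 : g 0 = 0 := by nlinarith [sq_nonneg (g 0), sq_nonneg (g 1)]
      have h1 : g 1 = 0 := by nlinarith [sq_nonneg (g 0), sq_nonneg (g 1)]
      obtain ⟨x, hx⟩ := hne A
      obtain ⟨y, hy⟩ := hne B
      have h2 := hfA x hx
      have h3 := hfB y hy
      rw [hf, h0, h1] at h2 h3
      linarith
  let P : ℝ → EuclideanSpace ℝ (Fin 2) := fun t => !₂[u / n * g 0 - t * g 1, u / n * g 1 + t * g 0]
  let τ : EuclideanSpace ℝ (Fin 2) → ℝ := fun x => (-(g 1) * x 0 + g 0 * x 1) / n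
  have hPτ : ∀ x, f x = u → P (τ x) = x := by
    intro x hx
    rw [hf] at hx
    ext i
    fin_cases i
    · change u / n * g 0 - (-(g 1) * x 0 + g 0 * x 1) / n * g 1 = x 0
      field_simp
      rw [← hx, hn]
      ring
    · change u / n * g 1 + (-(g 1) * x 0 + g 0 * x 1) / n * g 0 = x 1
      field_simp
      rw [← hx, hn]
      ring
  have hτc : Continuous τ := by
    have h0 : Continuous fun x : EuclideanSpace ℝ (Fin 2) => x 0 := by fun_prop
    have h1 : Continuous fun x : EuclideanSpace ℝ (Fin 2) => x 1 := by fun_prop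
    exact ((continuous_const.mul h0).add (continuous_const.mul h1)).div_const n
  -- intermediate values
  have hseg : ∀ S : Set (EuclideanSpace ℝ (Fin 2)), Convex ℝ S → ∀ x ∈ S, ∀ y ∈ S, f x ≤ u →
      u ≤ f y → ∃ z ∈ S, f z = u := by
    intro S hS x hx y hy h1 h2
    exact (hS.isPreconnected.intermediate_value hx hy f.continuous.continuousOn) ⟨h1, h2⟩
  let T : ι → Set ℝ := fun i => τ '' (K i ∩ {x | f x = u})
  have hTcp : ∀ i, IsCompact (T i) := fun i =>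
    ((hcp i).inter_right (isClosed_eq f.continuous continuous_const)).image hτc
  have hTne : ∀ i, i ≠ A → i ≠ B → (T i).Nonempty := by
    intro i hiA hiB
    obtain ⟨x, hx1, hx2⟩ := hA i hiB
    obtain ⟨y, hy1, hy2⟩ := hB i hiA
    obtain ⟨z, hz, hfz⟩ := hseg (K i) (hcv i) x hx1 y hy1 (hfA x hx2).le (hfB y hy2).le
    exact ⟨τ z, z, ⟨hz, hfz⟩, rfl⟩
  have hTpc : ∀ i, IsPreconnected (T i) := by
    intro i
    refine IsPreconnected.image (Convex.isPreconnected ?_) _ hτc.continuousOn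
    refine (hcv i).inter ?_
    intro x hx y hy a b ha hb hab
    change f (a • x + b • y) = u
    change f x = u at hx
    change f y = u at hy
    rw [map_add, map_smul, map_smul, hx, hy, smul_eq_mul, smul_eq_mul, ← add_mul, hab, one_mul]
  let l : {i // i ≠ A ∧ i ≠ B} → ℝ := fun i => sInf (T i.1)
  let r : {i // i ≠ A ∧ i ≠ B} → ℝ := fun i => sSup (T i.1)
  have hTI : ∀ i : {i // i ≠ A ∧ i ≠ B}, T i.1 = Set.Icc (l i) (r i) := fun i =>
    eq_Icc_of_connected_compact ⟨hTne i.1 i.2.1 i.2.2, hTpc i.1⟩ (hTcp i.1)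
  have hlr : ∀ i, l i ≤ r i := by
    intro i
    obtain ⟨t, ht⟩ := hTne i.1 i.2.1 i.2.2
    rw [hTI i] at ht
    exact ht.1.trans ht.2
  have hPT : ∀ i : {i // i ≠ A ∧ i ≠ B}, ∀ t, l i ≤ t → t ≤ r i → P t ∈ K i.1 := by
    intro i t h1 h2
    have ht : t ∈ T i.1 := by rw [hTI i]; exact ⟨h1, h2⟩
    obtain ⟨x, ⟨hx, hfx⟩, rfl⟩ := ht
    rw [hPτ x hfx]
    exact hx
  let dj : {i // i ≠ A ∧ i ≠ B} → {i // i ≠ A ∧ i ≠ B} → Prop := fun i j => r i < l j ∨ r j < l i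
  let c : {i // i ≠ A ∧ i ≠ B} → {i // i ≠ A ∧ i ≠ B} → Prop := fun i j =>
    ∃ x, x ∈ K i.1 ∧ x ∈ K j.1 ∧ f x < u
  have hc : ∀ i j, c i j ↔ c j i := fun i j =>
    ⟨fun ⟨x, h1, h2, h3⟩ => ⟨x, h2, h1, h3⟩, fun ⟨x, h1, h2, h3⟩ => ⟨x, h2, h1, h3⟩⟩
  have hdjs : ∀ i j, dj i j → dj j i := fun i j h => h.symm
  have hdn : ∀ i j, dj i j → ∀ x, x ∈ K i.1 → x ∈ K j.1 → f x ≠ u := by
    intro i j h x hxi hxj hfx
    have h1 : τ x ∈ T i.1 := ⟨x, ⟨hxi, hfx⟩, rfl⟩
    have h2 : τ x ∈ T j.1 := ⟨x, ⟨hxj, hfx⟩, rfl⟩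
    rw [hTI] at h1 h2
    rcases h with h | h
    · linarith [h1.2, h2.1]
    · linarith [h2.2, h1.1]
  have hne' : ∀ i j, dj i j → i.1 ≠ j.1 := by
    intro i j h hij
    have hij' : i = j := Subtype.ext hij
    subst hij'
    rcases h with h | h <;> linarith [hlr i]
  have h1 : ∀ i j, dj i j → c i j → ∀ x, x ∈ K i.1 → x ∈ K j.1 → f x < u := by
    intro i j hd hcij x hxi hxj
    by_contra hcon
    obtain ⟨y, hyi, hyj, hfy⟩ := hcij
    obtain ⟨z, ⟨hzi, hzj⟩, hfz⟩ := hseg (K i.1 ∩ K j.1) ((hcv _).inter (hcv _)) y ⟨hyi, hyj⟩ x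
      ⟨hxi, hxj⟩ hfy.le (not_lt.1 hcon)
    exact hdn i j hd z hzi hzj hfz
  have h2 : ∀ i j, dj i j → ¬ c i j → ∀ x, x ∈ K i.1 → x ∈ K j.1 → u < f x := by
    intro i j hd hcij x hxi hxj
    rcases lt_trichotomy (f x) u with h | h | h
    · exact absurd ⟨x, hxi, hxj, h⟩ hcij
    · exact absurd h (hdn i j hd x hxi hxj)
    · exact h
  -- the sets A and B are disjoint
  have hABx : ∀ x, x ∈ K A → x ∈ K B → False := fun x h h' => Set.disjoint_left.1 hAB h h'
  have hpair : ∀ i j : {i // i ≠ A ∧ i ≠ B}, i.1 ≠ j.1 →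
      ∃ x, x ∈ K i.1 ∧ x ∈ K j.1 ∧ (x ∈ K A ∨ x ∈ K B) := by
    intro i j hij
    have hs := card4 hij i.2.1 i.2.2 j.2.1 j.2.2 hABne
    obtain ⟨t, hts, ht, x, hx⟩ := h43 _ hs
    have mi : i.1 ∈ ({i.1, j.1, A, B} : Finset ι) := by simp
    have mj : j.1 ∈ ({i.1, j.1, A, B} : Finset ι) := by simp
    have mA : A ∈ ({i.1, j.1, A, B} : Finset ι) := by simp
    have mB : B ∈ ({i.1, j.1, A, B} : Finset ι) := by simp
    by_cases hAt : A ∈ t
    · have hBt : B ∉ t := fun hBt => hABx x (hx _ hAt) (hx _ hBt)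
      have hi := (two_of hs hts ht mi mB i.2.2).resolve_right hBt
      have hj := (two_of hs hts ht mj mB j.2.2).resolve_right hBt
      exact ⟨x, hx _ hi, hx _ hj, Or.inl (hx _ hAt)⟩
    · have hi := (two_of hs hts ht mi mA i.2.1).resolve_right hAt
      have hj := (two_of hs hts ht mj mA j.2.1).resolve_right hAt
      have hB := (two_of hs hts ht mB mA hABne.symm).resolve_right hAt
      exact ⟨x, hx _ hi, hx _ hj, Or.inr (hx _ hB)⟩
  have hpA : ∀ i j, dj i j → c i j → ∃ x, x ∈ K i.1 ∧ x ∈ K j.1 ∧ x ∈ K A := by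
    intro i j hd hcij
    obtain ⟨x, hxi, hxj, hx⟩ := hpair i j (hne' i j hd)
    refine ⟨x, hxi, hxj, hx.resolve_right fun hxB => ?_⟩
    exact absurd (hfB x hxB) (not_lt.2 (h1 i j hd hcij x hxi hxj).le)
  have hpB : ∀ i j, dj i j → ¬ c i j → ∃ x, x ∈ K i.1 ∧ x ∈ K j.1 ∧ x ∈ K B := by
    intro i j hd hcij
    obtain ⟨x, hxi, hxj, hx⟩ := hpair i j (hne' i j hd)
    refine ⟨x, hxi, hxj, hx.resolve_left fun hxA => ?_⟩
    exact absurd (hfA x hxA) (not_lt.2 (h2 i j hd hcij x hxi hxj).le)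
  -- three sets
  have htri : ∀ (D : ι) (i j k : {i // i ≠ A ∧ i ≠ B}), D ≠ i.1 → D ≠ j.1 → D ≠ k.1 →
      i.1 ≠ j.1 → j.1 ≠ k.1 → i.1 ≠ k.1 →
      (∀ x, x ∈ K i.1 → x ∈ K j.1 → x ∉ K D) → (∀ x, x ∈ K j.1 → x ∈ K k.1 → x ∉ K D) →
      (∀ x, x ∈ K i.1 → x ∈ K k.1 → x ∉ K D) → ∃ x, x ∈ K i.1 ∧ x ∈ K j.1 ∧ x ∈ K k.1 := by
    intro D i j k hDi hDj hDk hij hjk hik e1 e2 e3
    have hs := card4 hij hik hDi.symm hjk hDj.symm hDk.symm
    obtain ⟨t, hts, ht, x, hx⟩ := h43 _ hs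
    have mi : i.1 ∈ ({i.1, j.1, k.1, D} : Finset ι) := by simp
    have mj : j.1 ∈ ({i.1, j.1, k.1, D} : Finset ι) := by simp
    have mk : k.1 ∈ ({i.1, j.1, k.1, D} : Finset ι) := by simp
    have mD : D ∈ ({i.1, j.1, k.1, D} : Finset ι) := by simp
    have hDt : D ∉ t := by
      intro hDt
      by_cases hi : i.1 ∈ t
      · rcases two_of hs hts ht mj mk hjk with hj | hk
        · exact e1 x (hx _ hi) (hx _ hj) (hx _ hDt)
        · exact e3 x (hx _ hi) (hx _ hk) (hx _ hDt)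
      · have hj := (two_of hs hts ht mj mi hij.symm).resolve_right hi
        have hk := (two_of hs hts ht mk mi hik.symm).resolve_right hi
        exact e2 x (hx _ hj) (hx _ hk) (hx _ hDt)
    exact ⟨x, hx _ ((two_of hs hts ht mi mD hDi.symm).resolve_right hDt),
      hx _ ((two_of hs hts ht mj mD hDj.symm).resolve_right hDt),
      hx _ ((two_of hs hts ht mk mD hDk.symm).resolve_right hDt)⟩
  have hKp : ∀ i : {i // i ≠ A ∧ i ≠ B}, (K i.1 ∩ K A).Nonempty ∧ Convex ℝ (K i.1 ∩ K A) ∧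
      IsCompact (K i.1 ∩ K A) := fun i => ⟨hA i.1 i.2.2, (hcv _).inter (hcv _),
    (hcp _).inter_right (hcp _).isClosed⟩
  have hKm : ∀ i : {i // i ≠ A ∧ i ≠ B}, (K i.1 ∩ K B).Nonempty ∧ Convex ℝ (K i.1 ∩ K B) ∧
      IsCompact (K i.1 ∩ K B) := fun i => ⟨hB i.1 i.2.1, (hcv _).inter (hcv _),
    (hcp _).inter_right (hcp _).isClosed⟩
  have hL : ∀ i j k, dj i j → dj j k → dj i k → c i j → c j k → c i k →
      ∃ y, y ∈ K i.1 ∩ K A ∧ y ∈ K j.1 ∩ K A ∧ y ∈ K k.1 ∩ K A := by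
    intro i j k dij djk dik cij cjk cik
    have e4 := htri B i j k i.2.2.symm j.2.2.symm k.2.2.symm (hne' i j dij) (hne' j k djk)
      (hne' i k dik)
      (fun x hx hy hxB => absurd (hfB x hxB) (not_lt.2 (h1 i j dij cij x hx hy).le))
      (fun x hx hy hxB => absurd (hfB x hxB) (not_lt.2 (h1 j k djk cjk x hx hy).le))
      (fun x hx hy hxB => absurd (hfB x hxB) (not_lt.2 (h1 i k dik cik x hx hy).le))
    obtain ⟨x, hxi, hxj, hxk, hxA⟩ := helly4 K hcv (hne' i j dij) (hne' i k dik) i.2.1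
      (hne' j k djk) j.2.1 k.2.1 (hpA j k djk cjk) (hpA i k dik cik) (hpA i j dij cij) e4
    exact ⟨x, ⟨hxi, hxA⟩, ⟨hxj, hxA⟩, ⟨hxk, hxA⟩⟩
  have hR : ∀ i j k, dj i j → dj j k → dj i k → ¬ c i j → ¬ c j k → ¬ c i k →
      ∃ y, y ∈ K i.1 ∩ K B ∧ y ∈ K j.1 ∩ K B ∧ y ∈ K k.1 ∩ K B := by
    intro i j k dij djk dik cij cjk cik
    have e4 := htri A i j k i.2.1.symm j.2.1.symm k.2.1.symm (hne' i j dij) (hne' j k djk)
      (hne' i k dik)
      (fun x hx hy hxA => absurd (hfA x hxA) (not_lt.2 (h2 i j dij cij x hx hy).le))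
      (fun x hx hy hxA => absurd (hfA x hxA) (not_lt.2 (h2 j k djk cjk x hx hy).le))
      (fun x hx hy hxA => absurd (hfA x hxA) (not_lt.2 (h2 i k dik cik x hx hy).le))
    obtain ⟨x, hxi, hxj, hxk, hxB⟩ := helly4 K hcv (hne' i j dij) (hne' i k dik) i.2.2
      (hne' j k djk) j.2.2 k.2.2 (hpB j k djk cjk) (hpB i k dik cik) (hpB i j dij cij) e4
    exact ⟨x, ⟨hxi, hxB⟩, ⟨hxj, hxB⟩, ⟨hxk, hxB⟩⟩
  have hAC : ∀ i j k m, dj i j → dj j k → dj k m → dj m i → c i j → ¬ c j k → c k m → c m i := by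
    intro i j k m dij djk dkm dmi cij cjk ckm
    by_contra cmi
    have hik : i.1 ≠ k.1 := by
      intro h
      have h' : i = k := Subtype.ext h
      subst h'
      exact cjk ((hc _ _).1 cij)
    have hjm : j.1 ≠ m.1 := by
      intro h
      have h' : j = m := Subtype.ext h
      subst h'
      exact cjk ((hc _ _).1 ckm)
    have hij := hne' i j dij
    have hjk := hne' j k djk
    have hkm := hne' k m dkm
    have hmi := hne' m i dmi
    have hs := card4 hij hik hmi.symm hjk hjm hkm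
    obtain ⟨t, hts, ht, x, hx⟩ := h43 _ hs
    have mi : i.1 ∈ ({i.1, j.1, k.1, m.1} : Finset ι) := by simp
    have mj : j.1 ∈ ({i.1, j.1, k.1, m.1} : Finset ι) := by simp
    have mk : k.1 ∈ ({i.1, j.1, k.1, m.1} : Finset ι) := by simp
    have mm : m.1 ∈ ({i.1, j.1, k.1, m.1} : Finset ι) := by simp
    have fij : i.1 ∈ t → j.1 ∈ t → f x < u := fun hi hj => h1 i j dij cij x (hx _ hi) (hx _ hj)
    have fkm : k.1 ∈ t → m.1 ∈ t → f x < u := fun hi hj => h1 k m dkm ckm x (hx _ hi) (hx _ hj)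
    have fjk : j.1 ∈ t → k.1 ∈ t → u < f x := fun hi hj => h2 j k djk cjk x (hx _ hi) (hx _ hj)
    have fmi : m.1 ∈ t → i.1 ∈ t → u < f x := fun hi hj => h2 m i dmi cmi x (hx _ hi) (hx _ hj)
    by_cases hi : i.1 ∈ t
    · by_cases hj : j.1 ∈ t
      · have g1 := fij hi hj
        rcases two_of hs hts ht mk mm hkm with hk | hm
        · linarith [fjk hj hk]
        · linarith [fmi hm hi]
      · have hk := (two_of hs hts ht mk mj hjk.symm).resolve_right hj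
        have hm := (two_of hs hts ht mm mj hjm.symm).resolve_right hj
        linarith [fkm hk hm, fmi hm hi]
    · have hj := (two_of hs hts ht mj mi hij.symm).resolve_right hi
      have hk := (two_of hs hts ht mk mi hik.symm).resolve_right hi
      have hm := (two_of hs hts ht mm mi hmi).resolve_right hi
      linarith [fjk hj hk, fkm hk hm]
  obtain ⟨a, qp, qm, hq⟩ := AT l r hlr (fun i => K i.1 ∩ K A) (fun i => K i.1 ∩ K B) hKp hKm dj
    (fun _ _ => Iff.rfl) c hc hL hR hAC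
  obtain ⟨xA, hxA⟩ := hne A
  obtain ⟨xB, hxB⟩ := hne B
  obtain ⟨qp', hqp'A, hqp'⟩ : ∃ q, q ∈ K A ∧ (qp ∈ K A → q = qp) := by
    by_cases h : qp ∈ K A
    · exact ⟨qp, h, fun _ => rfl⟩
    · exact ⟨xA, hxA, fun h' => absurd h' h⟩
  obtain ⟨qm', hqm'B, hqm'⟩ : ∃ q, q ∈ K B ∧ (qm ∈ K B → q = qm) := by
    by_cases h : qm ∈ K B
    · exact ⟨qm, h, fun _ => rfl⟩
    · exact ⟨xB, hxB, fun h' => absurd h' h⟩
  refine ⟨{P (a 0), P (a 1), P (a 2), qp', qm'}, Finset.card_le_five, fun i => ?_⟩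
  by_cases hiA : i = A
  · subst hiA
    exact ⟨qp', by simp, hqp'A⟩
  by_cases hiB : i = B
  · subst hiB
    exact ⟨qm', by simp, hqm'B⟩
  rcases hq ⟨i, hiA, hiB⟩ with ⟨t, ht1, ht2⟩ | h | h
  · refine ⟨P (a t), ?_, hPT ⟨i, hiA, hiB⟩ _ ht1 ht2⟩
    fin_cases t <;> simp
  · refine ⟨qp', by simp, ?_⟩
    rw [hqp' h.2]
    exact h.1
  · refine ⟨qm', by simp, ?_⟩
    rw [hqm' h.2]
    exact h.1

end H257R5.B
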