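import Mathlib
import Pool.Agent.H257R5.Six.ThmB
set_option autoImplicit false

/-! Part of the proof that `c(4,3,2) ≤ 6` (MP_8fca14_co).  Plan: helper257; this file: helper173. -/
namespace H257R5.C1
open H257R5.B


/-- Helly for four convex sets in the plane. -/
theorem helly4 (C₁ C₂ C₃ C₄ : Set (EuclideanSpace ℝ (Fin 2)))
    (h₁ : Convex ℝ C₁) (h₂ : Convex ℝ C₂) (h₃ : Convex ℝ C₃) (h₄ : Convex ℝ C₄)
    (h123 : ∃ x, x ∈ C₁ ∧ x ∈ C₂ ∧ x ∈ C₃) (h124 : ∃ x, x ∈ C₁ ∧ x ∈ C₂ ∧ x ∈ C₄)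
    (h134 : ∃ x, x ∈ C₁ ∧ x ∈ C₃ ∧ x ∈ C₄) (h234 : ∃ x, x ∈ C₂ ∧ x ∈ C₃ ∧ x ∈ C₄) :
    ∃ x, x ∈ C₁ ∧ x ∈ C₂ ∧ x ∈ C₃ ∧ x ∈ C₄ := by
  have key := Convex.helly_theorem (𝕜 := ℝ) (E := EuclideanSpace ℝ (Fin 2))
    (F := ![C₁, C₂, C₃, C₄]) (s := (Finset.univ : Finset (Fin 4))) (by simp)
    (by
      intro i _
      fin_cases i
      · exact h₁
      · exact h₂
      · exact h₃
      · exact h₄)
    (by
      intro I _ hI
      have hI' : I.card = 3 := by simpa using hI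
      have hdec : ∀ J : Finset (Fin 4), J.card = 3 →
          J = {0,1,2} ∨ J = {0,1,3} ∨ J = {0,2,3} ∨ J = {1,2,3} := by decide
      rcases hdec I hI' with h | h | h | h
      · obtain ⟨x, hx1, hx2, hx3⟩ := h123
        subst h
        refine ⟨x, ?_⟩
        simp [hx1, hx2, hx3]
      · obtain ⟨x, hx1, hx2, hx3⟩ := h124
        subst h
        refine ⟨x, ?_⟩
        simp [hx1, hx2, hx3]
      · obtain ⟨x, hx1, hx2, hx3⟩ := h134
        subst h
        refine ⟨x, ?_⟩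
        simp [hx1, hx2, hx3]
      · obtain ⟨x, hx1, hx2, hx3⟩ := h234
        subst h
        refine ⟨x, ?_⟩
        simp [hx1, hx2, hx3])
  obtain ⟨x, hx⟩ := key
  rw [Set.mem_iInter₂] at hx
  exact ⟨x, by simpa using hx 0 (Finset.mem_univ _), by simpa using hx 1 (Finset.mem_univ _),
    by simpa using hx 2 (Finset.mem_univ _), by simpa using hx 3 (Finset.mem_univ _)⟩

/-- TARGET. -/
theorem case1 {ι : Type*} [Fintype ι] [DecidableEq ι] (K : ι → Set (EuclideanSpace ℝ (Fin 2)))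
    (hK : ∀ i, (K i).Nonempty ∧ Convex ℝ (K i) ∧ IsCompact (K i))
    (h43 : ∀ s : Finset ι, s.card = 4 → ∃ t ⊆ s, t.card = 3 ∧ ∃ x, ∀ i ∈ t, x ∈ K i)
    (hpair : ∀ i j, (K i ∩ K j).Nonempty) :
    ∃ P : Finset (EuclideanSpace ℝ (Fin 2)), P.card ≤ 6 ∧ ∀ i, ∃ x ∈ P, x ∈ K i := by
  classical
  rcases subsingleton_or_nontrivial ι with hsub | hnt
  · rcases isEmpty_or_nonempty ι with he | ⟨⟨i0⟩⟩
    · exact ⟨∅, by simp, fun i => (he.false i).elim⟩
    · obtain ⟨x, hx⟩ := (hK i0).1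
      refine ⟨{x}, by simp, fun i => ⟨x, by simp, ?_⟩⟩
      rw [Subsingleton.elim i i0]; exact hx
  -- minimal norm points
  have hmin : ∀ i j, ∃ x, x ∈ K i ∧ x ∈ K j ∧ ∀ y, y ∈ K i → y ∈ K j → ‖x‖ ≤ ‖y‖ := by
    intro i j
    have hc : IsCompact (K i ∩ K j) := (hK i).2.2.inter (hK j).2.2
    obtain ⟨x, hx, hxm⟩ := hc.exists_isMinOn (hpair i j) (f := fun x => ‖x‖)
      continuous_norm.continuousOn
    exact ⟨x, hx.1, hx.2, fun y hy1 hy2 => hxm (⟨hy1, hy2⟩ : y ∈ K i ∩ K j)⟩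
  choose f hf1 hf2 hf3 using hmin
  obtain ⟨a0, b0, hab0⟩ := exists_pair_ne ι
  obtain ⟨⟨A, B⟩, hABm, hABmax⟩ := Finset.exists_max_image
    ((Finset.univ : Finset (ι × ι)).filter (fun q => q.1 ≠ q.2)) (fun q => ‖f q.1 q.2‖)
    ⟨(a0, b0), by simp [hab0]⟩
  have hABne : A ≠ B := by simpa using hABm
  have hmax : ∀ i j, i ≠ j → ‖f i j‖ ≤ ‖f A B‖ := by
    intro i j hij
    exact hABmax (i, j) (by simp [hij])
  set p := f A B with hp
  have hpA : p ∈ K A := hf1 A B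
  have hpB : p ∈ K B := hf2 A B
  set ρ := ‖p‖ with hρ
  -- (1)
  have h1 : ∀ i j, i ≠ j → ∃ x, x ∈ K i ∧ x ∈ K j ∧ ‖x‖ ≤ ρ :=
    fun i j hij => ⟨f i j, hf1 i j, hf2 i j, hmax i j hij⟩
  have h1' : ∀ i, ∃ x, x ∈ K i ∧ ‖x‖ ≤ ρ := by
    intro i
    obtain ⟨j, hj⟩ := exists_ne i
    obtain ⟨x, hx, _, hx'⟩ := h1 i j hj.symm
    exact ⟨x, hx, hx'⟩
  -- (2)
  have h2 : ∀ x, x ∈ K A → x ∈ K B → ‖x‖ ≤ ρ → x = p := by
    intro x hxA hxB hxρ
    have hmA : (1/2 : ℝ) • x + (1/2 : ℝ) • p ∈ K A :=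
      (hK A).2.1 hxA hpA (by norm_num) (by norm_num) (by norm_num)
    have hmB : (1/2 : ℝ) • x + (1/2 : ℝ) • p ∈ K B :=
      (hK B).2.1 hxB hpB (by norm_num) (by norm_num) (by norm_num)
    have h := hf3 A B _ hmA hmB
    rw [← smul_add, norm_smul] at h
    have h' : ρ ≤ (1/2) * ‖x + p‖ := by
      have : ‖(1/2 : ℝ)‖ = 1/2 := by norm_num
      rw [this] at h
      exact h
    have hpar := parallelogram_law_with_norm ℝ x p
    have hρ0 : 0 ≤ ρ := norm_nonneg _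
    have hx0 : 0 ≤ ‖x‖ := norm_nonneg _
    have hxp0 : 0 ≤ ‖x + p‖ := norm_nonneg _
    have hd0 : 0 ≤ ‖x - p‖ := norm_nonneg _
    have hpp : ‖p‖ = ρ := rfl
    rw [hpp] at hpar
    have e1 : ‖x‖ * ‖x‖ ≤ ρ * ρ := by nlinarith
    have e2 : (2 * ρ) * (2 * ρ) ≤ ‖x + p‖ * ‖x + p‖ := by
      apply mul_self_le_mul_self (by positivity); linarith
    have e3 : ‖x - p‖ * ‖x - p‖ ≤ 0 := by nlinarith
    have e4 : ‖x - p‖ = 0 := by nlinarith
    exact sub_eq_zero.mp (norm_eq_zero.mp e4)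
  have hQ : Convex ℝ (Metric.closedBall (0 : EuclideanSpace ℝ (Fin 2)) ρ) := convex_closedBall _ _
  have hQm : ∀ x : EuclideanSpace ℝ (Fin 2), x ∈ Metric.closedBall (0 : EuclideanSpace ℝ (Fin 2)) ρ ↔ ‖x‖ ≤ ρ := by
    intro x; simp
  -- (3)
  have h3 : ∀ i j k, i ≠ j → i ≠ k → j ≠ k → (∃ x, x ∈ K i ∧ x ∈ K j ∧ x ∈ K k) →
      ∃ x, x ∈ K i ∧ x ∈ K j ∧ x ∈ K k ∧ ‖x‖ ≤ ρ := by
    intro i j k hij hik hjk hx
    obtain ⟨x, hx1, hx2, hx3, hx4⟩ := helly4 (K i) (K j) (K k) (Metric.closedBall 0 ρ)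
      (hK i).2.1 (hK j).2.1 (hK k).2.1 hQ hx
      (by obtain ⟨y, hy1, hy2, hy3⟩ := h1 i j hij; exact ⟨y, hy1, hy2, (hQm y).2 hy3⟩)
      (by obtain ⟨y, hy1, hy2, hy3⟩ := h1 i k hik; exact ⟨y, hy1, hy2, (hQm y).2 hy3⟩)
      (by obtain ⟨y, hy1, hy2, hy3⟩ := h1 j k hjk; exact ⟨y, hy1, hy2, (hQm y).2 hy3⟩)
    exact ⟨x, hx1, hx2, hx3, (hQm x).1 hx4⟩
  by_cases hG : ∀ i, p ∈ K i
  · exact ⟨{p}, by simp, fun i => ⟨p, by simp, hG i⟩⟩
  push Not at hG
  obtain ⟨i0, hi0⟩ := hG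
  have hGA : ∀ i, p ∉ K i → i ≠ A := fun i hi h => hi (h ▸ hpA)
  have hGB : ∀ i, p ∉ K i → i ≠ B := fun i hi h => hi (h ▸ hpB)
  -- the points w
  have hw : ∀ i j, ∃ x, p ∉ K i → p ∉ K j → (∃ y, y ∈ K A ∧ y ∈ K i ∧ y ∈ K j) →
      x ∈ K A ∧ x ∈ K i ∧ x ∈ K j ∧ ‖x‖ ≤ ρ := by
    intro i j
    by_cases h : p ∉ K i ∧ p ∉ K j ∧ (∃ y, y ∈ K A ∧ y ∈ K i ∧ y ∈ K j)
    · obtain ⟨hi, hj, hy⟩ := h
      by_cases hij : i = j
      · subst hij
        obtain ⟨x, hx1, hx2, hx3⟩ := h1 A i (hGA i hi).symm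
        exact ⟨x, fun _ _ _ => ⟨hx1, hx2, hx2, hx3⟩⟩
      · obtain ⟨x, hx⟩ := h3 A i j (hGA i hi).symm (hGA j hj).symm hij hy
        exact ⟨x, fun _ _ _ => hx⟩
    · exact ⟨0, fun a b c => (h ⟨a, b, c⟩).elim⟩
  choose w hw' using hw
  let W : Finset (EuclideanSpace ℝ (Fin 2)) :=
    ((Finset.univ : Finset (ι × ι)).filter (fun q => p ∉ K q.1 ∧ p ∉ K q.2 ∧
      (∃ y, y ∈ K A ∧ y ∈ K q.1 ∧ y ∈ K q.2))).image (fun q => w q.1 q.2)
  have hWmem : ∀ i j, p ∉ K i → p ∉ K j → (∃ y, y ∈ K A ∧ y ∈ K i ∧ y ∈ K j) → w i j ∈ W := by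
    intro i j hi hj hy
    exact Finset.mem_image.2 ⟨(i, j), Finset.mem_filter.2 ⟨Finset.mem_univ _, hi, hj, hy⟩, rfl⟩
  have hWprop : ∀ x ∈ W, x ∈ K A ∧ ‖x‖ ≤ ρ ∧ x ≠ p := by
    intro x hx
    obtain ⟨⟨i, j⟩, hq, rfl⟩ := Finset.mem_image.1 hx
    obtain ⟨_, hi, hj, hy⟩ := Finset.mem_filter.1 hq
    obtain ⟨a, b, _, d⟩ := hw' i j hi hj hy
    exact ⟨a, d, fun h => hi (h ▸ b)⟩
  have hWsub : convexHull ℝ (W : Set (EuclideanSpace ℝ (Fin 2))) ⊆
      K A ∩ Metric.closedBall 0 ρ := by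
    apply convexHull_min
    · intro x hx
      obtain ⟨a, b, _⟩ := hWprop x hx
      exact ⟨a, (hQm x).2 b⟩
    · exact (hK A).2.1.inter hQ
  have hWhalf : convexHull ℝ (W : Set (EuclideanSpace ℝ (Fin 2))) ⊆
      {x | inner ℝ p x < ρ * ρ} := by
    apply convexHull_min
    · intro x hx
      obtain ⟨_, b, c⟩ := hWprop x hx
      have h0 : 0 < ‖x - p‖ * ‖x - p‖ := by
        have : ‖x - p‖ ≠ 0 := by
          rw [norm_ne_zero_iff]; exact sub_ne_zero.mpr c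
        positivity
      rw [norm_sub_mul_self_real] at h0
      have hb : ‖x‖ * ‖x‖ ≤ ρ * ρ := mul_self_le_mul_self (norm_nonneg _) b
      have hpp : ‖p‖ * ‖p‖ = ρ * ρ := rfl
      rw [hpp] at h0
      have : inner ℝ x p < ρ * ρ := by linarith
      rw [real_inner_comm] at this
      exact this
    · exact convex_halfSpace_lt ⟨fun x y => inner_add_right _ _ _,
        fun c x => by rw [inner_smul_right]; simp⟩ _
  have hphalf : p ∉ convexHull ℝ (W : Set (EuclideanSpace ℝ (Fin 2))) := by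
    intro h
    have := hWhalf h
    simp only [Set.mem_ofPred_eq, real_inner_self_eq_norm_mul_norm] at this
    exact lt_irrefl _ this
  have hWne : ∀ i, p ∉ K i → w i i ∈ W := fun i hi =>
    hWmem i i hi hi (by obtain ⟨y, hy1, hy2, _⟩ := h1 A i (hGA i hi).symm; exact ⟨y, hy1, hy2, hy2⟩)
  -- the new family
  let ι' := {i : ι // p ∉ K i ∨ i = A ∨ i = B}
  let K' : ι' → Set (EuclideanSpace ℝ (Fin 2)) := fun i =>
    if i.1 = A then convexHull ℝ (W : Set (EuclideanSpace ℝ (Fin 2)))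
    else K i.1 ∩ Metric.closedBall 0 ρ
  have hK'A : ∀ i : ι', i.1 = A → K' i = convexHull ℝ (W : Set (EuclideanSpace ℝ (Fin 2))) := by
    intro i hi; simp only [K', hi, if_true]
  have hK'n : ∀ i : ι', i.1 ≠ A → K' i = K i.1 ∩ Metric.closedBall 0 ρ := by
    intro i hi; simp only [K', hi, if_false]
  have hK'sub : ∀ i : ι', K' i ⊆ K i.1 ∩ Metric.closedBall 0 ρ := by
    intro i
    by_cases hi : i.1 = A
    · rw [hK'A i hi, hi]; exact hWsub
    · rw [hK'n i hi]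
  have hclass : ∀ i : ι', i.1 ≠ A → i.1 ≠ B → p ∉ K i.1 := by
    intro i hA hB
    rcases i.2 with h | h | h
    · exact h
    · exact (hA h).elim
    · exact (hB h).elim
  let A' : ι' := ⟨A, Or.inr (Or.inl rfl)⟩
  let B' : ι' := ⟨B, Or.inr (Or.inr rfl)⟩
  have hK' : ∀ i, (K' i).Nonempty ∧ Convex ℝ (K' i) ∧ IsCompact (K' i) := by
    intro i
    by_cases hi : i.1 = A
    · rw [hK'A i hi]
      exact ⟨⟨w i0 i0, subset_convexHull ℝ _ (hWne i0 hi0)⟩, convex_convexHull ℝ _,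
        (Finset.finite_toSet W).isCompact_convexHull ℝ⟩
    · rw [hK'n i hi]
      refine ⟨?_, (hK i.1).2.1.inter hQ, (hK i.1).2.2.inter (isCompact_closedBall _ _)⟩
      obtain ⟨x, hx1, hx2⟩ := h1' i.1
      exact ⟨x, hx1, (hQm x).2 hx2⟩
  have hdisj : Disjoint (K' A') (K' B') := by
    rw [Set.disjoint_left]
    intro x hxA hxB
    have h1x := hK'sub A' hxA
    have h2x := hK'sub B' hxB
    have hxp : x = p := h2 x h1x.1 h2x.1 ((hQm x).1 h1x.2)
    rw [hK'A A' rfl, hxp] at hxA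
    exact hphalf hxA
  have hAmeet : ∀ i, i ≠ B' → (K' i ∩ K' A').Nonempty := by
    intro i hi
    by_cases hiA : i.1 = A
    · have : i = A' := Subtype.ext hiA
      rw [this, Set.inter_self]
      exact (hK' A').1
    · have hiB : i.1 ≠ B := fun h => hi (Subtype.ext h)
      have hpi := hclass i hiA hiB
      have hww := hWne i.1 hpi
      obtain ⟨y, hy1, hy2, _⟩ := h1 A i.1 (hGA i.1 hpi).symm
      obtain ⟨_, b, _, d⟩ := hw' i.1 i.1 hpi hpi ⟨y, hy1, hy2, hy2⟩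
      refine ⟨w i.1 i.1, ?_, ?_⟩
      · rw [hK'n i hiA]; exact ⟨b, (hQm _).2 d⟩
      · rw [hK'A A' rfl]; exact subset_convexHull ℝ _ hww
  have hBmeet : ∀ i, i ≠ A' → (K' i ∩ K' B').Nonempty := by
    intro i hi
    have hiA : i.1 ≠ A := fun h => hi (Subtype.ext h)
    have hBA : B'.1 ≠ A := hABne.symm
    by_cases hiB : i.1 = B
    · have : i = B' := Subtype.ext hiB
      rw [this, Set.inter_self]
      exact (hK' B').1
    · obtain ⟨x, hx1, hx2, hx3⟩ := h1 i.1 B hiB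
      refine ⟨x, ?_, ?_⟩
      · rw [hK'n i hiA]; exact ⟨hx1, (hQm _).2 hx3⟩
      · rw [hK'n B' hBA]; exact ⟨hx2, (hQm _).2 hx3⟩
  have h43' : ∀ s : Finset ι', s.card = 4 → ∃ t ⊆ s, t.card = 3 ∧ ∃ x, ∀ i ∈ t, x ∈ K' i := by
    intro s hs
    obtain ⟨t, hts, htc, x, hx⟩ := h43 (s.map (Function.Embedding.subtype _)) (by
      rw [Finset.card_map]; exact hs)
    have htprop : ∀ i ∈ t, p ∉ K i ∨ i = A ∨ i = B := by
      intro i hi
      obtain ⟨j, _, rfl⟩ := Finset.mem_map.1 (hts hi)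
      exact j.2
    have hgood : ∀ i ∈ t, i ≠ A → i ≠ B → p ∉ K i := by
      intro i hi hA hB
      rcases htprop i hi with h | h | h
      · exact h
      · exact (hA h).elim
      · exact (hB h).elim
    -- the subset of s
    have ht's : (s.filter (fun i => i.1 ∈ t)).map (Function.Embedding.subtype _) = t := by
      ext i
      constructor
      · intro hi
        obtain ⟨j, hj, rfl⟩ := Finset.mem_map.1 hi
        exact (Finset.mem_filter.1 hj).2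
      · intro hi
        obtain ⟨j, hj, hji⟩ := Finset.mem_map.1 (hts hi)
        refine Finset.mem_map.2 ⟨j, Finset.mem_filter.2 ⟨hj, ?_⟩, hji⟩
        have : j.1 = i := hji
        rw [this]; exact hi
    have ht'c : (s.filter (fun i => i.1 ∈ t)).card = 3 := by
      have := congrArg Finset.card ht's
      rw [Finset.card_map] at this
      rw [this]; exact htc
    -- enough: a common point for K' over t
    suffices hsuff : ∃ y, (A ∈ t → y ∈ convexHull ℝ (W : Set (EuclideanSpace ℝ (Fin 2)))) ∧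
        ∀ i ∈ t, i ≠ A → y ∈ K i ∧ ‖y‖ ≤ ρ by
      obtain ⟨y, hyA, hy⟩ := hsuff
      refine ⟨s.filter (fun i => i.1 ∈ t), Finset.filter_subset _ _, ht'c, y, ?_⟩
      intro i hi
      have hit := (Finset.mem_filter.1 hi).2
      by_cases hiA : i.1 = A
      · rw [hK'A i hiA]; exact hyA (hiA ▸ hit)
      · rw [hK'n i hiA]
        obtain ⟨a, b⟩ := hy i.1 hit hiA
        exact ⟨a, (hQm _).2 b⟩
    by_cases hAt : A ∈ t
    · have hBt : B ∉ t := by
        intro hBt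
        have hc1 : ((t.erase A).erase B).card = 1 := by
          rw [Finset.card_erase_of_mem (Finset.mem_erase.2 ⟨hABne.symm, hBt⟩),
            Finset.card_erase_of_mem hAt, htc]
        obtain ⟨i, hi⟩ := Finset.card_eq_one.1 hc1
        have him : i ∈ (t.erase A).erase B := by rw [hi]; simp
        obtain ⟨hiB, him2⟩ := Finset.mem_erase.1 him
        obtain ⟨hiA, hit⟩ := Finset.mem_erase.1 him2
        obtain ⟨y, hy1, hy2, hy3, hy4⟩ := h3 A B i hABne (Ne.symm hiA) (Ne.symm hiB)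
          ⟨x, hx A hAt, hx B hBt, hx i hit⟩
        have hyp := h2 y hy1 hy2 hy4
        exact hgood i hit hiA hiB (hyp ▸ hy3)
      have hc2 : (t.erase A).card = 2 := by
        rw [Finset.card_erase_of_mem hAt, htc]
      obtain ⟨i, j, hij, hte⟩ := Finset.card_eq_two.1 hc2
      have him : i ∈ t.erase A := by rw [hte]; simp
      have hjm : j ∈ t.erase A := by rw [hte]; simp
      obtain ⟨hiA, hit⟩ := Finset.mem_erase.1 him
      obtain ⟨hjA, hjt⟩ := Finset.mem_erase.1 hjm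
      have hiB : i ≠ B := fun h => hBt (h ▸ hit)
      have hjB : j ≠ B := fun h => hBt (h ▸ hjt)
      have hpi := hgood i hit hiA hiB
      have hpj := hgood j hjt hjA hjB
      have hex : ∃ y, y ∈ K A ∧ y ∈ K i ∧ y ∈ K j := ⟨x, hx A hAt, hx i hit, hx j hjt⟩
      obtain ⟨_, b, c, d⟩ := hw' i j hpi hpj hex
      refine ⟨w i j, fun _ => subset_convexHull ℝ _ (hWmem i j hpi hpj hex), ?_⟩
      intro l hl hlA
      have hlm : l ∈ t.erase A := Finset.mem_erase.2 ⟨hlA, hl⟩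
      rw [hte] at hlm
      rcases Finset.mem_insert.1 hlm with h | h
      · subst h; exact ⟨b, d⟩
      · rw [Finset.mem_singleton] at h; subst h; exact ⟨c, d⟩
    · obtain ⟨a, b, c, hab, hac, hbc, hte⟩ := Finset.card_eq_three.1 htc
      have ha : a ∈ t := by rw [hte]; simp
      have hb : b ∈ t := by rw [hte]; simp
      have hc : c ∈ t := by rw [hte]; simp
      obtain ⟨y, hy1, hy2, hy3, hy4⟩ := h3 a b c hab hac hbc ⟨x, hx a ha, hx b hb, hx c hc⟩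
      refine ⟨y, fun h => (hAt h).elim, ?_⟩
      intro l hl _
      rw [hte] at hl
      simp only [Finset.mem_insert, Finset.mem_singleton] at hl
      rcases hl with h | h | h
      · subst h; exact ⟨hy1, hy4⟩
      · subst h; exact ⟨hy2, hy4⟩
      · subst h; exact ⟨hy3, hy4⟩
  obtain ⟨P', hP'c, hP'⟩ := thmB K' hK' h43' A' B' hdisj hAmeet hBmeet
  refine ⟨insert p P', (Finset.card_insert_le _ _).trans (by omega), ?_⟩
  intro i
  by_cases hpi : p ∈ K i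
  · exact ⟨p, Finset.mem_insert_self _ _, hpi⟩
  · obtain ⟨x, hxP, hxK⟩ := hP' ⟨i, Or.inl hpi⟩
    exact ⟨x, Finset.mem_insert_of_mem hxP, (hK'sub _ hxK).1⟩

end H257R5.C1
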