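import Mathlib
import Pool.Agent.H257R5.Six.ThmB
set_option autoImplicit false

/-! Part of the proof that `c(4,3,2) ≤ 6` (MP_8fca14_co).  Plan: helper257; this file: helper234. -/
namespace H257R5.C2
open H257R5.B


/-- among four sets some three have a common point -/
theorem c2_four {ι : Type*} [Fintype ι] [DecidableEq ι] (K : ι → Set (EuclideanSpace ℝ (Fin 2)))
    (h43 : ∀ s : Finset ι, s.card = 4 → ∃ t ⊆ s, t.card = 3 ∧ ∃ x, ∀ i ∈ t, x ∈ K i)
    (a b c d : ι) (hab : a ≠ b) (hac : a ≠ c) (had : a ≠ d) (hbc : b ≠ c) (hbd : b ≠ d)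
    (hcd : c ≠ d) :
    (∃ x, x ∈ K a ∧ x ∈ K b ∧ x ∈ K c) ∨ (∃ x, x ∈ K a ∧ x ∈ K b ∧ x ∈ K d) ∨
    (∃ x, x ∈ K a ∧ x ∈ K c ∧ x ∈ K d) ∨ (∃ x, x ∈ K b ∧ x ∈ K c ∧ x ∈ K d) := by
  have hs : ({a, b, c, d} : Finset ι).card = 4 := by
    rw [Finset.card_insert_of_notMem, Finset.card_insert_of_notMem, Finset.card_pair hcd]
    · simp [hbc, hbd]
    · simp [hab, hac, had]
  obtain ⟨t, hts, htc, x, hx⟩ := h43 _ hs
  have h2 : ∀ y ∈ ({a, b, c, d} : Finset ι), ∀ z ∈ ({a, b, c, d} : Finset ι), y ≠ z →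
      y ∈ t ∨ z ∈ t := by
    intro y hy z hz hyz
    by_contra hcon
    push Not at hcon
    have h3 : t ⊆ (({a, b, c, d} : Finset ι).erase y).erase z := by
      intro u hu
      rw [Finset.mem_erase, Finset.mem_erase]
      refine ⟨?_, ?_, hts hu⟩
      · rintro rfl; exact hcon.2 hu
      · rintro rfl; exact hcon.1 hu
    have h4 := Finset.card_le_card h3
    rw [Finset.card_erase_of_mem, Finset.card_erase_of_mem hy, hs, htc] at h4
    · omega
    · rw [Finset.mem_erase]; exact ⟨hyz.symm, hz⟩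
  have ma : a ∈ ({a, b, c, d} : Finset ι) := by simp
  have mb : b ∈ ({a, b, c, d} : Finset ι) := by simp
  have mc : c ∈ ({a, b, c, d} : Finset ι) := by simp
  have md : d ∈ ({a, b, c, d} : Finset ι) := by simp
  by_cases ha : a ∈ t
  · by_cases hb : b ∈ t
    · by_cases hc : c ∈ t
      · exact Or.inl ⟨x, hx a ha, hx b hb, hx c hc⟩
      · have hd := (h2 c mc d md hcd).resolve_left hc
        exact Or.inr (Or.inl ⟨x, hx a ha, hx b hb, hx d hd⟩)
    · have hc := (h2 b mb c mc hbc).resolve_left hb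
      have hd := (h2 b mb d md hbd).resolve_left hb
      exact Or.inr (Or.inr (Or.inl ⟨x, hx a ha, hx c hc, hx d hd⟩))
  · have hb := (h2 a ma b mb hab).resolve_left ha
    have hc := (h2 a ma c mc hac).resolve_left ha
    have hd := (h2 a ma d md had).resolve_left ha
    exact Or.inr (Or.inr (Or.inr ⟨x, hx b hb, hx c hc, hx d hd⟩))

/-- an index outside a set of three -/
theorem c2_other {ι : Type*} [Fintype ι] [DecidableEq ι] (hcard : 4 ≤ Fintype.card ι)
    (a b c : ι) : ∃ z, z ≠ a ∧ z ≠ b ∧ z ≠ c := by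
  have h1 : ({a, b, c} : Finset ι).card < (Finset.univ : Finset ι).card := by
    rw [Finset.card_univ]
    have := Finset.card_le_three (a := a) (b := b) (c := c)
    omega
  obtain ⟨z, -, hz⟩ := Finset.exists_mem_notMem_of_card_lt_card h1
  simp only [Finset.mem_insert, Finset.mem_singleton, not_or] at hz
  exact ⟨z, hz.1, hz.2.1, hz.2.2⟩

theorem c2_main {ι : Type*} [Fintype ι] [DecidableEq ι] (K : ι → Set (EuclideanSpace ℝ (Fin 2)))
    (hK : ∀ i, (K i).Nonempty ∧ Convex ℝ (K i) ∧ IsCompact (K i))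
    (h43 : ∀ s : Finset ι, s.card = 4 → ∃ t ⊆ s, t.card = 3 ∧ ∃ x, ∀ i ∈ t, x ∈ K i)
    (hcard : 4 ≤ Fintype.card ι)
    (A B : ι) (hAB : Disjoint (K A) (K B)) (hNB : ∀ i, i ≠ A → (K i ∩ K B).Nonempty) :
    ∃ P : Finset (EuclideanSpace ℝ (Fin 2)), P.card ≤ 6 ∧ ∀ i, ∃ x ∈ P, x ∈ K i := by
  classical
  have hneAB : A ≠ B := by
    rintro rfl
    obtain ⟨x, hx⟩ := (hK A).1
    exact Set.disjoint_left.1 hAB hx hx
  have hdA : ∀ i x, Disjoint (K i) (K A) → x ∈ K i → x ∈ K A → False := fun i x h h1 h2 =>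
    Set.disjoint_left.1 h h1 h2
  -- three members outside A
  have htrip : ∀ X Y Z : ι, X ≠ A → Y ≠ A → Z ≠ A → X ≠ Y → X ≠ Z → Y ≠ Z →
      Disjoint (K X) (K A) → Disjoint (K Y) (K A) → ∃ x, x ∈ K X ∧ x ∈ K Y ∧ x ∈ K Z := by
    intro X Y Z hXA hYA hZA hXY hXZ hYZ dX dY
    rcases c2_four K h43 A X Y Z hXA.symm hYA.symm hZA.symm hXY hXZ hYZ with
      ⟨x, h1, h2, h3⟩ | ⟨x, h1, h2, h3⟩ | ⟨x, h1, h2, h3⟩ | ⟨x, h1, h2, h3⟩
    · exact (hdA X x dX h2 h1).elim
    · exact (hdA X x dX h2 h1).elim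
    · exact (hdA Y x dY h2 h1).elim
    · exact ⟨x, h1, h2, h3⟩
  set NA : Finset ι := Finset.univ.filter (fun i => i ≠ A ∧ Disjoint (K i) (K A)) with hNA
  have hmem : ∀ i, i ∈ NA ↔ i ≠ A ∧ Disjoint (K i) (K A) := by
    intro i
    rw [hNA, Finset.mem_filter]
    exact ⟨fun h => h.2, fun h => ⟨Finset.mem_univ _, h⟩⟩
  have hfr : Module.finrank ℝ (EuclideanSpace ℝ (Fin 2)) = 2 := by simp
  have hnu : (⋂ i ∈ NA, K i).Nonempty := by
    refine Convex.helly_theorem' (𝕜 := ℝ) (fun i _ => (hK i).2.1) ?_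
    intro J hJ hJc
    rw [hfr] at hJc
    have hJ' : ∀ i ∈ J, i ≠ A ∧ Disjoint (K i) (K A) := fun i hi => (hmem i).1 (hJ hi)
    rcases Nat.lt_or_ge J.card 1 with h0 | h0
    · have : J = ∅ := Finset.card_eq_zero.1 (by omega)
      subst this
      simp
    rcases Nat.lt_or_ge J.card 2 with h1 | h1
    · obtain ⟨X, rfl⟩ := Finset.card_eq_one.1 (by omega : J.card = 1)
      obtain ⟨x, hx⟩ := (hK X).1
      exact ⟨x, by simpa using hx⟩
    rcases Nat.lt_or_ge J.card 3 with h2 | h2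
    · obtain ⟨X, Y, hXY, rfl⟩ := Finset.card_eq_two.1 (by omega : J.card = 2)
      obtain ⟨Z, hZA, hZX, hZY⟩ := c2_other hcard A X Y
      have hX := hJ' X (by simp)
      have hY := hJ' Y (by simp)
      obtain ⟨x, hx1, hx2, -⟩ := htrip X Y Z hX.1 hY.1 hZA hXY hZX.symm hZY.symm hX.2 hY.2
      refine ⟨x, ?_⟩
      simp only [Set.mem_iInter]
      intro i hi
      rw [Finset.mem_insert, Finset.mem_singleton] at hi
      rcases hi with rfl | rfl
      · exact hx1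
      · exact hx2
    · obtain ⟨X, Y, Z, hXY, hXZ, hYZ, rfl⟩ := Finset.card_eq_three.1 (by omega : J.card = 3)
      have hX := hJ' X (by simp)
      have hY := hJ' Y (by simp)
      have hZ := hJ' Z (by simp)
      obtain ⟨x, hx1, hx2, hx3⟩ := htrip X Y Z hX.1 hY.1 hZ.1 hXY hXZ hYZ hX.2 hY.2
      refine ⟨x, ?_⟩
      simp only [Set.mem_iInter]
      intro i hi
      rw [Finset.mem_insert, Finset.mem_insert, Finset.mem_singleton] at hi
      rcases hi with rfl | rfl | rfl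
      · exact hx1
      · exact hx2
      · exact hx3
  obtain ⟨nu, hnu⟩ := hnu
  simp only [Set.mem_iInter] at hnu
  -- the rest
  have hAJ : A = B ∨ A ∉ NA := Or.inr fun h => ((hmem A).1 h).1 rfl
  have hBJ : B = B ∨ B ∉ NA := Or.inl rfl
  obtain ⟨P, hP5, hP⟩ := thmB (ι := {i : ι // i = B ∨ i ∉ NA}) (fun i => K i.1)
    (fun i => hK i.1) (by
      intro s hs
      obtain ⟨t, hts, htc, x, hx⟩ := h43 (s.map (Function.Embedding.subtype _))
        (by rw [Finset.card_map, hs])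
      refine ⟨t.subtype _, ?_, ?_, x, ?_⟩
      · intro j hj
        rw [Finset.mem_subtype] at hj
        have h1 := hts hj
        rw [Finset.mem_map] at h1
        obtain ⟨j', hj', hjj⟩ := h1
        have : j' = j := Subtype.ext hjj
        rwa [← this]
      · rw [Finset.card_subtype, Finset.filter_true_of_mem, htc]
        intro i hi
        have h1 := hts hi
        rw [Finset.mem_map] at h1
        obtain ⟨j', -, rfl⟩ := h1
        exact j'.2
      · intro i hi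
        rw [Finset.mem_subtype] at hi
        exact hx _ hi) ⟨A, hAJ⟩ ⟨B, hBJ⟩ hAB (by
      rintro ⟨i, hi⟩ hne
      have hiB : i ≠ B := fun h => hne (Subtype.ext h)
      have hi' := hi.resolve_left hiB
      rw [hmem] at hi'
      show (K i ∩ K A).Nonempty
      by_cases hiA : i = A
      · rw [hiA, Set.inter_self]; exact (hK A).1
      · by_contra hcon
        exact hi' ⟨hiA, Set.disjoint_iff_inter_eq_empty.2 (Set.not_nonempty_iff_eq_empty.1 hcon)⟩)
    (by
      rintro ⟨i, hi⟩ hne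
      exact hNB i fun h => hne (Subtype.ext h))
  refine ⟨insert nu P, (Finset.card_insert_le _ _).trans (by omega), ?_⟩
  intro i
  by_cases hi : i ∈ NA
  · exact ⟨nu, Finset.mem_insert_self _ _, hnu i hi⟩
  · obtain ⟨x, hx, hxi⟩ := hP ⟨i, Or.inr hi⟩
    exact ⟨x, Finset.mem_insert_of_mem hx, hxi⟩

/-- TARGET. -/
theorem case2 {ι : Type*} [Fintype ι] [DecidableEq ι] (K : ι → Set (EuclideanSpace ℝ (Fin 2)))
    (hK : ∀ i, (K i).Nonempty ∧ Convex ℝ (K i) ∧ IsCompact (K i))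
    (h43 : ∀ s : Finset ι, s.card = 4 → ∃ t ⊆ s, t.card = 3 ∧ ∃ x, ∀ i ∈ t, x ∈ K i)
    (A B : ι) (hAB : Disjoint (K A) (K B)) :
    ∃ P : Finset (EuclideanSpace ℝ (Fin 2)), P.card ≤ 6 ∧ ∀ i, ∃ x ∈ P, x ∈ K i := by
  classical
  rcases Nat.lt_or_ge (Fintype.card ι) 4 with hcard | hcard
  · choose f hf using fun i => (hK i).1
    refine ⟨Finset.univ.image f, Finset.card_image_le.trans ?_, fun i =>
      ⟨f i, Finset.mem_image_of_mem f (Finset.mem_univ i), hf i⟩⟩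
    rw [Finset.card_univ]
    omega
  have hneAB : A ≠ B := by
    rintro rfl
    obtain ⟨x, hx⟩ := (hK A).1
    exact Set.disjoint_left.1 hAB hx hx
  by_cases hNB : ∀ i, i ≠ A → (K i ∩ K B).Nonempty
  · exact c2_main K hK h43 hcard A B hAB hNB
  by_cases hNA : ∀ i, i ≠ B → (K i ∩ K A).Nonempty
  · exact c2_main K hK h43 hcard B A hAB.symm hNA
  exfalso
  push Not at hNB hNA
  obtain ⟨D, hDA, hD⟩ := hNB
  obtain ⟨C, hCB, hC⟩ := hNA
  have hDB : D ≠ B := by
    rintro rfl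
    obtain ⟨x, hx⟩ := (hK D).1
    have : x ∈ K D ∩ K D := ⟨hx, hx⟩
    rw [hD] at this
    exact this
  have hCA : C ≠ A := by
    rintro rfl
    obtain ⟨x, hx⟩ := (hK C).1
    have : x ∈ K C ∩ K C := ⟨hx, hx⟩
    rw [hC] at this
    exact this
  have dAB : ∀ x, x ∈ K A → x ∈ K B → False := fun x h1 h2 => Set.disjoint_left.1 hAB h1 h2
  have dDB : ∀ x, x ∈ K D → x ∈ K B → False := fun x h1 h2 => by
    have : x ∈ K D ∩ K B := ⟨h1, h2⟩
    rw [hD] at this
    exact this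
  have dCA : ∀ x, x ∈ K C → x ∈ K A → False := fun x h1 h2 => by
    have : x ∈ K C ∩ K A := ⟨h1, h2⟩
    rw [hC] at this
    exact this
  by_cases hCD : C = D
  · subst hCD
    obtain ⟨X, hXA, hXB, hXC⟩ := c2_other hcard A B C
    rcases c2_four K h43 A B C X hneAB hCA.symm hXA.symm hCB.symm hXB.symm hXC.symm with
      ⟨x, h1, h2, h3⟩ | ⟨x, h1, h2, h3⟩ | ⟨x, h1, h2, h3⟩ | ⟨x, h1, h2, h3⟩
    · exact dAB x h1 h2
    · exact dAB x h1 h2
    · exact dCA x h2 h1
    · exact dDB x h2 h1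
  · rcases c2_four K h43 A B C D hneAB hCA.symm hDA.symm hCB.symm hDB.symm hCD with
      ⟨x, h1, h2, h3⟩ | ⟨x, h1, h2, h3⟩ | ⟨x, h1, h2, h3⟩ | ⟨x, h1, h2, h3⟩
    · exact dAB x h1 h2
    · exact dAB x h1 h2
    · exact dCA x h2 h1
    · exact dDB x h3 h1

end H257R5.C2
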